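import Mathlib
import Pool.Agent.Lib.MP_ee7b66_ag.HessePencil
import Pool.Agent.Lib.MP_ee7b66_ag.G.Cl

section

/-!
# Sections over the intersection of two affine planes

A rational section regular at all points outside the twelve points of the configuration, over the
locus `X_a X_c ≠ 0`, becomes polynomial after multiplication with a power of `X_a X_c`.
-/

open scoped LinearAlgebra.Projectivization
open TopologicalSpace MvPolynomial

universe u

namespace Pool.Agent.Lib.MP_ee7b66_ag.Hes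

open Pool.Agent.Lib.MP_8481ed_ag

noncomputable section

variable {k : Type u} [Field k] {r : ℕ} {p : Fin r → Plane k}

lemma isRelPrime_X {a b : Fin 3} (hab : a ≠ b) : IsRelPrime (X a : CoordRing k) (X b) := by
  rw [Irreducible.isRelPrime_iff_not_dvd (MvPolynomial.X_prime (i := a)).irreducible]
  rw [X_dvd_X]
  exact hab

lemma isRelPrime_X_cube {a c : Fin 3} (hac : a ≠ c) :
    IsRelPrime (X a : CoordRing k) (X a ^ 3 - X c ^ 3) := by
  intro d h1 h2
  have h3 : d ∣ (X c ^ 3 : CoordRing k) := by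
    have : (X c ^ 3 : CoordRing k) = X a ^ 2 * X a - (X a ^ 3 - X c ^ 3) := by ring
    rw [this]
    exact dvd_sub (Dvd.dvd.mul_left h1 _) h2
  exact (isRelPrime_X hac).pow_right h1 h3

lemma isRelPrime_cubes {a b c : Fin 3} (hab : a ≠ b) (hac : a ≠ c) (hbc : b ≠ c) :
    IsRelPrime (X a ^ 3 - X c ^ 3 : CoordRing k) (X b ^ 3 - X c ^ 3) := by
  classical
  intro d h1 h2
  obtain ⟨S, hS⟩ := h1
  have hP : (X a ^ 3 - X c ^ 3 : CoordRing k) ≠ 0 := by
    intro h
    have := congrArg (eval (fun j => if j = a then (1 : k) else 0)) h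
    simp [hac.symm] at this
  have hd0 : d ≠ 0 := by
    rintro rfl
    rw [zero_mul] at hS
    exact hP hS
  have hS0 : S ≠ 0 := by
    rintro rfl
    rw [mul_zero] at hS
    exact hP hS
  have hdeg : degreeOf b (X a ^ 3 - X c ^ 3 : CoordRing k) = 0 := by
    have e1 : degreeOf b (X a ^ 3 : CoordRing k) = 0 := by
      have := degreeOf_pow_le b (X a : CoordRing k) 3
      rw [degreeOf_X_of_ne hab.symm] at this
      omega
    have e2 : degreeOf b (X c ^ 3 : CoordRing k) = 0 := by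
      have := degreeOf_pow_le b (X c : CoordRing k) 3
      rw [degreeOf_X_of_ne hbc] at this
      omega
    have e3 := degreeOf_sub_le b (X a ^ 3 : CoordRing k) (X c ^ 3)
    rw [e1, e2] at e3
    simpa using e3
  have hdd : degreeOf b d = 0 := by
    rw [hS, degreeOf_mul_eq hd0 hS0] at hdeg
    omega
  have hvars : b ∉ d.vars := by
    intro hb
    rw [vars_def, Multiset.mem_toFinset, ← Multiset.count_pos, ← degreeOf_def] at hb
    omega
  let ψ : CoordRing k →ₐ[k] CoordRing k := aeval (fun j => if j = b then 0 else X j)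
  have hψ : ψ d = d := by
    have := hom_congr_vars (f₁ := (ψ : CoordRing k →+* CoordRing k))
      (f₂ := RingHom.id (CoordRing k)) (p₁ := d) (p₂ := d) (by
        ext t
        simp [ψ]) (fun i hi _ => by
        have hib : i ≠ b := by
          rintro rfl
          exact hvars hi
        simp [ψ, hib]) rfl
    exact this
  have h3 : d ∣ (X c ^ 3 : CoordRing k) := by
    have h4 := map_dvd ψ h2
    rw [hψ] at h4
    have h5 : ψ (X b ^ 3 - X c ^ 3 : CoordRing k) = -(X c ^ 3) := by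
      simp [ψ, hbc.symm]
    rw [h5] at h4
    exact (dvd_neg).1 h4
  have h4 : d ∣ (X a ^ 3 : CoordRing k) := by
    have : (X a ^ 3 : CoordRing k) = d * S + X c ^ 3 := by
      rw [← hS]
      ring
    rw [this]
    exact dvd_add (Dvd.intro _ rfl) h3
  exact (isRelPrime_X hac).pow h4 h3

lemma isRelPrime_quartics {a b c : Fin 3} (hab : a ≠ b) (hac : a ≠ c) (hbc : b ≠ c) :
    IsRelPrime (X b * (X a ^ 3 - X c ^ 3) : CoordRing k) (X a * (X b ^ 3 - X c ^ 3)) := by
  refine IsRelPrime.mul_left (IsRelPrime.mul_right ?_ ?_) (IsRelPrime.mul_right ?_ ?_)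
  · exact isRelPrime_X hab.symm
  · exact isRelPrime_X_cube hbc
  · exact (isRelPrime_X_cube hac).symm
  · exact isRelPrime_cubes hab hac hbc

/-- The radical argument: a form without zeros over `X_a X_c ≠ 0` outside the twelve points
divides a power of `X_a X_c`. -/
lemma dvd_pow_of_no_zero [IsAlgClosed k] {a b c : Fin 3} (hab : a ≠ b) (hac : a ≠ c) (hbc : b ≠ c) (B : CoordRing k)
    (hB : ∀ v : Fin 3 → k, v a ≠ 0 → v c ≠ 0 → ¬ HesseZero v → eval v B ≠ 0) :
    ∃ N : ℕ, B ∣ (X a * X c) ^ N := by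
  have key : ∀ H : CoordRing k, (∀ v, HesseZero v → v a ≠ 0 → v c ≠ 0 → eval v H = 0) →
      ∃ N : ℕ, B ∣ (X a * X c * H) ^ N := by
    intro H hH
    have h1 : X a * X c * H ∈ (Ideal.span {B}).radical := by
      rw [← vanishingIdeal_zeroLocus_eq_radical (K := k)]
      intro v hv
      have hBv : eval v B = 0 := hv B (Ideal.mem_span_singleton_self B)
      change aeval v _ = 0
      have e : ∀ f : CoordRing k, aeval v f = eval v f := fun f => rfl
      rw [e, map_mul, map_mul, eval_X, eval_X]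
      by_cases h0 : v a = 0
      · rw [h0, zero_mul, zero_mul]
      by_cases h2 : v c = 0
      · rw [h2, mul_zero, zero_mul]
      by_cases h3 : HesseZero v
      · rw [hH v h3 h0 h2, mul_zero]
      · exact absurd hBv (hB v h0 h2 h3)
    obtain ⟨N, hN⟩ := h1
    exact ⟨N, Ideal.mem_span_singleton.1 hN⟩
  obtain ⟨N₁, h₁⟩ := key (X b * (X a ^ 3 - X c ^ 3)) (fun v hv _ _ => by
    have := hv.eqs b a c hab.symm hbc hac
    simpa using this)
  obtain ⟨N₂, h₂⟩ := key (X a * (X b ^ 3 - X c ^ 3)) (fun v hv _ _ => by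
    have := hv.eqs a b c hab hac hbc
    simpa using this)
  set F : CoordRing k := X b * (X a ^ 3 - X c ^ 3) with hF
  set G : CoordRing k := X a * (X b ^ 3 - X c ^ 3) with hG
  set M : CoordRing k := X a * X c with hM
  refine ⟨N₁ + N₂, ?_⟩
  have h3 : B ∣ M ^ (N₁ + N₂) * F ^ (N₁ + N₂) := by
    rw [← mul_pow]
    exact h₁.trans (pow_dvd_pow _ (Nat.le_add_right _ _))
  have h4 : B ∣ M ^ (N₁ + N₂) * G ^ (N₁ + N₂) := by
    rw [← mul_pow]
    exact h₂.trans (pow_dvd_pow _ (Nat.le_add_left _ _))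
  let _ : GCDMonoid (CoordRing k) := UniqueFactorizationMonoid.toGCDMonoid _
  have h5 : B ∣ gcd (M ^ (N₁ + N₂) * F ^ (N₁ + N₂)) (M ^ (N₁ + N₂) * G ^ (N₁ + N₂)) :=
    dvd_gcd h3 h4
  have h6 := (gcd_mul_left' (M ^ (N₁ + N₂)) (F ^ (N₁ + N₂)) (G ^ (N₁ + N₂))).dvd
  have h7 : IsUnit (gcd (F ^ (N₁ + N₂)) (G ^ (N₁ + N₂))) := by
    rw [gcd_isUnit_iff_isRelPrime]
    exact (isRelPrime_quartics hab hac hbc).pow
  have h8 : M ^ (N₁ + N₂) * gcd (F ^ (N₁ + N₂)) (G ^ (N₁ + N₂)) ∣ M ^ (N₁ + N₂) :=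
    (h7.mul_right_dvd).2 dvd_rfl
  exact h5.trans (h6.trans h8)

/-- A rational section regular over `X_a X_c ≠ 0` outside the twelve points becomes polynomial
after multiplication with a power of `X_a X_c`. -/
lemma exists_polynomial [IsAlgClosed k] (hp : ∀ q : Plane k, HesseZero q.rep ↔ ∃ i, q = p i)
    {a b c : Fin 3} (hab : a ≠ b) (hac : a ≠ c) (hbc : b ≠ c) (d : ℤ) (m : Fin r → ℤ) (s : Frac k)
    (hs : ∀ (q : Plane k) (hq : ∀ i, q ≠ p i), q.rep a ≠ 0 → q.rep c ≠ 0 →
      IsRegularAt p d m (.away q hq) s) :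
    ∃ (N : ℕ) (A : CoordRing k), s * toFrac ((X a * X c) ^ N) = toFrac A := by
  obtain ⟨A, B, hAB, rfl⟩ := IsFractionRing.exists_reduced_fraction (CoordRing k) s
  obtain ⟨N, C, hC⟩ := dvd_pow_of_no_zero hab hac hbc (B : CoordRing k) (fun v ha hc hv => by
    have hv0 : v ≠ 0 := by
      rintro rfl
      exact ha rfl
    set q : Plane k := Projectivization.mk k v hv0 with hq
    obtain ⟨t, ht⟩ := Projectivization.exists_smul_eq_mk_rep k v hv0
    have ht' : q.rep = (t : k) • v := ht.symm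
    have ht0 : (t : k) ≠ 0 := t.ne_zero
    have hqi : ∀ i, q ≠ p i := by
      intro i hi
      apply hv
      have h1 := (hp q).2 ⟨i, hi⟩
      rw [ht'] at h1
      obtain ⟨e0, e1, e2⟩ := h1
      simp only [Pi.smul_apply, smul_eq_mul] at e0 e1 e2
      have ht4 : (t : k) ^ 4 ≠ 0 := pow_ne_zero _ ht0
      refine ⟨?_, ?_, ?_⟩
      · apply mul_left_cancel₀ ht4
        linear_combination e0
      · apply mul_left_cancel₀ ht4
        linear_combination e1
      · apply mul_left_cancel₀ ht4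
        linear_combination e2
    obtain ⟨n, e, a', b', ha', hb', hn, hbq, hs'⟩ := hs q hqi (by
      rw [ht']
      exact mul_ne_zero ht0 ha) (by
      rw [ht']
      exact mul_ne_zero ht0 hc)
    have h1 : A * b' = a' * B := by
      apply toFrac_injective
      rw [map_mul, map_mul, ← hs']
      have h2 : IsLocalization.mk' (Frac k) A B * toFrac (B : CoordRing k) = toFrac A :=
        IsLocalization.mk'_spec _ _ _
      rw [mul_right_comm, h2]
    have h2 : (B : CoordRing k) ∣ b' := by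
      apply hAB.symm.dvd_of_dvd_mul_left
      rw [h1]
      exact Dvd.intro_left _ rfl
    obtain ⟨S, hS⟩ := h2
    intro hB
    apply hbq
    have h3 : eval v b' = 0 := by rw [hS, map_mul, hB, zero_mul]
    exact (eval_rep_mk hb' v hv0).2 h3)
  refine ⟨N, A * C, ?_⟩
  rw [hC, map_mul, ← mul_assoc, map_mul]
  congr 1
  exact IsLocalization.mk'_spec _ _ _

/-- The class of `1 / (X₀ X₁ X₂)` is not a sum of sections over the pairwise intersections. -/
theorem not_sum [IsAlgClosed k] (hp : ∀ q : Plane k, HesseZero q.rep ↔ ∃ i, q = p i)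
    (d : ℤ) (m : Fin r → ℤ) (s₀ s₁ s₂ : Frac k)
    (h₀ : ∀ (q : Plane k) (hq : ∀ i, q ≠ p i), q.rep 0 ≠ 0 → q.rep 1 ≠ 0 →
      IsRegularAt p d m (.away q hq) s₀)
    (h₁ : ∀ (q : Plane k) (hq : ∀ i, q ≠ p i), q.rep 1 ≠ 0 → q.rep 2 ≠ 0 →
      IsRegularAt p d m (.away q hq) s₁)
    (h₂ : ∀ (q : Plane k) (hq : ∀ i, q ≠ p i), q.rep 0 ≠ 0 → q.rep 2 ≠ 0 →
      IsRegularAt p d m (.away q hq) s₂) :
    (toFrac (X 0 * X 1 * X 2))⁻¹ ≠ s₀ + s₁ + s₂ := by
  intro hsum
  obtain ⟨N₀, A₀, e₀⟩ := exists_polynomial hp (a := 0) (b := 2) (c := 1) (by decide) (by decide)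
    (by decide) d m s₀ h₀
  obtain ⟨N₁, A₁, e₁⟩ := exists_polynomial hp (a := 1) (b := 0) (c := 2) (by decide) (by decide)
    (by decide) d m s₁ h₁
  obtain ⟨N₂, A₂, e₂⟩ := exists_polynomial hp (a := 0) (b := 1) (c := 2) (by decide) (by decide)
    (by decide) d m s₂ h₂
  -- a common exponent, at least one
  obtain ⟨N, hN, hN₀, hN₁, hN₂⟩ : ∃ N, 1 ≤ N ∧ N₀ ≤ N ∧ N₁ ≤ N ∧ N₂ ≤ N :=
    ⟨N₀ + N₁ + N₂ + 1, by omega, by omega, by omega, by omega⟩
  have lift : ∀ {s : Frac k} {P A : CoordRing k} {M : ℕ}, M ≤ N →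
      s * toFrac (P ^ M) = toFrac A → s * toFrac (P ^ N) = toFrac (A * P ^ (N - M)) := by
    intro s P A M hM h
    rw [map_mul, ← h, mul_assoc, ← map_mul, ← pow_add]
    congr 3
    omega
  have f₀ := lift hN₀ e₀
  have f₁ := lift hN₁ e₁
  have f₂ := lift hN₂ e₂
  have hX : toFrac (X 0 * X 1 * X 2 : CoordRing k) ≠ 0 :=
    toFrac_ne_zero (mul_ne_zero (mul_ne_zero (X_ne_zero 0) (X_ne_zero 1)) (X_ne_zero 2))
  have hmain : (X 0 * X 1 * X 2 : CoordRing k) ^ (N - 1) =
      A₀ * (X 0 * X 1) ^ (N - N₀) * X 2 ^ N + A₁ * (X 1 * X 2) ^ (N - N₁) * X 0 ^ N +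
        A₂ * (X 0 * X 2) ^ (N - N₂) * X 1 ^ N := by
    apply toFrac_injective
    rw [map_add, map_add, map_mul _ _ (X 2 ^ N), map_mul _ _ (X 0 ^ N), map_mul _ _ (X 1 ^ N),
      ← f₀, ← f₁, ← f₂]
    have e3 : toFrac ((X 0 * X 1 * X 2 : CoordRing k) ^ (N - 1)) =
        (toFrac (X 0 * X 1 * X 2))⁻¹ * toFrac (X 0 * X 1 * X 2 : CoordRing k) ^ N := by
      obtain ⟨N', rfl⟩ := Nat.exists_eq_add_of_le hN
      rw [Nat.add_sub_cancel_left, map_pow, pow_add, pow_one, ← mul_assoc, inv_mul_cancel₀ hX,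
        one_mul]
    rw [e3, hsum]
    simp only [map_mul, map_pow]
    ring
  -- compare the coefficients of `(X₀ X₁ X₂) ^ (N - 1)`
  let e : Fin 3 →₀ ℕ := Finsupp.equivFunOnFinite.symm (fun _ => N - 1)
  have he : ∀ j, e j = N - 1 := fun j => rfl
  have hc := congrArg (coeff e) hmain
  have hl : coeff e ((X 0 * X 1 * X 2 : CoordRing k) ^ (N - 1)) = 1 := by
    have : (X 0 * X 1 * X 2 : CoordRing k) ^ (N - 1) = monomial e 1 := by
      rw [monomial_eq, C_1, one_mul, Finsupp.prod_fintype _ _ (by simp)]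
      simp only [he]
      rw [Fin.prod_univ_three, mul_pow, mul_pow]
    rw [this, coeff_monomial, if_pos rfl]
  have hr : ∀ (A : CoordRing k) (j : Fin 3), coeff e (A * X j ^ N) = 0 := by
    intro A j
    rw [X_pow_eq_monomial, coeff_mul_monomial']
    rw [if_neg]
    intro hle
    have := hle j
    rw [he, Finsupp.single_eq_same] at this
    omega
  rw [hl, coeff_add, coeff_add, hr, hr, hr] at hc
  simp at hc

end

end Pool.Agent.Lib.MP_ee7b66_ag.Hes
end

section

/-!
# Charts give open embeddings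
-/

open scoped LinearAlgebra.Projectivization
open Pool.Agent.Lib.MP_8481ed_ag TopologicalSpace MvPolynomial Topology

namespace Pool.Agent.Lib.MP_ee7b66_ag

noncomputable section

variable {r : ℕ} {p : Fin r → Plane ℂ}

namespace LChart

variable (C : LChart p)

/-- The image of a chart in `ℂ²`. -/
abbrev Im : Type := {z : Fin 2 → ℂ // eval z C.g ≠ 0}

/-- The inverse of the chart. -/
def sect (z : C.Im) : BlowUp p := (C.surj z.1 z.2).choose

lemma sect_mem (z : C.Im) : C.sect z ∈ C.dom := (C.surj z.1 z.2).choose_spec.1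

@[simp] lemma crd_sect (z : C.Im) : C.crd (C.sect z) = z.1 := (C.surj z.1 z.2).choose_spec.2

lemma sect_crd {y : BlowUp p} (hy : y ∈ C.dom) : C.sect ⟨C.crd y, C.g_ne y hy⟩ = y :=
  C.inj _ (C.sect_mem _) _ hy (by rw [crd_sect])

lemma range_sect : Set.range C.sect = C.dom := by
  ext y
  constructor
  · rintro ⟨z, rfl⟩
    exact C.sect_mem z
  · intro hy
    exact ⟨_, C.sect_crd hy⟩

lemma isOpen_im : IsOpen {z : Fin 2 → ℂ | eval z C.g ≠ 0} := by
  have h : Continuous fun z : Fin 2 → ℂ => eval z C.g := C.g.continuous_eval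
  exact isOpen_ne_fun h continuous_const

/-- The inverse of the chart is an open embedding. -/
theorem isOpenEmbedding_sect : @Topology.IsOpenEmbedding C.Im (BlowUp p) _ (classical p) C.sect := by
  let _ := classical p
  refine Topology.IsOpenEmbedding.of_continuous_injective_isOpenMap ?_ ?_ ?_
  · refine continuous_def.2 fun V hV => ?_
    have h1 : IsOpen[classical p] (V ∩ C.dom) := hV.inter C.isOpen_dom_classical
    have h2 := (C.isOpen_classical_iff Set.inter_subset_right).1 h1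
    have h3 : C.sect ⁻¹' V = Subtype.val ⁻¹' (C.crd '' (V ∩ C.dom)) := by
      ext z
      constructor
      · intro hz
        exact ⟨C.sect z, ⟨hz, C.sect_mem z⟩, C.crd_sect z⟩
      · rintro ⟨y, ⟨hyV, hy⟩, hyz⟩
        have : C.sect z = y := C.inj _ (C.sect_mem z) _ hy (by rw [crd_sect, hyz])
        change C.sect z ∈ V
        rwa [this]
    rw [h3]
    exact h2.preimage continuous_subtype_val
  · intro z z' h
    have := congrArg C.crd h
    rw [crd_sect, crd_sect] at this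
    exact Subtype.ext this
  · intro W hW
    obtain ⟨W', hW', rfl⟩ := isOpen_induced_iff.1 hW
    have hsub : C.sect '' (Subtype.val ⁻¹' W') ⊆ C.dom := by
      rintro _ ⟨z, -, rfl⟩
      exact C.sect_mem z
    refine (C.isOpen_classical_iff hsub).2 ?_
    have h3 : C.crd '' (C.sect '' (Subtype.val ⁻¹' W')) = W' ∩ {z | eval z C.g ≠ 0} := by
      ext z
      constructor
      · rintro ⟨_, ⟨z', hz', rfl⟩, rfl⟩
        rw [crd_sect]
        exact ⟨hz', z'.2⟩
      · rintro ⟨hz, hz'⟩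
        exact ⟨C.sect ⟨z, hz'⟩, ⟨⟨z, hz'⟩, hz, rfl⟩, C.crd_sect _⟩
    rw [h3]
    exact hW'.inter C.isOpen_im

/-- The coordinates are continuous on the domain of the chart. -/
theorem continuousOn_crd : @ContinuousOn (BlowUp p) (Fin 2 → ℂ) (classical p) _ C.crd C.dom := by
  let _ := classical p
  have hO : IsOpen C.dom := C.isOpen_dom_classical
  refine (continuousOn_open_iff hO).2 fun W hW => ?_
  refine (C.isOpen_classical_iff Set.inter_subset_left).2 ?_
  have h3 : C.crd '' (C.dom ∩ C.crd ⁻¹' W) = W ∩ {z | eval z C.g ≠ 0} := by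
    ext z
    constructor
    · rintro ⟨y, ⟨hy, hyW⟩, rfl⟩
      exact ⟨hyW, C.g_ne y hy⟩
    · rintro ⟨hz, hz'⟩
      exact ⟨C.sect ⟨z, hz'⟩, ⟨C.sect_mem _, by change C.crd _ ∈ W; rw [crd_sect]; exact hz⟩,
        C.crd_sect _⟩
  rw [h3]
  exact hW.inter C.isOpen_im

end LChart

/-- A chart contained in `Aff p M` gives an open embedding of `{g ≠ 0}` in `Aff p M`
(`isOpen_classical_iff`, `surj`, `inj`, `isOpen_dom_classical`). -/
theorem LChart.exists_isOpenEmbedding (C : LChart p) {M : Fin 3 → ℂ}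
    (hM : ∀ y ∈ C.dom, lin M y.vec ≠ 0) :
    ∃ Φ : {z : Fin 2 → ℂ // eval z C.g ≠ 0} → Aff p M, IsOpenEmbedding Φ ∧
      (∀ z, Aff.pt p (Φ z) ∈ C.dom ∧ C.crd (Aff.pt p (Φ z)) = z.1) ∧
      ∀ y : Aff p M, Aff.pt p y ∈ C.dom → ∃ z, Φ z = y := by
  let Φ : {z : Fin 2 → ℂ // eval z C.g ≠ 0} → Aff p M := fun z =>
    ⟨C.sect z, hM _ (C.sect_mem z)⟩
  let _ := classical p
  have hpt : Continuous (Aff.pt p (M := M)) := continuous_induced_dom
  have hptE : IsEmbedding (Aff.pt p (M := M)) := ⟨⟨rfl⟩, fun x y h => Subtype.ext h⟩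
  have hcomp : (Aff.pt p (M := M)) ∘ Φ = C.sect := rfl
  have hsect : IsOpenEmbedding C.sect := C.isOpenEmbedding_sect
  have hΦc : Continuous Φ := by
    rw [hptE.continuous_iff, hcomp]
    exact hsect.continuous
  have hrange : Set.range Φ = (Aff.pt p (M := M)) ⁻¹' C.dom := by
    ext y
    constructor
    · rintro ⟨z, rfl⟩
      exact C.sect_mem z
    · intro hy
      exact ⟨_, Subtype.ext (C.sect_crd hy)⟩
  refine ⟨Φ, ⟨IsEmbedding.of_comp hΦc hpt (by rw [hcomp]; exact hsect.isEmbedding), ?_⟩,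
    fun z => ⟨C.sect_mem z, C.crd_sect z⟩, fun y hy => ?_⟩
  · rw [hrange]
    exact C.isOpen_dom_classical.preimage hpt
  · have : y ∈ Set.range Φ := by
      rw [hrange]
      exact hy
    exact this

end

end Pool.Agent.Lib.MP_ee7b66_ag
end
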