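import Mathlib
import Pool.Agent.Lib.MP_ee7b66_ag.H.Inc
import Pool.Agent.Lib.MP_ee7b66_ag.LC2
import Pool.Agent.Lib.MP_ee7b66_ag.Exc
import Pool.Agent.Lib.MP_ee7b66_ag.G.Co

section

/-!
# Charts centred at a point and adapted to a line
-/

open scoped LinearAlgebra.Projectivization
open Pool.Agent.Lib.MP_8481ed_ag TopologicalSpace MvPolynomial

namespace Pool.Agent.Lib.MP_ee7b66_ag

noncomputable section

/-- The square of the norm of a vector. -/
lemma sum_conj_ne_zero {v : Fin 3 → ℂ} (hv : v ≠ 0) :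
    v 0 * star (v 0) + v 1 * star (v 1) + v 2 * star (v 2) ≠ 0 := by
  intro h
  have h1 : ∀ z : ℂ, z * star z = ((Complex.normSq z : ℝ) : ℂ) := fun z => Complex.mul_conj z
  rw [h1, h1, h1, ← Complex.ofReal_add, ← Complex.ofReal_add, Complex.ofReal_eq_zero] at h
  apply hv
  have h0 := Complex.normSq_nonneg (v 0)
  have h2 := Complex.normSq_nonneg (v 1)
  have h3 := Complex.normSq_nonneg (v 2)
  have e0 : Complex.normSq (v 0) = 0 := by linarith
  have e1 : Complex.normSq (v 1) = 0 := by linarith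
  have e2 : Complex.normSq (v 2) = 0 := by linarith
  funext i
  fin_cases i
  · exact Complex.normSq_eq_zero.1 e0
  · exact Complex.normSq_eq_zero.1 e1
  · exact Complex.normSq_eq_zero.1 e2

/-- A frame adapted to a vector and to a linear form vanishing at it. -/
lemma exists_frame (v c : Fin 3 → ℂ) (hv : v ≠ 0) (hc : c ≠ 0) (hcv : lin c v = 0) :
    ∃ F : Frame, F.c 2 = c ∧ lin (F.c 1) v = 0 ∧ lin (F.c 0) v ≠ 0 := by
  let A : Matrix (Fin 3) (Fin 3) ℂ := Matrix.of ![fun i => star (v i),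
    ![v 1 * star (c 2) - v 2 * star (c 1), v 2 * star (c 0) - v 0 * star (c 2),
      v 0 * star (c 1) - v 1 * star (c 0)], c]
  have hdet : A.det ≠ 0 := by
    intro h
    rw [Matrix.det_fin_three] at h
    simp only [A, Matrix.of_apply, Matrix.cons_val_zero, Matrix.cons_val_one, Matrix.cons_val] at h
    simp only [lin, Fin.sum_univ_three] at hcv
    have h1 := mul_ne_zero (sum_conj_ne_zero hv) (sum_conj_ne_zero hc)
    apply h1
    linear_combination -h +
      (star (v 0) * star (c 0) + star (v 1) * star (c 1) + star (v 2) * star (c 2)) * hcv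
  refine ⟨⟨A, hdet⟩, rfl, ?_, ?_⟩
  · change lin ![v 1 * star (c 2) - v 2 * star (c 1), v 2 * star (c 0) - v 0 * star (c 2),
      v 0 * star (c 1) - v 1 * star (c 0)] v = 0
    simp only [lin, Fin.sum_univ_three, Matrix.cons_val_zero, Matrix.cons_val_one, Matrix.cons_val]
    ring
  · change lin (fun i => star (v i)) v ≠ 0
    simp only [lin, Fin.sum_univ_three]
    intro h
    apply sum_conj_ne_zero hv
    linear_combination h

/-- Every vector is a zero of a nonzero linear form. -/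
lemma exists_form (v : Fin 3 → ℂ) : ∃ c : Fin 3 → ℂ, c ≠ 0 ∧ lin c v = 0 := by
  by_cases h : v 0 = 0 ∧ v 1 = 0
  · refine ⟨![1, 0, 0], fun h0 => ?_, ?_⟩
    · have := congrFun h0 0
      simp at this
    · simp [lin, Fin.sum_univ_three, h.1]
  · refine ⟨![v 1, - v 0, 0], fun h0 => h ⟨?_, ?_⟩, ?_⟩
    · have := congrFun h0 1
      simpa using this
    · have := congrFun h0 0
      simpa using this
    · simp [lin, Fin.sum_univ_three]
      ring

variable {r : ℕ} {p : Fin r → Plane ℂ}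

/-- A chart centred at a point outside the exceptional curves in which a given line is `v = 0`. -/
lemma away_centred (q : Plane ℂ) (hq : ∀ i, q ≠ p i) (c : Fin 3 → ℂ) (hc : c ≠ 0)
    (hcq : lin c q.rep = 0) :
    ∃ (F : Frame) (C : LChart p), F.c 2 = c ∧ lin (F.c 1) q.rep = 0 ∧ lin (F.c 0) q.rep ≠ 0 ∧
      C.u = lq (F.c 1) (F.c 0) ∧ C.v = lq c (F.c 0) ∧ (.away q hq : BlowUp p) ∈ C.dom ∧
      C.crd (.away q hq) = 0 ∧ ∀ y ∈ C.dom, On p (.line (lker c)) y ↔ C.crd y 1 = 0 := by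
  obtain ⟨F, hF2, hF1, hF0⟩ := exists_frame q.rep c q.rep_nonzero hc hcq
  obtain ⟨n, h, hh, hk, hq0⟩ := exists_kills (F.c 0) q hq
  refine ⟨F, F.awayChart h hh hk, hF2, hF1, hF0, rfl, ?_, ⟨hF0, hq0⟩, ?_, ?_⟩
  · rw [← hF2]
    rfl
  · change ![lin (F.c 1) q.rep / lin (F.c 0) q.rep, lin (F.c 2) q.rep / lin (F.c 0) q.rep] = 0
    rw [hF1, hF2, hcq, zero_div]
    funext i
    fin_cases i <;> rfl
  · intro y hy
    cases y with
    | away q' hq' =>
      change q'.submodule ≤ lker c ↔ lin (F.c 2) q'.rep / lin (F.c 0) q'.rep = 0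
      rw [submodule_le_lker, hF2, div_eq_zero_iff]
      exact ⟨Or.inl, fun h => h.resolve_right hy.1⟩
    | exc i L => exact hy.elim

lemma lin_dir_ne_zero {k : Fin r} (L : LineThrough (p k)) {U : Fin 3 → ℂ}
    (hU : lin U (p k).rep = 0) (h : ∃ w ∈ L.1, lin U w ≠ 0) : lin U L.dir ≠ 0 := by
  obtain ⟨w, hw, hne⟩ := h
  intro h0
  obtain ⟨α, β, rfl⟩ := L.exists_coord w hw
  apply hne
  rw [lin_add, lin_smul, lin_smul, hU, h0, mul_zero, mul_zero, add_zero]

lemma eq_lker_iff {k : Fin r} (L : LineThrough (p k)) {c : Fin 3 → ℂ} (hc : c ≠ 0)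
    (hck : lin c (p k).rep = 0) : L.1 = lker c ↔ lin c L.dir = 0 := by
  constructor
  · intro h
    have h1 := L.dir_mem
    rwa [h, mem_lker] at h1
  · intro h
    refine Submodule.eq_of_le_of_finrank_eq ?_ (by rw [L.2.1, finrank_lker hc])
    intro w hw
    obtain ⟨α, β, rfl⟩ := L.exists_coord w hw
    rw [mem_lker, lin_add, lin_smul, lin_smul, hck, h, mul_zero, mul_zero, add_zero]

/-- A chart centred at a point of an exceptional curve in which the exceptional curve is `u = 0`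
and the line is `v = 0`. -/
lemma exc_centred (hp : Function.Injective p) (k : Fin r) (L : LineThrough (p k))
    (c : Fin 3 → ℂ) (hc : c ≠ 0) (hL : L.1 = lker c) :
    ∃ (F : Frame) (C : LChart p), F.c 2 = c ∧ lin (F.c 1) (p k).rep = 0 ∧
      lin (F.c 0) (p k).rep ≠ 0 ∧ lin (F.c 1) L.dir ≠ 0 ∧
      C.u = lq (F.c 1) (F.c 0) ∧ C.v = lq c (F.c 1) ∧ (.exc k L : BlowUp p) ∈ C.dom ∧
      C.crd (.exc k L) = 0 ∧ (∀ y ∈ C.dom, On p (.line (lker c)) y ↔ C.crd y 1 = 0) ∧
      ∀ y ∈ C.dom, On p (.exc k) y ↔ C.crd y 0 = 0 := by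
  have hck : lin c (p k).rep = 0 := by
    have h1 := L.rep_mem
    rwa [hL, mem_lker] at h1
  have hcd : lin c L.dir = 0 := by
    have h1 := L.dir_mem
    rwa [hL, mem_lker] at h1
  obtain ⟨F, hF2, hF1, hF0⟩ := exists_frame (p k).rep c (p k).rep_nonzero hc hck
  let F' : FrameAt p k := ⟨F, hF1, by rw [hF2]; exact hck⟩
  obtain ⟨n, h, hh, hk⟩ := exists_killsOther hp k (F.c 0)
  -- `U` does not vanish on `L`
  have hUd : lin (F.c 1) L.dir ≠ 0 := by
    intro h0
    have h1 : F.vecOf (fun j => lin (F.c j) L.dir) = L.dir := F.vecOf_lin _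
    have h2 : F.vecOf (fun j => lin (F.c j) (p k).rep) = (p k).rep := F.vecOf_lin _
    have e1 : (fun j => lin (F.c j) L.dir) =
        (lin (F.c 0) L.dir / lin (F.c 0) (p k).rep) • (fun j => lin (F.c j) (p k).rep) := by
      funext j
      fin_cases j
      · simp [div_mul_cancel₀ _ hF0]
      · simp [h0, hF1]
      · simp [hF2, hcd, hck]
    apply L.dir_not_mem
    rw [← h1, e1, Projectivization.submodule_eq, Submodule.mem_span_singleton]
    generalize lin (F.c 0) L.dir / lin (F.c 0) (p k).rep = t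
    refine ⟨t, ?_⟩
    have h3 : F.vecOf (t • fun j => lin (F.c j) (p k).rep) =
        t • F.vecOf (fun j => lin (F.c j) (p k).rep) := by
      unfold Frame.vecOf
      rw [Matrix.mulVec_smul]
    rw [h3, h2]
  refine ⟨F, F'.excChart h hh hk, hF2, hF1, hF0, hUd, rfl, ?_, ⟨rfl, L.dir, L.dir_mem, hUd⟩, ?_,
    ?_, ?_⟩
  · rw [← hF2]
    rfl
  · change ![0, lin (F.c 2) (LineThrough.dir L) / lin (F.c 1) (LineThrough.dir L)] = 0
    rw [hF2, hcd, zero_div]
    funext i
    fin_cases i <;> rfl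
  · intro y hy
    cases y with
    | away q' hq' =>
      change q'.submodule ≤ lker c ↔ lin (F.c 2) q'.rep / lin (F.c 1) q'.rep = 0
      rw [submodule_le_lker, hF2, div_eq_zero_iff]
      exact ⟨Or.inl, fun h => h.resolve_right hy.2.1⟩
    | exc i L' =>
      obtain ⟨rfl, hw⟩ : i = k ∧ ∃ w ∈ L'.1, lin (F.c 1) w ≠ 0 := hy
      change L'.1 = lker c ↔ lin (F.c 2) (LineThrough.dir L') / lin (F.c 1) (LineThrough.dir L') = 0
      rw [hF2, div_eq_zero_iff, eq_lker_iff L' hc hck]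
      exact ⟨Or.inl, fun h => h.resolve_right (lin_dir_ne_zero L' hF1 hw)⟩
  · intro y hy
    cases y with
    | away q' hq' =>
      change False ↔ lin (F.c 1) q'.rep / lin (F.c 0) q'.rep = 0
      rw [div_eq_zero_iff]
      exact ⟨False.elim, fun h => h.elim hy.2.1 hy.1⟩
    | exc i L' =>
      change i = k ↔ (0 : ℂ) = 0
      exact ⟨fun _ => rfl, fun _ => hy.1⟩

/-- In a chart centred at `x` the coordinate `v` is not divisible by `u`. -/
lemma LChart.not_dvd_v (C : LChart p) {x : BlowUp p} (hx : x ∈ C.dom) (h0 : C.crd x = 0) :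
    ¬ ∃ f : FunField, Reg p x f ∧ C.v = f * C.u := by
  rintro ⟨f, hf, hfu⟩
  obtain ⟨P, Q, hQ, rfl⟩ := (C.reg_iff hx f).1 hf
  have hQ0 := C.ev_ne_zero hx hQ
  have h1 : C.ev (X 1 * Q) = C.ev (X 0 * P) := by
    rw [map_mul, map_mul]
    have e0 : C.ev (X 0) = C.u := by simp [LChart.ev]
    have e1 : C.ev (X 1) = C.v := by simp [LChart.ev]
    rw [e0, e1, hfu]
    field_simp
  have h2 := C.ev_injective (C.g_ne_zero hx) h1
  have h3 := congrArg (fun R => eval (0 : Fin 2 → ℂ) (pderiv 1 R)) h2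
  simp only [Derivation.leibniz, pderiv_X_self, smul_eq_mul, map_add, map_mul, eval_X,
    Pi.zero_apply, mul_one, zero_mul, zero_add] at h3
  rw [pderiv_X_of_ne (by decide)] at h3
  simp only [map_zero, mul_zero] at h3
  rw [h0] at hQ
  exact hQ h3

/-- In a chart centred at `x` the coordinate `u` is not divisible by `v`. -/
lemma LChart.not_dvd_u (C : LChart p) {x : BlowUp p} (hx : x ∈ C.dom) (h0 : C.crd x = 0) :
    ¬ ∃ f : FunField, Reg p x f ∧ C.u = f * C.v := by
  rintro ⟨f, hf, hfu⟩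
  obtain ⟨P, Q, hQ, rfl⟩ := (C.reg_iff hx f).1 hf
  have hQ0 := C.ev_ne_zero hx hQ
  have h1 : C.ev (X 0 * Q) = C.ev (X 1 * P) := by
    rw [map_mul, map_mul]
    have e0 : C.ev (X 0) = C.u := by simp [LChart.ev]
    have e1 : C.ev (X 1) = C.v := by simp [LChart.ev]
    rw [e0, e1, hfu]
    field_simp
  have h2 := C.ev_injective (C.g_ne_zero hx) h1
  have h3 := congrArg (fun R => eval (0 : Fin 2 → ℂ) (pderiv 0 R)) h2
  simp only [Derivation.leibniz, pderiv_X_self, smul_eq_mul, map_add, map_mul, eval_X,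
    Pi.zero_apply, mul_one, zero_mul, zero_add] at h3
  rw [pderiv_X_of_ne (by decide)] at h3
  simp only [map_zero, mul_zero] at h3
  rw [h0] at hQ
  exact hQ h3

end

end Pool.Agent.Lib.MP_ee7b66_ag
end

section

/-!
# The boundary divisor has simple normal crossings and is minimal
-/

open scoped LinearAlgebra.Projectivization
open Pool.Agent.Lib.MP_8481ed_ag TopologicalSpace MvPolynomial

namespace Pool.Agent.Lib.MP_ee7b66_ag

noncomputable section

variable {r : ℕ} {p : Fin r → Plane ℂ}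

/-- Simple normal crossings: it is enough that through a point outside the exceptional curves
passes at most one component. -/
theorem isSNC_of (hp : Function.Injective p) {𝒟 : Set (Curve r)} (h𝒟 : IsBoundary 𝒟)
    (h : ∀ q : Plane ℂ, (∀ i, q ≠ p i) → ∀ Λ Λ', Curve.line Λ ∈ 𝒟 → Curve.line Λ' ∈ 𝒟 →
      q.submodule ≤ Λ → q.submodule ≤ Λ' → Λ = Λ') : IsSNC p 𝒟 := by
  intro x
  cases x with
  | away q hq =>
    -- the form defining the line through `q`
    obtain ⟨c, hc, hcq, hline⟩ : ∃ c : Fin 3 → ℂ, c ≠ 0 ∧ lin c q.rep = 0 ∧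
        ∀ Λ, Curve.line Λ ∈ 𝒟 → q.submodule ≤ Λ → Λ = lker c := by
      by_cases hex : ∃ Λ, Curve.line Λ ∈ 𝒟 ∧ q.submodule ≤ Λ
      · obtain ⟨Λ, hΛ, hqΛ⟩ := hex
        obtain ⟨c, hc, rfl⟩ := exists_lker Λ (h𝒟.2 Λ hΛ)
        exact ⟨c, hc, (submodule_le_lker q c).1 hqΛ, fun Λ' hΛ' hq' => h q hq _ _ hΛ' hΛ hq' hqΛ⟩
      · obtain ⟨c, hc, hcq⟩ := exists_form q.rep
        exact ⟨c, hc, hcq, fun Λ hΛ hqΛ => (hex ⟨Λ, hΛ, hqΛ⟩).elim⟩
    obtain ⟨F, C, -, -, -, -, -, hx, h0, hv⟩ := away_centred (p := p) q hq c hc hcq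
    refine ⟨C.u, C.v, C.val_zero_iff hx h0, ?_, ?_⟩
    · intro Cu hCu hon
      cases Cu with
      | line Λ =>
        obtain rfl := hline Λ hCu hon
        exact Or.inr (C.gen_v hx (by rw [h0]; rfl) hv)
      | exc i => exact hon.elim
    · intro Cu hCu Cu' hCu' hon hon' hne
      cases Cu with
      | line Λ =>
        cases Cu' with
        | line Λ' =>
          exact absurd (by rw [h q hq Λ Λ' hCu hCu' hon hon']) hne
        | exc i => exact hon'.elim
      | exc i => exact hon.elim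
  | exc k L =>
    obtain ⟨c, hc, hL⟩ := exists_lker L.1 L.2.1
    obtain ⟨F, C, -, -, -, -, -, -, hx, h0, hv, hu⟩ := exc_centred hp k L c hc hL
    have gv : Gen p (.exc k L) (InIdeal p (.line (lker c)) (.exc k L)) C.v :=
      C.gen_v hx (by rw [h0]; rfl) hv
    have gu : Gen p (.exc k L) (InIdeal p (.exc k) (.exc k L)) C.u :=
      C.gen_u hx (by rw [h0]; rfl) hu
    refine ⟨C.u, C.v, C.val_zero_iff hx h0, ?_, ?_⟩
    · intro Cu hCu hon
      cases Cu with
      | line Λ =>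
        have hon' : L.1 = Λ := hon
        obtain rfl : Λ = lker c := by rw [← hon', hL]
        exact Or.inr gv
      | exc i =>
        obtain rfl : k = i := hon
        exact Or.inl gu
    · have hone : Reg p (.exc k L) 1 := by
        have h1 := (Val.const (p := p) (.exc k L) 1).reg
        rwa [map_one] at h1
      intro Cu hCu Cu' hCu' hon hon' hne
      cases Cu with
      | line Λ =>
        cases Cu' with
        | line Λ' =>
          have e1 : L.1 = Λ := hon
          have e2 : L.1 = Λ' := hon'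
          exact absurd (by rw [← e1, ← e2]) hne
        | exc i =>
          obtain rfl : k = i := hon'
          have hon2 : L.1 = Λ := hon
          obtain rfl : Λ = lker c := by rw [← hon2, hL]
          refine ⟨C.v, (gv C.v).2 ⟨1, hone, (one_mul _).symm⟩, fun h1 => ?_⟩
          exact C.not_dvd_v hx h0 ((gu C.v).1 h1)
      | exc i =>
        obtain rfl : k = i := hon
        cases Cu' with
        | line Λ' =>
          have hon2 : L.1 = Λ' := hon'
          obtain rfl : Λ' = lker c := by rw [← hon2, hL]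
          refine ⟨C.u, (gu C.u).2 ⟨1, hone, (one_mul _).symm⟩, fun h1 => ?_⟩
          exact C.not_dvd_u hx h0 ((gv C.u).1 h1)
        | exc i' =>
          have e2 : k = i' := hon'
          exact absurd (by rw [e2]) hne

/-! ## The dual Hesse arrangement -/

lemma mem_hD_line {Λ : Submodule ℂ (Fin 3 → ℂ)} : Curve.line Λ ∈ hD ↔ ∃ j, Λ = hl j := by
  constructor
  · rintro (⟨j, h⟩ | ⟨i, -, h⟩)
    · exact ⟨j, Curve.line.inj h⟩
    · cases h
  · rintro ⟨j, rfl⟩
    exact Or.inl ⟨j, rfl⟩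

lemma mem_hD_exc {i : Fin 12} : Curve.exc i ∈ hD ↔ i.1 < 4 := by
  constructor
  · rintro (⟨j, h⟩ | ⟨i', h, h'⟩)
    · cases h
    · cases h'
      exact h
  · intro h
    exact Or.inr ⟨i, h, rfl⟩

theorem isBoundary_hD : IsBoundary hD := by
  constructor
  · have h1 : hD ⊆ Set.range (fun j : Fin 9 => (Curve.line (hl j) : Curve 12)) ∪
        Set.range (fun i : Fin 12 => (Curve.exc i : Curve 12)) := by
      rintro C (⟨j, rfl⟩ | ⟨i, -, rfl⟩)
      · exact Or.inl ⟨j, rfl⟩
      · exact Or.inr ⟨i, rfl⟩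
    exact ((Set.finite_range _).union (Set.finite_range _)).subset h1
  · intro Λ hΛ
    obtain ⟨j, rfl⟩ := mem_hD_line.1 hΛ
    exact finrank_hl j

theorem isSNC_hD : IsSNC hp hD := by
  refine isSNC_of hp_injective isBoundary_hD ?_
  intro q hq Λ Λ' hΛ hΛ' h1 h2
  obtain ⟨j, rfl⟩ := mem_hD_line.1 hΛ
  obtain ⟨j', rfl⟩ := mem_hD_line.1 hΛ'
  by_contra hne
  have hjj : j ≠ j' := fun h => hne (by rw [h])
  obtain ⟨i, hi⟩ := exists_hp hjj h1 h2
  exact hq i hi

lemma selfInt_line (j : Fin 9) : selfInt hp (.line (hl j)) = -3 := by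
  have h1 : Nat.card {i : Fin 12 // (hp i).submodule ≤ hl j} = 4 := by
    have e : {i : Fin 12 // (hp i).submodule ≤ hl j} ≃ {i : Fin 12 // inc i j = true} :=
      Equiv.subtypeEquivRight fun i => hp_le_hl i j
    rw [Nat.card_congr e, Nat.card_eq_fintype_card]
    clear e
    revert j
    decide
  change (1 : ℤ) - (Nat.card {i : Fin 12 // (hp i).submodule ≤ hl j} : ℤ) = -3
  rw [h1]
  norm_num

theorem isMinimal_hD : IsMinimal hp hD := by
  intro C hC hself
  rcases hC with ⟨j, rfl⟩ | ⟨i, hi, rfl⟩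
  · rw [selfInt_line] at hself
    norm_num at hself
  · have key : ∀ i : Fin 12, ∃ j₁ j₂ j₃ : Fin 9, j₁ ≠ j₂ ∧ j₁ ≠ j₃ ∧ j₂ ≠ j₃ ∧
        inc i j₁ = true ∧ inc i j₂ = true ∧ inc i j₃ = true := by decide
    obtain ⟨j₁, j₂, j₃, h12, h13, h23, h1, h2, h3⟩ := key i
    have hmeet : ∀ j, inc i j = true → Meet hp (.exc i) (.line (hl j)) := by
      intro j hj
      exact ⟨.exc i ⟨hl j, finrank_hl j, (hp_le_hl i j).2 hj⟩, rfl, rfl⟩
    have hne : ∀ j j' : Fin 9, j ≠ j' → (Curve.line (hl j) : Curve 12) ≠ .line (hl j') := by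
      intro j j' h h'
      exact h (hl_injective (Curve.line.inj h'))
    refine ⟨.line (hl j₁), Or.inl ⟨j₁, rfl⟩, .line (hl j₂), Or.inl ⟨j₂, rfl⟩, .line (hl j₃),
      Or.inl ⟨j₃, rfl⟩, nofun, nofun, nofun, hne _ _ h12, hne _ _ h13, hne _ _ h23,
      hmeet _ h1, hmeet _ h2, hmeet _ h3⟩

end

end Pool.Agent.Lib.MP_ee7b66_ag
end

section

/-!
# Frames at the eight points, radius of the balls
-/

open scoped LinearAlgebra.Projectivization
open Pool.Agent.Lib.MP_8481ed_ag TopologicalSpace MvPolynomial Topology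
open Pool.Agent.Lib.MP_ee7b66_ag.Top (C2 Sb Rb Pants loc)

namespace Pool.Agent.Lib.MP_ee7b66_ag

noncomputable section

lemma det_fr1 (k : Fin 8) :
    Matrix.det (Matrix.of ![lM, lX - pt8 k 0 • lM, lZ - pt8 k 1 • lM]) ≠ 0 := by
  rw [det_eq_det3]
  have h : det3 lM (lX - pt8 k 0 • lM) (lZ - pt8 k 1 • lM) = 1 := by
    simp only [det3, lM, lX, lZ, Pi.sub_apply, Pi.smul_apply, smul_eq_mul, Matrix.cons_val_zero,
      Matrix.cons_val_one, Matrix.cons_val]
    ring
  rw [h]
  exact one_ne_zero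

lemma det_fr2 (k : Fin 8) :
    Matrix.det (Matrix.of ![lM, lZ - pt8 k 1 • lM, lX - pt8 k 0 • lM]) ≠ 0 := by
  rw [det_eq_det3]
  have h : det3 lM (lZ - pt8 k 1 • lM) (lX - pt8 k 0 • lM) = -1 := by
    simp only [det3, lM, lX, lZ, Pi.sub_apply, Pi.smul_apply, smul_eq_mul, Matrix.cons_val_zero,
      Matrix.cons_val_one, Matrix.cons_val]
    ring
  rw [h]
  norm_num

lemma lin_sub_smul (a b : Fin 3 → ℂ) (t : ℂ) (v : Fin 3 → ℂ) :
    lin (a - t • b) v = lin a v - t * lin b v := by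
  simp only [lin, Fin.sum_univ_three, Pi.sub_apply, Pi.smul_apply, smul_eq_mul]
  ring

lemma lin_lM_rep_k8 (k : Fin 8) : lin lM (hp (k8 k)).rep ≠ 0 := (lin_lM_rep_hp _).2 ⟨k, rfl⟩

lemma lin_fr_a (k : Fin 8) : lin (lX - pt8 k 0 • lM) (hp (k8 k)).rep = 0 := by
  rw [lin_sub_smul, ← aff_rep_hp k]
  change lin lX (hp (k8 k)).rep - lin lX (hp (k8 k)).rep / lin lM (hp (k8 k)).rep *
    lin lM (hp (k8 k)).rep = 0
  rw [div_mul_cancel₀ _ (lin_lM_rep_k8 k), sub_self]

lemma lin_fr_b (k : Fin 8) : lin (lZ - pt8 k 1 • lM) (hp (k8 k)).rep = 0 := by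
  rw [lin_sub_smul, ← aff_rep_hp k]
  change lin lZ (hp (k8 k)).rep - lin lZ (hp (k8 k)).rep / lin lM (hp (k8 k)).rep *
    lin lM (hp (k8 k)).rep = 0
  rw [div_mul_cancel₀ _ (lin_lM_rep_k8 k), sub_self]

/-- The frame `(M, X₀ - a M, X₂ - c M)` at the `k`-th point with affine coordinates `(a, c)`. -/
def fr1 (k : Fin 8) : FrameAt hp (k8 k) where
  c := Matrix.of ![lM, lX - pt8 k 0 • lM, lZ - pt8 k 1 • lM]
  det_ne := det_fr1 k
  hU := lin_fr_a k
  hV := lin_fr_b k

/-- The frame `(M, X₂ - c M, X₀ - a M)`. -/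
def fr2 (k : Fin 8) : FrameAt hp (k8 k) where
  c := Matrix.of ![lM, lZ - pt8 k 1 • lM, lX - pt8 k 0 • lM]
  det_ne := det_fr2 k
  hU := lin_fr_b k
  hV := lin_fr_a k

/-- A common radius for the eight points. The forms `h` are those of `exists_killsOther`:
`h(p k) ≠ 0`, so `eval (vecAff z) h ≠ 0` for `z` near `pt8 k`, by continuity. -/
lemma exists_radius : ∃ ε : ℝ, 0 < ε ∧
    (∀ (k l : Fin 8) (z : C2), (∀ i, ‖z i - pt8 k i‖ < ε) → (∀ i, ‖z i - pt8 l i‖ < ε) → k = l) ∧
    ∀ k : Fin 8, ∃ (n : ℕ) (h : CoordRing ℂ), h.IsHomogeneous n ∧ KillsOther hp (k8 k) lM h ∧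
      ∀ z : C2, (∀ i, ‖z i - pt8 k i‖ < ε) → eval (vecAff z) h ≠ 0 := by
  choose n h hh hk using fun k : Fin 8 => exists_killsOther hp_injective (k8 k) lM
  have hdist : ∀ {ε : ℝ}, 0 < ε → ∀ (z w : C2), (∀ i, ‖z i - w i‖ < ε) ↔ dist z w < ε := by
    intro ε hε z w
    rw [dist_pi_lt_iff hε]
    simp only [dist_eq_norm]
  -- the conditions hold for small `ε`
  have e1 : ∀ k l : Fin 8, ∀ᶠ ε : ℝ in nhdsWithin 0 (Set.Ioi 0),
      k ≠ l → 2 * ε < dist (pt8 k) (pt8 l) := by
    intro k l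
    by_cases hkl : k = l
    · exact Filter.Eventually.of_forall fun ε h => (h hkl).elim
    · have hd : 0 < dist (pt8 k) (pt8 l) / 2 := by
        have := dist_pos.2 (pt8_injective.ne hkl)
        positivity
      filter_upwards [Ioo_mem_nhdsGT hd] with ε hε _
      linarith [hε.2]
  have e2 : ∀ k : Fin 8, ∀ᶠ ε : ℝ in nhdsWithin 0 (Set.Ioi 0),
      ∀ z : C2, dist z (pt8 k) < ε → eval (vecAff z) (h k) ≠ 0 := by
    intro k
    have hcont : Continuous fun z : C2 => eval (vecAff z) (h k) := by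
      have h1 : Continuous fun z : C2 => vecAff z := by
        refine continuous_pi fun i => ?_
        fin_cases i
        · exact continuous_apply 0
        · exact (continuous_apply 0).sub continuous_const
        · exact continuous_apply 1
      exact (MvPolynomial.continuous_eval (h k)).comp h1
    have h0 : eval (vecAff (pt8 k)) (h k) ≠ 0 := by
      rw [← aff_rep_hp k, vecAff_aff (lin_lM_rep_k8 k), eval_smul_homog (hh k)]
      exact mul_ne_zero (pow_ne_zero _ (inv_ne_zero (lin_lM_rep_k8 k))) (hk k).1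
    have h1 : ∀ᶠ z in nhds (pt8 k), eval (vecAff z) (h k) ≠ 0 :=
      hcont.continuousAt.eventually_ne h0
    obtain ⟨ε₀, hε₀, h2⟩ := Metric.eventually_nhds_iff.1 h1
    filter_upwards [Ioo_mem_nhdsGT hε₀] with ε hε z hz
    exact h2 (hz.trans hε.2)
  have e3 : ∀ᶠ ε : ℝ in nhdsWithin 0 (Set.Ioi 0), 0 < ε := self_mem_nhdsWithin
  obtain ⟨ε, h3, h1, h2⟩ := (e3.and ((Filter.eventually_all.2 fun k =>
    Filter.eventually_all.2 fun l => e1 k l).and (Filter.eventually_all.2 e2))).exists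
  refine ⟨ε, h3, fun k l z hz hz' => ?_, fun k => ⟨n k, h k, hh k, hk k, fun z hz => ?_⟩⟩
  · by_contra hkl
    have h4 := (hdist h3 _ _).1 hz
    have h5 := (hdist h3 _ _).1 hz'
    have h6 := h1 k l hkl
    have h7 := dist_triangle_left (pt8 k) (pt8 l) z
    linarith
  · exact h2 k z ((hdist h3 _ _).1 hz)

/-- The direction of a line through a point is not killed by both forms of a frame. -/
lemma frame_dir_ne {r : ℕ} {p : Fin r → Plane ℂ} {k : Fin r} (F : FrameAt p k)
    (L : LineThrough (p k)) (h1 : lin (F.c 1) L.dir = 0) (h2 : lin (F.c 2) L.dir = 0) : False := by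
  have hF0 := F.hM
  have h3 : F.vecOf (fun j => lin (F.c j) L.dir) = L.dir := F.vecOf_lin _
  have h4 : F.vecOf (fun j => lin (F.c j) (p k).rep) = (p k).rep := F.vecOf_lin _
  have e1 : (fun j => lin (F.c j) L.dir) =
      (lin (F.c 0) L.dir / lin (F.c 0) (p k).rep) • (fun j => lin (F.c j) (p k).rep) := by
    funext j
    fin_cases j
    · simp [div_mul_cancel₀ _ hF0]
    · simp [h1, F.hU]
    · simp [h2, F.hV]
  apply L.dir_not_mem
  rw [← h3, e1, Projectivization.submodule_eq, Submodule.mem_span_singleton]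
  generalize lin (F.c 0) L.dir / lin (F.c 0) (p k).rep = t
  refine ⟨t, ?_⟩
  have h5 : F.vecOf (t • fun j => lin (F.c j) (p k).rep) =
      t • F.vecOf (fun j => lin (F.c j) (p k).rep) := by
    unfold Frame.vecOf
    rw [Matrix.mulVec_smul]
  rw [h5, h4]

/-- The intersection of the two exceptional charts. -/
lemma excDom2_iff (k : Fin 8) {h : CoordRing ℂ} (y : BlowUp hp)
    (hy : (fr1 k).excDom h y) : (fr2 k).excDom h y ↔ (fr1 k).excCrd y 1 ≠ 0 := by
  cases y with
  | away q hq =>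
    obtain ⟨h1, h2, h3⟩ := hy
    change (lin lM q.rep ≠ 0 ∧ lin ((fr1 k).c 2) q.rep ≠ 0 ∧ eval q.rep h ≠ 0) ↔
      lin ((fr1 k).c 2) q.rep / lin ((fr1 k).c 1) q.rep ≠ 0
    exact ⟨fun h4 => div_ne_zero h4.2.1 h2, fun h4 => ⟨h1, fun h5 => h4 (by rw [h5, zero_div]), h3⟩⟩
  | exc i L =>
    obtain ⟨rfl, hw⟩ := hy
    have hd := lin_dir_ne_zero L (fr1 k).hU hw
    change (k8 k = k8 k ∧ ∃ w ∈ L.1, lin ((fr1 k).c 2) w ≠ 0) ↔
      lin ((fr1 k).c 2) (LineThrough.dir L) / lin ((fr1 k).c 1) (LineThrough.dir L) ≠ 0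
    exact ⟨fun h4 => div_ne_zero (lin_dir_ne_zero L (fr1 k).hV h4.2) hd,
      fun h4 => ⟨rfl, L.dir, L.dir_mem, fun h5 => h4 (by rw [h5, zero_div])⟩⟩

/-- Every point over the ball lies in one of the two exceptional charts. -/
lemma excDom_or (k : Fin 8) {ε : ℝ} {n : ℕ} {h : CoordRing ℂ} (hh : h.IsHomogeneous n)
    (hdisj : ∀ (l : Fin 8) (z : C2), (∀ i, ‖z i - pt8 k i‖ < ε) →
      (∀ i, ‖z i - pt8 l i‖ < ε) → k = l)
    (hne : ∀ z : C2, (∀ i, ‖z i - pt8 k i‖ < ε) → eval (vecAff z) h ≠ 0)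
    (y : YT) (hy : ∀ i, ‖piFun y i - pt8 k i‖ < ε) :
    (fr1 k).excDom h (Aff.pt hp y) ∨ (fr2 k).excDom h (Aff.pt hp y) := by
  obtain ⟨y, hy0⟩ := y
  cases y with
  | away q hq =>
    have h1 : eval q.rep h ≠ 0 := by
      have h2 := hne _ hy
      change eval (vecAff (aff q.rep)) h ≠ 0 at h2
      have hy1 : lin lM q.rep ≠ 0 := hy0
      rw [vecAff_aff hy1, eval_smul_homog hh] at h2
      exact right_ne_zero_of_mul h2
    by_cases hU : lin ((fr1 k).c 1) q.rep = 0
    · right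
      refine ⟨hy0, ?_, h1⟩
      intro hV
      have h3 : aff q.rep = pt8 k := by
        have hU' : lin lX q.rep - pt8 k 0 * lin lM q.rep = 0 := by
          rw [← lin_sub_smul]
          exact hU
        have hV' : lin lZ q.rep - pt8 k 1 * lin lM q.rep = 0 := by
          rw [← lin_sub_smul]
          exact hV
        have hy0' : lin lM q.rep ≠ 0 := hy0
        funext i
        fin_cases i
        · change lin lX q.rep / lin lM q.rep = pt8 k 0
          rw [div_eq_iff hy0']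
          linear_combination hU'
        · change lin lZ q.rep / lin lM q.rep = pt8 k 1
          rw [div_eq_iff hy0']
          linear_combination hV'
      obtain ⟨L, hL⟩ := (piFun_eq_pt8_iff ⟨.away q hq, hy0⟩ k).1 h3
      exact absurd hL (by nofun)
    · left
      exact ⟨hy0, hU, h1⟩
  | exc i L =>
    obtain ⟨l, rfl⟩ := (lin_lM_rep_hp i).1 hy0
    have hε : 0 < ε := (norm_nonneg _).trans_lt (hy 0)
    have hpi : piFun ⟨.exc (k8 l) L, hy0⟩ = pt8 l := aff_rep_hp l
    rw [hpi] at hy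
    have hkl : k = l := hdisj l (pt8 l) hy fun i => by
      rw [sub_self, norm_zero]
      exact hε
    subst hkl
    by_cases hU : lin ((fr1 k).c 1) (LineThrough.dir L) = 0
    · right
      refine ⟨rfl, L.dir, L.dir_mem, fun hV => frame_dir_ne (fr1 k) L hU hV⟩
    · left
      exact ⟨rfl, L.dir, L.dir_mem, hU⟩

end

end Pool.Agent.Lib.MP_ee7b66_ag
end
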