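import Mathlib
import Pool.Agent.Lib.MP_ee7b66_ag.Mg.G005
import Pool.Agent.Lib.MP_ee7b66_ag.Mg.G001

section

/-!
# Local structure of the logarithmic vector fields on the dual Hesse surface

At every point `x` there is a chart centred at `x` in which the line through `x` (if any) is
`v = 0` and the exceptional curve through `x` (if any) is `u = 0`; a logarithmic vector field maps
`u`, `v` to regular functions, divisible by `u` resp. `v` if the curve belongs to `D`.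
-/

open scoped LinearAlgebra.Projectivization
open Pool.Agent.Lib.MP_8481ed_ag TopologicalSpace MvPolynomial

namespace Pool.Agent.Lib.MP_ee7b66_ag

noncomputable section

lemma Reg.one {r : ℕ} {p : Fin r → Plane ℂ} (x : BlowUp p) : Reg p x 1 := by
  have h1 := (Val.const (p := p) x 1).reg
  rwa [map_one] at h1

/-- A logarithmic vector field maps a generator of the ideal of a component to a multiple. -/
lemma IsLogField.gen {r : ℕ} {p : Fin r → Plane ℂ} {𝒟 : Set (Curve r)} {x : BlowUp p}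
    {δ : VecField} (hδ : IsLogField p 𝒟 x δ) {Cu : Curve r} (hCu : Cu ∈ 𝒟) {u : FunField}
    (hg : Gen p x (InIdeal p Cu x) u) : ∃ f : FunField, Reg p x f ∧ δ u = f * u :=
  (hg _).1 (hδ.2 Cu hCu u ((hg u).2 ⟨1, Reg.one x, (one_mul _).symm⟩))

/-- Local structure at a point outside the exceptional curves. -/
theorem loc_away (q : Plane ℂ) (hq : ∀ i, q ≠ hp i) : ∃ (F : Frame) (C : LChart hp),
    lin (F.c 1) q.rep = 0 ∧ lin (F.c 2) q.rep = 0 ∧ lin (F.c 0) q.rep ≠ 0 ∧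
    C.u = lq (F.c 1) (F.c 0) ∧ C.v = lq (F.c 2) (F.c 0) ∧ (.away q hq : BlowUp hp) ∈ C.dom ∧
    C.crd (.away q hq) = 0 ∧ (∀ j, lin (lvec j) q.rep = 0 → F.c 2 = lvec j) ∧
    ∀ δ, IsLogField hp hD (.away q hq) δ →
      Reg hp (.away q hq) (δ C.u) ∧ Reg hp (.away q hq) (δ C.v) ∧
      ∀ j, lin (lvec j) q.rep = 0 → ∃ f, Reg hp (.away q hq) f ∧ δ C.v = f * C.v := by
  have huniq : ∀ j j', lin (lvec j) q.rep = 0 → lin (lvec j') q.rep = 0 → j = j' := by
    intro j j' h h'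
    by_contra hne
    obtain ⟨i, hi⟩ := exists_hp hne ((submodule_le_lker q _).2 h) ((submodule_le_lker q _).2 h')
    exact hq i hi
  obtain ⟨c, hc, hcq, hline⟩ : ∃ c : Fin 3 → ℂ, c ≠ 0 ∧ lin c q.rep = 0 ∧
      ∀ j, lin (lvec j) q.rep = 0 → c = lvec j := by
    by_cases hex : ∃ j, lin (lvec j) q.rep = 0
    · obtain ⟨j, hj⟩ := hex
      exact ⟨lvec j, lvec_ne_zero j, hj, fun j' hj' => by rw [huniq j j' hj hj']⟩
    · obtain ⟨c, hc, hcq⟩ := exists_form q.rep
      exact ⟨c, hc, hcq, fun j hj => (hex ⟨j, hj⟩).elim⟩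
  obtain ⟨F, C, hF2, hF1, hF0, hCu, hCv, hx, h0, hv⟩ := away_centred (p := hp) q hq c hc hcq
  refine ⟨F, C, hF1, by rw [hF2, hcq], hF0, hCu, by rw [hCv, hF2], hx, h0, fun j hj => by
    rw [hF2, hline j hj], fun δ hδ => ⟨?_, ?_, fun j hj => ?_⟩⟩
  · exact hδ.1 _ (C.val_u _ hx).reg
  · exact hδ.1 _ (C.val_v _ hx).reg
  · have hcj := hline j hj
    refine hδ.gen (Cu := .line (lker c)) ?_ (C.gen_v hx (by rw [h0]; rfl) hv)
    rw [hcj]
    exact Or.inl ⟨j, rfl⟩

/-- Local structure at a point of an exceptional curve. -/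
theorem loc_exc (k : Fin 12) (L : LineThrough (hp k)) : ∃ (F : Frame) (C : LChart hp),
    lin (F.c 1) (hp k).rep = 0 ∧ lin (F.c 2) (hp k).rep = 0 ∧ lin (F.c 0) (hp k).rep ≠ 0 ∧
    lin (F.c 1) L.dir ≠ 0 ∧ lin (F.c 2) L.dir = 0 ∧
    C.u = lq (F.c 1) (F.c 0) ∧ C.v = lq (F.c 2) (F.c 1) ∧ (.exc k L : BlowUp hp) ∈ C.dom ∧
    C.crd (.exc k L) = 0 ∧ (∀ j, L.1 = hl j → F.c 2 = lvec j) ∧
    ∀ δ, IsLogField hp hD (.exc k L) δ →
      Reg hp (.exc k L) (δ C.u) ∧ Reg hp (.exc k L) (δ C.v) ∧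
      (k.1 < 4 → ∃ f, Reg hp (.exc k L) f ∧ δ C.u = f * C.u) ∧
      ∀ j, L.1 = hl j → ∃ f, Reg hp (.exc k L) f ∧ δ C.v = f * C.v := by
  obtain ⟨c, hc, hL, hline⟩ : ∃ c : Fin 3 → ℂ, c ≠ 0 ∧ L.1 = lker c ∧
      ∀ j, L.1 = hl j → c = lvec j := by
    by_cases hex : ∃ j, L.1 = hl j
    · obtain ⟨j, hj⟩ := hex
      exact ⟨lvec j, lvec_ne_zero j, hj, fun j' hj' => by
        rw [hl_injective (hj.symm.trans hj')]⟩
    · obtain ⟨c, hc, hcq⟩ := exists_lker L.1 L.2.1
      exact ⟨c, hc, hcq, fun j hj => (hex ⟨j, hj⟩).elim⟩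
  have hck : lin c (hp k).rep = 0 := by
    have h1 := L.rep_mem
    rwa [hL, mem_lker] at h1
  have hcd : lin c L.dir = 0 := by
    have h1 := L.dir_mem
    rwa [hL, mem_lker] at h1
  obtain ⟨F, C, hF2, hF1, hF0, hUd, hCu, hCv, hx, h0, hv, hu⟩ :=
    exc_centred hp_injective k L c hc hL
  refine ⟨F, C, hF1, by rw [hF2, hck], hF0, hUd, by rw [hF2, hcd], hCu, by rw [hCv, hF2], hx, h0,
    fun j hj => by rw [hF2, hline j hj], fun δ hδ => ⟨?_, ?_, fun hk => ?_, fun j hj => ?_⟩⟩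
  · exact hδ.1 _ (C.val_u _ hx).reg
  · exact hδ.1 _ (C.val_v _ hx).reg
  · exact hδ.gen (mem_hD_exc.2 hk) (C.gen_u hx (by rw [h0]; rfl) hu)
  · have hcj := hline j hj
    refine hδ.gen (Cu := .line (lker c)) ?_ (C.gen_v hx (by rw [h0]; rfl) hv)
    rw [hcj]
    exact Or.inl ⟨j, rfl⟩

end

end Pool.Agent.Lib.MP_ee7b66_ag
end

section

/-!
# The first chart around an exceptional curve
-/

open scoped LinearAlgebra.Projectivization
open Pool.Agent.Lib.MP_8481ed_ag TopologicalSpace MvPolynomial Topology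
open Pool.Agent.Lib.MP_ee7b66_ag.Top (C2 Sb Rb Pants loc)

namespace Pool.Agent.Lib.MP_ee7b66_ag

noncomputable section

/-- The restriction of a homeomorphism of `ℂ²` to an open set is an open embedding in an open
subset containing the image. -/
lemma isOpenEmbedding_restrict_chA {S : Set C2} (hS : IsOpen S) (e : C2 ≃ₜ C2)
    (g : MvPolynomial (Fin 2) ℂ) (he : ∀ z : S, eval (e z.1) g ≠ 0) :
    IsOpenEmbedding (fun z : S => (⟨e z.1, he z⟩ : {z : C2 // eval z g ≠ 0})) := by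
  have hopen : IsOpen {z : C2 | eval z g ≠ 0} :=
    isOpen_ne_fun (MvPolynomial.continuous_eval g) continuous_const
  refine IsOpenEmbedding.of_comp _ hopen.isOpenEmbedding_subtypeVal ?_
  exact e.isOpenEmbedding.comp hS.isOpenEmbedding_subtypeVal

lemma isOpen_Sb_chA : IsOpen Sb := by
  have h1 : Continuous fun z : C2 => ‖z 0‖ := (continuous_apply 0).norm
  have h2 : Continuous fun z : C2 => ‖z 0 * z 1‖ :=
    ((continuous_apply 0).mul (continuous_apply 1)).norm
  exact (isOpen_lt h1 continuous_const).inter (isOpen_lt h2 continuous_const)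

/-- The homeomorphism `(z₀, z₁) ↦ (ε z₀, z₁)`. -/
def scale_chA (ε : ℝ) (hε : 0 < ε) : C2 ≃ₜ C2 where
  toFun z := ![(ε : ℂ) * z 0, z 1]
  invFun z := ![(ε : ℂ)⁻¹ * z 0, z 1]
  left_inv z := by
    have h : (ε : ℂ) ≠ 0 := by exact_mod_cast hε.ne'
    funext i
    fin_cases i
    · simp [h]
    · simp
  right_inv z := by
    have h : (ε : ℂ) ≠ 0 := by exact_mod_cast hε.ne'
    funext i
    fin_cases i
    · simp [h]
    · simp
  continuous_toFun := by
    refine continuous_pi fun i => ?_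
    fin_cases i
    · exact continuous_const.mul (continuous_apply 0)
    · exact continuous_apply 1
  continuous_invFun := by
    refine continuous_pi fun i => ?_
    fin_cases i
    · exact continuous_const.mul (continuous_apply 0)
    · exact continuous_apply 1

lemma lin_c1_chA (k : Fin 8) (v : Fin 3 → ℂ) :
    lin ((fr1 k).c 1) v = lin lX v - pt8 k 0 * lin lM v := by
  change lin (lX - pt8 k 0 • lM) v = _
  unfold lin
  rw [Finset.mul_sum, ← Finset.sum_sub_distrib]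
  refine Finset.sum_congr rfl fun i _ => ?_
  rw [Pi.sub_apply, Pi.smul_apply, smul_eq_mul]
  ring

lemma lin_c2_chA (k : Fin 8) (v : Fin 3 → ℂ) :
    lin ((fr1 k).c 2) v = lin lZ v - pt8 k 1 * lin lM v := by
  change lin (lZ - pt8 k 1 • lM) v = _
  unfold lin
  rw [Finset.mul_sum, ← Finset.sum_sub_distrib]
  refine Finset.sum_congr rfl fun i _ => ?_
  rw [Pi.sub_apply, Pi.smul_apply, smul_eq_mul]
  ring

lemma lin_c0_chA (k : Fin 8) (v : Fin 3 → ℂ) : lin ((fr1 k).c 0) v = lin lM v := rfl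

lemma lin_lM_vec_chA (k : Fin 8) {h : CoordRing ℂ} {y : BlowUp hp} (hy : (fr1 k).excDom h y) :
    lin lM y.vec ≠ 0 := by
  cases y with
  | away q hq => exact hy.1
  | exc i L =>
    have hi : i = k8 k := hy.1
    subst hi
    exact (fr1 k).hM

lemma aff_vec_chA (k : Fin 8) {h : CoordRing ℂ} {y : BlowUp hp} (hy : (fr1 k).excDom h y) :
    aff y.vec = ![pt8 k 0 + (fr1 k).excCrd y 0, pt8 k 1 + (fr1 k).excCrd y 0 * (fr1 k).excCrd y 1] := by
  cases y with
  | away q hq =>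
    have h0 : lin lM q.rep ≠ 0 := hy.1
    have h1 : lin ((fr1 k).c 1) q.rep ≠ 0 := hy.2.1
    have e0 : (fr1 k).excCrd (.away q hq) 0 = lin ((fr1 k).c 1) q.rep / lin lM q.rep := rfl
    have e1 : (fr1 k).excCrd (.away q hq) 1 =
      lin ((fr1 k).c 2) q.rep / lin ((fr1 k).c 1) q.rep := rfl
    have e2 : (fr1 k).excCrd (.away q hq) 0 * (fr1 k).excCrd (.away q hq) 1 =
        lin ((fr1 k).c 2) q.rep / lin lM q.rep := by
      rw [e0, e1]
      field_simp
    rw [e2, e0, lin_c1_chA, lin_c2_chA]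
    change ![lin lX q.rep / lin lM q.rep, lin lZ q.rep / lin lM q.rep] = _
    funext i
    fin_cases i
    · change lin lX q.rep / lin lM q.rep = pt8 k 0 + _
      field_simp
      ring
    · change lin lZ q.rep / lin lM q.rep = pt8 k 1 + _
      field_simp
      ring
  | exc i L =>
    have hi : i = k8 k := hy.1
    subst hi
    have e0 : (fr1 k).excCrd (.exc (k8 k) L) 0 = 0 := rfl
    rw [e0, zero_mul, add_zero, add_zero]
    change aff (hp (k8 k)).rep = _
    rw [aff_rep_hp]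
    funext i
    fin_cases i <;> rfl

/-- `(z₀, z₁) ↦ (ε z₀, z₁)` is an open embedding of `Sb` in the image `{g ≠ 0}` of the exceptional
chart (`F.excPoly h` at `(ε z₀, z₁)` is, up to a nonzero factor, `h` at the vector `vecAff` of the
image point, which lies in the ball); compose it with the inverse of the chart
(`LChart.exists_isOpenEmbedding`). -/
theorem exists_ch1 (k : Fin 8) {ε : ℝ} (hε : 0 < ε) {n : ℕ} {h : CoordRing ℂ}
    (hh : h.IsHomogeneous n) (hk : KillsOther hp (k8 k) lM h)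
    (hne : ∀ z : C2, (∀ i, ‖z i - pt8 k i‖ < ε) → eval (vecAff z) h ≠ 0) :
    ∃ Φ : Sb → YT, IsOpenEmbedding Φ ∧
      (∀ z : Sb, piFun (Φ z) = ![pt8 k 0 + ε * z.1 0, pt8 k 1 + ε * (z.1 0 * z.1 1)]) ∧
      (∀ z : Sb, (fr1 k).excDom h (Aff.pt hp (Φ z)) ∧
        (fr1 k).excCrd (Aff.pt hp (Φ z)) = ![ε * z.1 0, z.1 1]) ∧
      ∀ y : YT, (∀ i, ‖piFun y i - pt8 k i‖ < ε) → (fr1 k).excDom h (Aff.pt hp y) →
        ∃ z, Φ z = y := by
  have hk' : KillsOther hp (k8 k) ((fr1 k).c 0) h := hk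
  have hε0 : (ε : ℂ) ≠ 0 := by exact_mod_cast hε.ne'
  obtain ⟨Ψ, hΨ, hΨ1, hΨ2⟩ := LChart.exists_isOpenEmbedding ((fr1 k).excChart h hh hk')
    (M := lM) (fun y hy => lin_lM_vec_chA k hy)
  have hg : ∀ z : Sb, eval (scale_chA ε hε z.1) ((fr1 k).excPoly h) ≠ 0 := by
    intro z
    have hz := z.2
    have hw := hne ![pt8 k 0 + (ε : ℂ) * z.1 0, pt8 k 1 + (ε : ℂ) * (z.1 0 * z.1 1)] (by
      intro i
      fin_cases i
      · change ‖pt8 k 0 + (ε : ℂ) * z.1 0 - pt8 k 0‖ < ε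
        rw [add_sub_cancel_left, norm_mul, Complex.norm_real, Real.norm_eq_abs, abs_of_pos hε]
        exact (mul_lt_iff_lt_one_right hε).2 hz.1
      · change ‖pt8 k 1 + (ε : ℂ) * (z.1 0 * z.1 1) - pt8 k 1‖ < ε
        rw [add_sub_cancel_left, norm_mul, Complex.norm_real, Real.norm_eq_abs, abs_of_pos hε]
        exact (mul_lt_iff_lt_one_right hε).2 hz.2)
    intro h0
    apply hw
    have e1 : eval (scale_chA ε hε z.1) ((fr1 k).excPoly h) =
        eval ![(ε : ℂ) * z.1 0, (ε : ℂ) * z.1 0 * z.1 1] ((fr1 k).dh h) := by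
      unfold FrameAt.excPoly
      rw [AlgHom.comp_apply]
      generalize (fr1 k).dh h = P
      induction P using MvPolynomial.induction_on with
      | C a => simp
      | add P Q hP hQ => rw [map_add, map_add, map_add, hP, hQ]
      | mul_X P i hP =>
        rw [map_mul, map_mul, map_mul, hP, aeval_X, eval_X]
        congr 1
        fin_cases i
        · simp [scale_chA]
        · simp [scale_chA]
    have hl : lin ((fr1 k).c 0) (vecAff ![pt8 k 0 + (ε : ℂ) * z.1 0, pt8 k 1 + (ε : ℂ) * (z.1 0 * z.1 1)]) ≠ 0 := by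
      rw [lin_c0_chA, lin_lM_vecAff]
      exact one_ne_zero
    have e2 := (fr1 k).eval_dh hh (vecAff ![pt8 k 0 + (ε : ℂ) * z.1 0, pt8 k 1 + (ε : ℂ) * (z.1 0 * z.1 1)]) hl
    have haf := aff_vecAff ![pt8 k 0 + (ε : ℂ) * z.1 0, pt8 k 1 + (ε : ℂ) * (z.1 0 * z.1 1)]
    have a0 := congrFun haf 0
    have a1 := congrFun haf 1
    unfold aff at a0 a1
    rw [lin_lM_vecAff] at a0 a1
    simp only [div_one, Matrix.cons_val_zero, Matrix.cons_val_one] at a0 a1
    rw [lin_c0_chA, lin_c1_chA, lin_c2_chA, lin_lM_vecAff, a0, a1] at e2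
    simp only [mul_one, div_one, one_pow, add_sub_cancel_left] at e2
    rw [e1, mul_assoc] at h0
    rw [← e2]
    exact h0
  have hm := isOpenEmbedding_restrict_chA isOpen_Sb_chA (scale_chA ε hε) ((fr1 k).excPoly h) hg
  have hcrd : ∀ z : Sb, (fr1 k).excDom h (Aff.pt hp (Ψ ⟨scale_chA ε hε z.1, hg z⟩)) ∧
      (fr1 k).excCrd (Aff.pt hp (Ψ ⟨scale_chA ε hε z.1, hg z⟩)) = ![(ε : ℂ) * z.1 0, z.1 1] :=
    fun z => hΨ1 ⟨scale_chA ε hε z.1, hg z⟩
  refine ⟨fun z => Ψ ⟨scale_chA ε hε z.1, hg z⟩, hΨ.comp hm, fun z => ?_, hcrd, ?_⟩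
  · have h1 := aff_vec_chA k (hcrd z).1
    rw [(hcrd z).2] at h1
    change aff (Aff.pt hp (Ψ ⟨scale_chA ε hε z.1, hg z⟩)).vec = _
    rw [h1]
    simp only [Matrix.cons_val_zero, Matrix.cons_val_one, mul_assoc]
  · intro y hy hyd
    have h1 := aff_vec_chA k hyd
    change piFun y = _ at h1
    have hy0 := hy 0
    have hy1 := hy 1
    rw [h1] at hy0 hy1
    simp only [Matrix.cons_val_zero, Matrix.cons_val_one, add_sub_cancel_left] at hy0 hy1
    obtain ⟨z', hz'⟩ := hΨ2 y hyd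
    have hc' : z'.1 = (fr1 k).excCrd (Aff.pt hp y) := by
      rw [← hz']
      exact ((hΨ1 z').2).symm
    have hS : ((scale_chA ε hε).symm z'.1) ∈ Sb := by
      have s0 : (scale_chA ε hε).symm z'.1 0 = (ε : ℂ)⁻¹ * z'.1 0 := rfl
      have s1 : (scale_chA ε hε).symm z'.1 1 = z'.1 1 := rfl
      constructor
      · rw [s0, norm_mul, norm_inv, Complex.norm_real, Real.norm_eq_abs, abs_of_pos hε, hc',
          inv_mul_lt_iff₀ hε, mul_one]
        exact hy0
      · rw [s0, s1, mul_assoc, norm_mul, norm_inv, Complex.norm_real, Real.norm_eq_abs,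
          abs_of_pos hε, hc', inv_mul_lt_iff₀ hε, mul_one]
        exact hy1
    refine ⟨⟨_, hS⟩, ?_⟩
    rw [← hz']
    have e3 : (⟨scale_chA ε hε ((scale_chA ε hε).symm z'.1), hg ⟨_, hS⟩⟩ :
        {z : C2 // eval z ((fr1 k).excPoly h) ≠ 0}) = z' := by
      apply Subtype.ext
      exact (scale_chA ε hε).apply_symm_apply z'.1
    exact congrArg Ψ e3

end

end Pool.Agent.Lib.MP_ee7b66_ag
end
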