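import Mathlib
import Pool.Agent.Lib.MP_ee7b66_ag.Mg.G005
import Pool.Agent.Lib.MP_ee7b66_ag.Mg.G001
import Pool.Agent.Lib.MP_ee7b66_ag.Mg.G006

section

/-!
# The second chart around an exceptional curve
-/

open scoped LinearAlgebra.Projectivization
open Pool.Agent.Lib.MP_8481ed_ag TopologicalSpace MvPolynomial Topology
open Pool.Agent.Lib.MP_ee7b66_ag.Top (C2 Sb Rb Pants loc)

namespace Pool.Agent.Lib.MP_ee7b66_ag

noncomputable section

/-- The restriction of a homeomorphism of `ℂ²` to an open set is an open embedding in an open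
subset containing the image. -/
lemma isOpenEmbedding_restrict_chB {S : Set C2} (hS : IsOpen S) (e : C2 ≃ₜ C2)
    (g : MvPolynomial (Fin 2) ℂ) (he : ∀ z : S, eval (e z.1) g ≠ 0) :
    IsOpenEmbedding (fun z : S => (⟨e z.1, he z⟩ : {z : C2 // eval z g ≠ 0})) := by
  have hopen : IsOpen {z : C2 | eval z g ≠ 0} :=
    isOpen_ne_fun (MvPolynomial.continuous_eval g) continuous_const
  refine IsOpenEmbedding.of_comp _ hopen.isOpenEmbedding_subtypeVal ?_
  exact e.isOpenEmbedding.comp hS.isOpenEmbedding_subtypeVal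

lemma isOpen_Sb_chB : IsOpen Sb := by
  have h1 : Continuous fun z : C2 => ‖z 0‖ := (continuous_apply 0).norm
  have h2 : Continuous fun z : C2 => ‖z 0 * z 1‖ :=
    ((continuous_apply 0).mul (continuous_apply 1)).norm
  exact (isOpen_lt h1 continuous_const).inter (isOpen_lt h2 continuous_const)

/-- The homeomorphism `(z₀, z₁) ↦ (ε z₀, z₁)`. -/
def scale_chB (ε : ℝ) (hε : 0 < ε) : C2 ≃ₜ C2 where
  toFun z := ![(ε : ℂ) * z 0, z 1]
  invFun z := ![(ε : ℂ)⁻¹ * z 0, z 1]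
  left_inv z := by
    have h : (ε : ℂ) ≠ 0 := by exact_mod_cast hε.ne'
    funext i
    fin_cases i
    · simp [h]
    · simp
  right_inv z := by
    have h : (ε : ℂ) ≠ 0 := by exact_mod_cast hε.ne'
    funext i
    fin_cases i
    · simp [h]
    · simp
  continuous_toFun := by
    refine continuous_pi fun i => ?_
    fin_cases i
    · exact continuous_const.mul (continuous_apply 0)
    · exact continuous_apply 1
  continuous_invFun := by
    refine continuous_pi fun i => ?_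
    fin_cases i
    · exact continuous_const.mul (continuous_apply 0)
    · exact continuous_apply 1

lemma lin_c1_chB (k : Fin 8) (v : Fin 3 → ℂ) :
    lin ((fr2 k).c 1) v = lin lZ v - pt8 k 1 * lin lM v := by
  change lin (lZ - pt8 k 1 • lM) v = _
  unfold lin
  rw [Finset.mul_sum, ← Finset.sum_sub_distrib]
  refine Finset.sum_congr rfl fun i _ => ?_
  rw [Pi.sub_apply, Pi.smul_apply, smul_eq_mul]
  ring

lemma lin_c2_chB (k : Fin 8) (v : Fin 3 → ℂ) :
    lin ((fr2 k).c 2) v = lin lX v - pt8 k 0 * lin lM v := by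
  change lin (lX - pt8 k 0 • lM) v = _
  unfold lin
  rw [Finset.mul_sum, ← Finset.sum_sub_distrib]
  refine Finset.sum_congr rfl fun i _ => ?_
  rw [Pi.sub_apply, Pi.smul_apply, smul_eq_mul]
  ring

lemma lin_c0_chB (k : Fin 8) (v : Fin 3 → ℂ) : lin ((fr2 k).c 0) v = lin lM v := rfl

lemma lin_lM_vec_chB (k : Fin 8) {h : CoordRing ℂ} {y : BlowUp hp} (hy : (fr2 k).excDom h y) :
    lin lM y.vec ≠ 0 := by
  cases y with
  | away q hq => exact hy.1
  | exc i L =>
    have hi : i = k8 k := hy.1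
    subst hi
    exact (fr2 k).hM

lemma aff_vec_chB (k : Fin 8) {h : CoordRing ℂ} {y : BlowUp hp} (hy : (fr2 k).excDom h y) :
    aff y.vec = ![pt8 k 0 + (fr2 k).excCrd y 0 * (fr2 k).excCrd y 1, pt8 k 1 + (fr2 k).excCrd y 0] := by
  cases y with
  | away q hq =>
    have h0 : lin lM q.rep ≠ 0 := hy.1
    have h1 : lin ((fr2 k).c 1) q.rep ≠ 0 := hy.2.1
    have e0 : (fr2 k).excCrd (.away q hq) 0 = lin ((fr2 k).c 1) q.rep / lin lM q.rep := rfl
    have e1 : (fr2 k).excCrd (.away q hq) 1 =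
      lin ((fr2 k).c 2) q.rep / lin ((fr2 k).c 1) q.rep := rfl
    have e2 : (fr2 k).excCrd (.away q hq) 0 * (fr2 k).excCrd (.away q hq) 1 =
        lin ((fr2 k).c 2) q.rep / lin lM q.rep := by
      rw [e0, e1]
      field_simp
    rw [e2, e0, lin_c1_chB, lin_c2_chB]
    change ![lin lX q.rep / lin lM q.rep, lin lZ q.rep / lin lM q.rep] = _
    funext i
    fin_cases i
    · change lin lX q.rep / lin lM q.rep = pt8 k 0 + _
      field_simp
      ring
    · change lin lZ q.rep / lin lM q.rep = pt8 k 1 + _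
      field_simp
      ring
  | exc i L =>
    have hi : i = k8 k := hy.1
    subst hi
    have e0 : (fr2 k).excCrd (.exc (k8 k) L) 0 = 0 := rfl
    rw [e0, zero_mul, add_zero, add_zero]
    change aff (hp (k8 k)).rep = _
    rw [aff_rep_hp]
    funext i
    fin_cases i <;> rfl

/-- `(z₀, z₁) ↦ (ε z₀, z₁)` is an open embedding of `Sb` in the image `{g ≠ 0}` of the exceptional
chart (`F.excPoly h` at `(ε z₀, z₁)` is, up to a nonzero factor, `h` at the vector `vecAff` of the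
image point, which lies in the ball); compose it with the inverse of the chart
(`LChart.exists_isOpenEmbedding`). -/
theorem exists_ch2 (k : Fin 8) {ε : ℝ} (hε : 0 < ε) {n : ℕ} {h : CoordRing ℂ}
    (hh : h.IsHomogeneous n) (hk : KillsOther hp (k8 k) lM h)
    (hne : ∀ z : C2, (∀ i, ‖z i - pt8 k i‖ < ε) → eval (vecAff z) h ≠ 0) :
    ∃ Φ : Sb → YT, IsOpenEmbedding Φ ∧
      (∀ z : Sb, piFun (Φ z) = ![pt8 k 0 + ε * (z.1 0 * z.1 1), pt8 k 1 + ε * z.1 0]) ∧
      (∀ z : Sb, (fr2 k).excDom h (Aff.pt hp (Φ z)) ∧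
        (fr2 k).excCrd (Aff.pt hp (Φ z)) = ![ε * z.1 0, z.1 1]) ∧
      ∀ y : YT, (∀ i, ‖piFun y i - pt8 k i‖ < ε) → (fr2 k).excDom h (Aff.pt hp y) →
        ∃ z, Φ z = y := by
  have hk' : KillsOther hp (k8 k) ((fr2 k).c 0) h := hk
  have hε0 : (ε : ℂ) ≠ 0 := by exact_mod_cast hε.ne'
  obtain ⟨Ψ, hΨ, hΨ1, hΨ2⟩ := LChart.exists_isOpenEmbedding ((fr2 k).excChart h hh hk')
    (M := lM) (fun y hy => lin_lM_vec_chB k hy)
  have hg : ∀ z : Sb, eval (scale_chB ε hε z.1) ((fr2 k).excPoly h) ≠ 0 := by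
    intro z
    have hz := z.2
    have hw := hne ![pt8 k 0 + (ε : ℂ) * (z.1 0 * z.1 1), pt8 k 1 + (ε : ℂ) * z.1 0] (by
      intro i
      fin_cases i
      · change ‖pt8 k 0 + (ε : ℂ) * (z.1 0 * z.1 1) - pt8 k 0‖ < ε
        rw [add_sub_cancel_left, norm_mul, Complex.norm_real, Real.norm_eq_abs, abs_of_pos hε]
        exact (mul_lt_iff_lt_one_right hε).2 hz.2
      · change ‖pt8 k 1 + (ε : ℂ) * z.1 0 - pt8 k 1‖ < ε
        rw [add_sub_cancel_left, norm_mul, Complex.norm_real, Real.norm_eq_abs, abs_of_pos hε]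
        exact (mul_lt_iff_lt_one_right hε).2 hz.1)
    intro h0
    apply hw
    have e1 : eval (scale_chB ε hε z.1) ((fr2 k).excPoly h) =
        eval ![(ε : ℂ) * z.1 0, (ε : ℂ) * z.1 0 * z.1 1] ((fr2 k).dh h) := by
      unfold FrameAt.excPoly
      rw [AlgHom.comp_apply]
      generalize (fr2 k).dh h = P
      induction P using MvPolynomial.induction_on with
      | C a => simp
      | add P Q hP hQ => rw [map_add, map_add, map_add, hP, hQ]
      | mul_X P i hP =>
        rw [map_mul, map_mul, map_mul, hP, aeval_X, eval_X]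
        congr 1
        fin_cases i
        · simp [scale_chB]
        · simp [scale_chB]
    have hl : lin ((fr2 k).c 0) (vecAff ![pt8 k 0 + (ε : ℂ) * (z.1 0 * z.1 1), pt8 k 1 + (ε : ℂ) * z.1 0]) ≠ 0 := by
      rw [lin_c0_chB, lin_lM_vecAff]
      exact one_ne_zero
    have e2 := (fr2 k).eval_dh hh (vecAff ![pt8 k 0 + (ε : ℂ) * (z.1 0 * z.1 1), pt8 k 1 + (ε : ℂ) * z.1 0]) hl
    have haf := aff_vecAff ![pt8 k 0 + (ε : ℂ) * (z.1 0 * z.1 1), pt8 k 1 + (ε : ℂ) * z.1 0]
    have a0 := congrFun haf 0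
    have a1 := congrFun haf 1
    unfold aff at a0 a1
    rw [lin_lM_vecAff] at a0 a1
    simp only [div_one, Matrix.cons_val_zero, Matrix.cons_val_one] at a0 a1
    rw [lin_c0_chB, lin_c1_chB, lin_c2_chB, lin_lM_vecAff, a0, a1] at e2
    simp only [mul_one, div_one, one_pow, add_sub_cancel_left] at e2
    rw [e1, mul_assoc] at h0
    rw [← e2]
    exact h0
  have hm := isOpenEmbedding_restrict_chB isOpen_Sb_chB (scale_chB ε hε) ((fr2 k).excPoly h) hg
  have hcrd : ∀ z : Sb, (fr2 k).excDom h (Aff.pt hp (Ψ ⟨scale_chB ε hε z.1, hg z⟩)) ∧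
      (fr2 k).excCrd (Aff.pt hp (Ψ ⟨scale_chB ε hε z.1, hg z⟩)) = ![(ε : ℂ) * z.1 0, z.1 1] :=
    fun z => hΨ1 ⟨scale_chB ε hε z.1, hg z⟩
  refine ⟨fun z => Ψ ⟨scale_chB ε hε z.1, hg z⟩, hΨ.comp hm, fun z => ?_, hcrd, ?_⟩
  · have h1 := aff_vec_chB k (hcrd z).1
    rw [(hcrd z).2] at h1
    change aff (Aff.pt hp (Ψ ⟨scale_chB ε hε z.1, hg z⟩)).vec = _
    rw [h1]
    simp only [Matrix.cons_val_zero, Matrix.cons_val_one, mul_assoc]
  · intro y hy hyd
    have h1 := aff_vec_chB k hyd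
    change piFun y = _ at h1
    have hy0 := hy 1
    have hy1 := hy 0
    rw [h1] at hy0 hy1
    simp only [Matrix.cons_val_zero, Matrix.cons_val_one, add_sub_cancel_left] at hy0 hy1
    obtain ⟨z', hz'⟩ := hΨ2 y hyd
    have hc' : z'.1 = (fr2 k).excCrd (Aff.pt hp y) := by
      rw [← hz']
      exact ((hΨ1 z').2).symm
    have hS : ((scale_chB ε hε).symm z'.1) ∈ Sb := by
      have s0 : (scale_chB ε hε).symm z'.1 0 = (ε : ℂ)⁻¹ * z'.1 0 := rfl
      have s1 : (scale_chB ε hε).symm z'.1 1 = z'.1 1 := rfl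
      constructor
      · rw [s0, norm_mul, norm_inv, Complex.norm_real, Real.norm_eq_abs, abs_of_pos hε, hc',
          inv_mul_lt_iff₀ hε, mul_one]
        exact hy0
      · rw [s0, s1, mul_assoc, norm_mul, norm_inv, Complex.norm_real, Real.norm_eq_abs,
          abs_of_pos hε, hc', inv_mul_lt_iff₀ hε, mul_one]
        exact hy1
    refine ⟨⟨_, hS⟩, ?_⟩
    rw [← hz']
    have e3 : (⟨scale_chB ε hε ((scale_chB ε hε).symm z'.1), hg ⟨_, hS⟩⟩ :
        {z : C2 // eval z ((fr2 k).excPoly h) ≠ 0}) = z' := by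
      apply Subtype.ext
      exact (scale_chB ε hε).apply_symm_apply z'.1
    exact congrArg Ψ e3

end

end Pool.Agent.Lib.MP_ee7b66_ag
end

section

/-!
# The charts around the exceptional curves
-/

open scoped LinearAlgebra.Projectivization
open Pool.Agent.Lib.MP_8481ed_ag TopologicalSpace MvPolynomial Topology
open Pool.Agent.Lib.MP_ee7b66_ag.Top (C2 Sb Rb Pants loc)

namespace Pool.Agent.Lib.MP_ee7b66_ag

noncomputable section

/-- The charts around the exceptional curves, with a common radius. -/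
theorem exists_charts : ∃ ε : ℝ, 0 < ε ∧
    (∀ (k l : Fin 8) (z : C2), (∀ i, ‖z i - pt8 k i‖ < ε) → (∀ i, ‖z i - pt8 l i‖ < ε) → k = l) ∧
    ∃ ch1 ch2 : Fin 8 → Sb → YT, (∀ k, IsOpenEmbedding (ch1 k)) ∧ (∀ k, IsOpenEmbedding (ch2 k)) ∧
      (∀ k (z : Sb), piFun (ch1 k z) = ![pt8 k 0 + ε * z.1 0, pt8 k 1 + ε * (z.1 0 * z.1 1)]) ∧
      (∀ k (z : Sb), piFun (ch2 k z) = ![pt8 k 0 + ε * (z.1 0 * z.1 1), pt8 k 1 + ε * z.1 0]) ∧
      (∀ k (y : YT), (∀ i, ‖piFun y i - pt8 k i‖ < ε) →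
        y ∈ Set.range (ch1 k) ∪ Set.range (ch2 k)) ∧
      ∀ k (z : Sb), ch1 k z ∈ Set.range (ch2 k) ↔ z.1 1 ≠ 0 := by
  obtain ⟨ε, hε, hdisj, hrad⟩ := exists_radius
  choose n h hh hk hne using hrad
  choose ch1 e1 p1 d1 c1 using fun k => exists_ch1 k hε (hh k) (hk k) (hne k)
  choose ch2 e2 p2 d2 c2 using fun k => exists_ch2 k hε (hh k) (hk k) (hne k)
  refine ⟨ε, hε, hdisj, ch1, ch2, e1, e2, p1, p2, ?_, ?_⟩
  · intro k y hy
    rcases excDom_or k (hh k) (hdisj k) (hne k) y hy with h1 | h1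
    · exact Or.inl (c1 k y hy h1)
    · exact Or.inr (c2 k y hy h1)
  · intro k z
    have hz : (fr1 k).excCrd (Aff.pt hp (ch1 k z)) 1 = z.1 1 := by
      rw [(d1 k z).2]
      rfl
    have hiff := excDom2_iff k (Aff.pt hp (ch1 k z)) (d1 k z).1
    rw [hz] at hiff
    rw [← hiff]
    constructor
    · rintro ⟨w, hw⟩
      rw [← hw]
      exact (d2 k w).1
    · intro h1
      refine c2 k _ ?_ h1
      rw [p1 k z]
      have hz0 := z.2.1
      have hz1 := z.2.2
      intro i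
      fin_cases i
      · show ‖pt8 k 0 + ε * z.1 0 - pt8 k 0‖ < ε
        rw [add_sub_cancel_left, norm_mul, Complex.norm_real, Real.norm_of_nonneg hε.le]
        calc ε * ‖z.1 0‖ < ε * 1 := mul_lt_mul_of_pos_left hz0 hε
          _ = ε := mul_one ε
      · show ‖pt8 k 1 + ε * (z.1 0 * z.1 1) - pt8 k 1‖ < ε
        rw [add_sub_cancel_left, norm_mul, Complex.norm_real, Real.norm_of_nonneg hε.le]
        calc ε * ‖z.1 0 * z.1 1‖ < ε * 1 := mul_lt_mul_of_pos_left hz1 hε
          _ = ε := mul_one ε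

end

end Pool.Agent.Lib.MP_ee7b66_ag
end
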