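import Mathlib
import Pool.Agent.Lib.MP_ee7b66_ag.G.Ld
import Pool.Agent.Lib.MP_ee7b66_ag.G.Cl
import Pool.Agent.Lib.MP_ee7b66_ag.Clo
import Pool.Agent.Lib.MP_ee7b66_ag.G.Line
import Pool.Agent.Lib.MP_ee7b66_ag.Mg.G001

section

/-!
# The strict transforms of the eight lines
-/

open scoped LinearAlgebra.Projectivization
open Pool.Agent.Lib.MP_8481ed_ag TopologicalSpace MvPolynomial Topology
open Pool.Agent.Lib.MP_ee7b66_ag.Top (C2 Sb Rb Pants loc)

namespace Pool.Agent.Lib.MP_ee7b66_ag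

noncomputable section

/-- The strict transforms of the eight lines. -/
def ell8 (j : Fin 8) : Set YT := {y | On hp (.line (hl (j8 j))) (Aff.pt hp y)}

/-- A frame separates directions. -/
private lemma ell_frame_prop (F : Frame) (v w : Fin 3 → ℂ) (hw : lin (F.c 0) w ≠ 0)
    (h1 : lin (F.c 1) v = 0) (h2 : lin (F.c 2) v = 0) (h1' : lin (F.c 1) w = 0)
    (h2' : lin (F.c 2) w = 0) : v = (lin (F.c 0) v / lin (F.c 0) w) • w := by
  rw [← F.vecOf_lin v, ← F.vecOf_lin ((lin (F.c 0) (F.vecOf fun j => lin (F.c j) v) /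
    lin (F.c 0) w) • w)]
  congr 1
  funext j
  rw [F.vecOf_lin v, lin_smul]
  fin_cases j
  · show lin (F.c 0) v = lin (F.c 0) v / lin (F.c 0) w * lin (F.c 0) w
    rw [div_mul_cancel₀ _ hw]
  · show lin (F.c 1) v = _ * lin (F.c 1) w
    rw [h1, h1', mul_zero]
  · show lin (F.c 2) v = _ * lin (F.c 2) w
    rw [h2, h2', mul_zero]

private lemma ell_proj_eq {P Q : Plane ℂ} {c : ℂ} (h : P.rep = c • Q.rep) : P = Q := by
  have hc : c ≠ 0 := by
    rintro rfl
    rw [zero_smul] at h
    exact P.rep_nonzero h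
  rw [← P.mk_rep, ← Q.mk_rep, Projectivization.mk_eq_mk_iff']
  exact ⟨c, h.symm⟩

/-- The strict transform of the line is `s = 0` in its chart, and is contained in the domain of the
chart. -/
lemma on_line_iff (j : Fin 8) (y : YT) : On hp (.line (hl (j8 j))) (Aff.pt hp y) ↔
    (ld j).dom (Aff.pt hp y) ∧ (ld j).crd (Aff.pt hp y) 1 = 0 := by
  obtain ⟨y, hy⟩ := y
  change On hp (.line (hl (j8 j))) y ↔ (ld j).dom y ∧ (ld j).crd y 1 = 0
  cases y with
  | away q hq =>
    change lin lM q.rep ≠ 0 at hy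
    have e1 : On hp (.line (hl (j8 j))) (.away q hq) ↔ lin (lvec (j8 j)) q.rep = 0 :=
      submodule_le_lker q _
    rw [e1]
    constructor
    · intro h
      refine ⟨⟨hy, ?_, ?_⟩, ?_⟩
      · intro i hi
        have h3 := ell_frame_prop ((ld j).frameAt i).toFrame q.rep (hp ((ld j).k i)).rep
          ((ld j).hM i) hi h ((ld j).lin_tf_rep i) ((ld j).hB i)
        exact hq _ (ell_proj_eq h3)
      · intro l hl1 hl2
        have h4 := (ld_hb j l hl1 hl2).1
        change lin (lvec (j8 j)) q.rep ≠ _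
        rw [h]
        exact (mul_ne_zero h4 hy).symm
      · change (lin (lvec (j8 j)) q.rep / lin lM q.rep) / _ = 0
        rw [h, zero_div, zero_div]
    · rintro ⟨⟨h1, h2, -⟩, h3⟩
      change (lin (lvec (j8 j)) q.rep / lin lM q.rep) /
        (∏ i, (lin ((ld j).tf i) q.rep / lin lM q.rep)) = 0 at h3
      rcases div_eq_zero_iff.1 h3 with h4 | h4
      · rcases div_eq_zero_iff.1 h4 with h5 | h5
        · exact h5
        · exact absurd h5 hy
      · rw [Finset.prod_eq_zero_iff] at h4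
        obtain ⟨i, -, h5⟩ := h4
        rcases div_eq_zero_iff.1 h5 with h6 | h6
        · exact absurd h6 (h2 i)
        · exact absurd h6 hy
  | exc l L =>
    change lin lM (hp l).rep ≠ 0 at hy
    change L.1 = hl (j8 j) ↔ _
    constructor
    · intro h
      have h0 : lin (lvec (j8 j)) (hp l).rep = 0 := by
        rw [← mem_lker]
        have := LineThrough.rep_mem L
        rw [h] at this
        exact this
      have hex : ∃ i, l = (ld j).k i := by
        by_contra hne
        push Not at hne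
        have h1 := ld_hb j l hne hy
        rw [h0] at h1
        exact mul_ne_zero h1.1 hy h1.2.symm
      obtain ⟨i, rfl⟩ := hex
      have hdir : lin (lvec (j8 j)) (LineThrough.dir L) = 0 := by
        rw [← mem_lker]
        have := LineThrough.dir_mem L
        rw [h] at this
        exact this
      refine ⟨⟨i, rfl, ?_⟩, ?_⟩
      · let F := ((ld j).frameAt i).toFrame
        refine ⟨F.vecOf ![0, 1, 0], ?_, ?_⟩
        · rw [h]
          change _ ∈ lker (lvec (j8 j))
          rw [mem_lker]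
          exact F.lin_vecOf ![0, 1, 0] 2
        · have := F.lin_vecOf ![0, 1, 0] 1
          change lin ((ld j).tf i) _ = 1 at this
          rw [this]
          exact one_ne_zero
      · rw [LineData.crd_exc]
        change (lin (lvec (j8 j)) (LineThrough.dir L) / _) / _ = 0
        rw [hdir, zero_div, zero_div]
    · rintro ⟨⟨i, rfl, h1⟩, h2⟩
      have hd : (ld j).dom (.exc ((ld j).k i) L) := ⟨i, rfl, h1⟩
      rw [LineData.dom_exc] at hd
      rw [LineData.crd_exc] at h2
      change (lin (lvec (j8 j)) (LineThrough.dir L) / lin ((ld j).tf i) (LineThrough.dir L)) /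
        (∏ i', if i' = i then 1 else (ld j).t i - (ld j).t i') = 0 at h2
      have h3 : lin (lvec (j8 j)) (LineThrough.dir L) = 0 := by
        rcases div_eq_zero_iff.1 h2 with h4 | h4
        · rcases div_eq_zero_iff.1 h4 with h5 | h5
          · exact h5
          · exact absurd h5 hd
        · rw [Finset.prod_eq_zero_iff] at h4
          obtain ⟨i', -, h5⟩ := h4
          by_cases hi : i' = i
          · rw [if_pos hi] at h5
            exact absurd h5 one_ne_zero
          · rw [if_neg hi, sub_eq_zero] at h5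
            exact absurd ((ld j).t_inj h5).symm hi
      have h4 : L.1 ≤ hl (j8 j) := by
        intro w hw
        obtain ⟨α, β, rfl⟩ := LineThrough.exists_coord L w hw
        change _ ∈ lker (lvec (j8 j))
        rw [mem_lker, lin_add, lin_smul, lin_smul, h3]
        have h5 : lin (lvec (j8 j)) (hp ((ld j).k i)).rep = 0 := (ld j).hB i
        rw [h5]
        ring
      exact Submodule.eq_of_le_of_finrank_eq h4 (by rw [L.2.1, finrank_hl])

/-- Zariski closed sets are closed in the classical topology. (The complement of a strict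
transform is Zariski open: `isOpen_not_on_line` of Clo.lean, or the second part of
MP_8481ed_ag/Sheaf.lean.) -/
lemma isClosed_ell8 (j : Fin 8) : IsClosed (ell8 j) := by
  rw [← isOpen_compl_iff]
  have h1 : IsOpen {y : BlowUp hp | ¬ On hp (.line (hl (j8 j))) y} := by
    exact isOpen_not_on_line (finrank_hl _)
  have h2 := isOpen_classical_of_isOpen h1
  have h3 : @IsOpen _ ((classical hp).induced (Aff.pt (M := lM) hp)) (ell8 j)ᶜ :=
    ⟨_, h2, rfl⟩
  exact h3

private lemma ell_lvec0 : lvec 0 = lM := rfl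

private lemma ell_j8_cases (j : Fin 9) : j = 0 ∨ ∃ i, j = j8 i := by
  by_cases h : j = 0
  · exact Or.inl h
  · right
    have hj : j.1 ≠ 0 := fun h' => h (Fin.ext h')
    exact ⟨⟨j.1 - 1, by omega⟩, Fin.ext (by simp only [j8]; omega)⟩

private lemma ell_k8_not_lt (k : Fin 8) : ¬ (k8 k).1 < 4 := by
  simp only [k8]
  omega

/-- A point of the blow-up lies in `X = V ∖ D` iff it lies in the affine part and on none of the
eight lines. -/
lemma surface_iff (x : BlowUp hp) : (∀ C ∈ hD, ¬ On hp C x) ↔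
    lin lM x.vec ≠ 0 ∧ ∀ j : Fin 8, ¬ On hp (.line (hl (j8 j))) x := by
  constructor
  · intro h
    refine ⟨?_, fun j => h _ (Or.inl ⟨j8 j, rfl⟩)⟩
    cases x with
    | away q hq =>
      intro h0
      change lin lM q.rep = 0 at h0
      refine h (.line (hl 0)) (Or.inl ⟨0, rfl⟩) ?_
      change q.submodule ≤ lker (lvec 0)
      rw [submodule_le_lker, ell_lvec0]
      exact h0
    | exc i L =>
      change lin lM (hp i).rep ≠ 0
      rcases k8_cases i with hi | hi
      · exact absurd rfl (h (.exc i) (Or.inr ⟨i, hi, rfl⟩))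
      · exact (lin_lM_rep_hp i).2 hi
  · rintro ⟨h1, h2⟩ C (⟨j, rfl⟩ | ⟨i, hi, rfl⟩)
    · rcases ell_j8_cases j with rfl | ⟨j', rfl⟩
      · cases x with
        | away q hq =>
          intro h3
          change q.submodule ≤ lker (lvec 0) at h3
          rw [submodule_le_lker, ell_lvec0] at h3
          exact h1 h3
        | exc i L =>
          intro h3
          change L.1 = lker (lvec 0) at h3
          have h4 := LineThrough.rep_mem L
          rw [h3, mem_lker, ell_lvec0] at h4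
          exact h1 h4
      · exact h2 j'
    · cases x with
      | away q hq => exact fun h3 => h3
      | exc i' L =>
        intro h3
        change i' = i at h3
        subst h3
        obtain ⟨k, rfl⟩ := (lin_lM_rep_hp i').1 h1
        exact ell_k8_not_lt k hi

/-- `X` with the classical topology is homeomorphic to the subspace of `YT`. -/
theorem exists_homeo : Nonempty (Surface hp hD ≃ₜ {y : YT // ∀ j, y ∉ ell8 j}) := by
  let f : Surface hp hD → {y : YT // ∀ j, y ∉ ell8 j} := fun x =>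
    ⟨⟨x.1, ((surface_iff x.1).1 x.2).1⟩, ((surface_iff x.1).1 x.2).2⟩
  let g : {y : YT // ∀ j, y ∉ ell8 j} → Surface hp hD := fun y =>
    ⟨y.1.1, (surface_iff y.1.1).2 ⟨y.1.2, y.2⟩⟩
  refine ⟨⟨⟨f, g, fun x => rfl, fun y => rfl⟩, ?_, ?_⟩⟩
  · change Continuous f
    refine continuous_induced_rng.2 ?_
    have h1 : @Continuous _ _ (surfaceTopology hp hD) (classical hp)
        (fun x : Surface hp hD => Surface.toBlowUp hp x) := continuous_induced_dom
    exact (continuous_induced_rng (g := Subtype.val ∘ f) (f := Aff.pt (M := lM) hp)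
      (t₂ := classical hp) (t₁ := surfaceTopology hp hD)).2 h1
  · change Continuous g
    have h1 : @Continuous _ _ (affTopology (p := hp) lM) (classical hp)
        (Aff.pt (M := lM) hp) := continuous_induced_dom
    have h2 : @Continuous _ _ _ (classical hp)
        (fun y : {y : YT // ∀ j, y ∉ ell8 j} => Aff.pt hp y.1) :=
      @Continuous.comp _ _ _ _ _ (classical hp) _ _ h1 continuous_subtype_val
    exact (continuous_induced_rng (g := g) (f := Surface.toBlowUp hp) (t₂ := classical hp)).2 h2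

end

end Pool.Agent.Lib.MP_ee7b66_ag
end

section

/-!
# The tube charts
-/

open scoped LinearAlgebra.Projectivization
open Pool.Agent.Lib.MP_8481ed_ag TopologicalSpace MvPolynomial Topology
open Pool.Agent.Lib.MP_ee7b66_ag.Top (C2 Sb Rb Pants loc)

namespace Pool.Agent.Lib.MP_ee7b66_ag

noncomputable section

/-- The restriction of a homeomorphism of `ℂ²` to an open set is an open embedding in an open
subset containing the image. -/
lemma isOpenEmbedding_restrict_tubeA {S : Set C2} (hS : IsOpen S) (e : C2 ≃ₜ C2)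
    (g : MvPolynomial (Fin 2) ℂ) (he : ∀ z : S, eval (e z.1) g ≠ 0) :
    IsOpenEmbedding (fun z : S => (⟨e z.1, he z⟩ : {z : C2 // eval z g ≠ 0})) := by
  have hopen : IsOpen {z : C2 | eval z g ≠ 0} :=
    isOpen_ne_fun (MvPolynomial.continuous_eval g) continuous_const
  refine IsOpenEmbedding.of_comp _ hopen.isOpenEmbedding_subtypeVal ?_
  exact e.isOpenEmbedding.comp hS.isOpenEmbedding_subtypeVal

lemma isOpen_Rb_tubeA : IsOpen Rb :=
  isOpen_lt (continuous_apply (1 : Fin 2)).norm continuous_const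

/-- The scaling factor of the tube. -/
def tubeFac (δ : ℝ) (w : ℂ) : ℂ := ((δ / (1 + ‖w‖) ^ 3 : ℝ) : ℂ)

lemma tubeFac_ne {δ : ℝ} (hδ : 0 < δ) (w : ℂ) : tubeFac δ w ≠ 0 := by
  unfold tubeFac
  have h1 : 0 < 1 + ‖w‖ := by
    have := norm_nonneg w
    linarith
  have h2 : 0 < δ / (1 + ‖w‖) ^ 3 := by positivity
  exact_mod_cast h2.ne'

lemma norm_tubeFac {δ : ℝ} (hδ : 0 < δ) (w : ℂ) : ‖tubeFac δ w‖ * (1 + ‖w‖) ^ 3 = δ := by
  unfold tubeFac
  have h1 : 0 < 1 + ‖w‖ := by
    have := norm_nonneg w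
    linarith
  have h2 : 0 < δ / (1 + ‖w‖) ^ 3 := by positivity
  rw [Complex.norm_real, Real.norm_eq_abs, abs_of_pos h2]
  field_simp

lemma continuous_tubeFac (δ : ℝ) : Continuous (tubeFac δ) := by
  unfold tubeFac
  refine Complex.continuous_ofReal.comp ?_
  refine Continuous.div continuous_const ((continuous_const.add continuous_norm).pow 3) ?_
  intro w
  have h1 : 0 < 1 + ‖w‖ := by
    have := norm_nonneg w
    linarith
  positivity

/-- The homeomorphism `(z₀, z₁) ↦ (z₀, z₁ δ / (1 + |z₀|) ^ 3)`. -/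
def tubeHomeo {δ : ℝ} (hδ : 0 < δ) : C2 ≃ₜ C2 where
  toFun z := ![z 0, z 1 * tubeFac δ (z 0)]
  invFun z := ![z 0, z 1 * (tubeFac δ (z 0))⁻¹]
  left_inv z := by
    have h := tubeFac_ne hδ (z 0)
    funext i
    fin_cases i
    · simp
    · simp [h]
  right_inv z := by
    have h := tubeFac_ne hδ (z 0)
    funext i
    fin_cases i
    · simp
    · simp [h]
  continuous_toFun := by
    refine continuous_pi fun i => ?_
    fin_cases i
    · exact continuous_apply 0
    · exact (continuous_apply 1).mul ((continuous_tubeFac δ).comp (continuous_apply 0))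
  continuous_invFun := by
    refine continuous_pi fun i => ?_
    fin_cases i
    · exact continuous_apply 0
    · exact (continuous_apply 1).mul
        (((continuous_tubeFac δ).comp (continuous_apply 0)).inv₀ fun z => tubeFac_ne hδ _)

/-- For small `δ` the equation of the chart does not vanish on the tube:
`|s ∏ (t - t i)| ≤ δ C ^ 3 < |b l|` with `C = 1 + max |t i|` (`|t - t i| ≤ C (1 + |t|)`). -/
lemma exists_delta_g (j : Fin 8) : ∃ δ₀ : ℝ, 0 < δ₀ ∧ ∀ δ : ℝ, 0 < δ → δ ≤ δ₀ → ∀ z : C2,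
    ‖z 1‖ * (1 + ‖z 0‖) ^ 3 < δ → eval z (ld j).gpoly ≠ 0 := by
  classical
  obtain ⟨C, hC⟩ : ∃ C : ℝ, C = 1 + ∑ i, ‖(ld j).t i‖ := ⟨_, rfl⟩
  have hsum0 : 0 ≤ ∑ i, ‖(ld j).t i‖ := Finset.sum_nonneg fun i _ => norm_nonneg _
  have hC1 : 1 ≤ C := by linarith
  have hC0 : 0 < C := by linarith
  have hti : ∀ i, ‖(ld j).t i‖ ≤ C := by
    intro i
    have h1 := Finset.single_le_sum (f := fun i => ‖(ld j).t i‖)
      (fun i _ => norm_nonneg _) (Finset.mem_univ i)
    linarith
  obtain ⟨d, hd⟩ : ∃ d : Fin 12 → ℝ, d = fun l =>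
      if (∀ i, l ≠ (ld j).k i) ∧ lin ((ld j).c 0) (hp l).rep ≠ 0 then ‖(ld j).b l‖ / C ^ 3
      else 1 := ⟨_, rfl⟩
  have hdpos : ∀ l, 0 < d l := by
    intro l
    rw [hd]
    dsimp only
    split_ifs with h
    · have h1 := ((ld j).hb l h.1 h.2).1
      have h2 : 0 < ‖(ld j).b l‖ := norm_pos_iff.2 h1
      positivity
    · exact one_pos
  refine ⟨Finset.univ.inf' Finset.univ_nonempty d, ?_, ?_⟩
  · exact (Finset.lt_inf'_iff _).2 fun l _ => hdpos l
  · intro δ hδ hδ0 z hz
    unfold LineData.gpoly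
    rw [map_prod, Finset.prod_ne_zero_iff]
    intro l _
    split_ifs with h
    · have hle : δ ≤ d l := hδ0.trans (Finset.inf'_le _ (Finset.mem_univ l))
      rw [hd] at hle
      dsimp only at hle
      rw [if_pos h, le_div_iff₀ (by positivity)] at hle
      have hfac : ∀ i, ‖z 0 - (ld j).t i‖ ≤ C * (1 + ‖z 0‖) := by
        intro i
        have h1 := norm_sub_le (z 0) ((ld j).t i)
        have h2 := norm_nonneg (z 0)
        have h3 := hti i
        nlinarith
      have hprod : ‖∏ i, (z 0 - (ld j).t i)‖ ≤ (C * (1 + ‖z 0‖)) ^ 3 := by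
        rw [norm_prod]
        refine (Finset.prod_le_prod (fun i _ => norm_nonneg _) fun i _ => hfac i).trans ?_
        rw [Finset.prod_const, Finset.card_univ, Fintype.card_fin]
      intro h0
      have h1 : z 1 * ∏ i, (z 0 - (ld j).t i) = (ld j).b l := by
        have h2 : eval z (MvPolynomial.X 1 * ∏ i, (MvPolynomial.X 0 -
            MvPolynomial.C ((ld j).t i)) - MvPolynomial.C ((ld j).b l)) =
            z 1 * ∏ i, (z 0 - (ld j).t i) - (ld j).b l := by
          simp only [map_sub, map_mul, map_prod, eval_X, eval_C]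
        rw [h2] at h0
        exact sub_eq_zero.1 h0
      have h3 : ‖(ld j).b l‖ ≤ ‖z 1‖ * (C * (1 + ‖z 0‖)) ^ 3 := by
        rw [← h1, norm_mul]
        exact mul_le_mul_of_nonneg_left hprod (norm_nonneg _)
      have h4 : ‖z 1‖ * (C * (1 + ‖z 0‖)) ^ 3 = (‖z 1‖ * (1 + ‖z 0‖) ^ 3) * C ^ 3 := by ring
      have h5 : (‖z 1‖ * (1 + ‖z 0‖) ^ 3) * C ^ 3 < δ * C ^ 3 :=
        mul_lt_mul_of_pos_right hz (by positivity)
      linarith
    · rw [map_one]
      exact one_ne_zero

/-- The tube chart: `(z₀, z₁) ↦` the point with coordinates `t = z₀`,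
`s = z₁ δ / (1 + |z₀|) ^ 3`. (`LChart.exists_isOpenEmbedding` for `(ld j).chart` composed with the
open embedding `Rb → {g ≠ 0}`.) -/
theorem exists_tube (j : Fin 8) {δ : ℝ} (hδ : 0 < δ) (hg : ∀ z : C2,
    ‖z 1‖ * (1 + ‖z 0‖) ^ 3 < δ → eval z (ld j).gpoly ≠ 0) :
    ∃ Φ : Rb → YT, IsOpenEmbedding Φ ∧
      (∀ z : Rb, (ld j).dom (Aff.pt hp (Φ z)) ∧ (ld j).crd (Aff.pt hp (Φ z)) =
        ![z.1 0, z.1 1 * ((δ / (1 + ‖z.1 0‖) ^ 3 : ℝ) : ℂ)]) ∧
      ∀ y : YT, Tube j δ (Aff.pt hp y) → ∃ z, Φ z = y := by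
  obtain ⟨Ψ, hΨ, hΨ1, hΨ2⟩ := LChart.exists_isOpenEmbedding (ld j).chart
    (M := lM) (fun y hy => ld_dom_aff j hy)
  have hg' : ∀ z : Rb, eval (tubeHomeo hδ z.1) (ld j).gpoly ≠ 0 := by
    intro z
    apply hg
    have e0 : tubeHomeo hδ z.1 0 = z.1 0 := rfl
    have e1 : tubeHomeo hδ z.1 1 = z.1 1 * tubeFac δ (z.1 0) := rfl
    rw [e0, e1, norm_mul, mul_assoc, norm_tubeFac hδ]
    have hz : ‖z.1 1‖ < 1 := z.2
    nlinarith
  have hm := isOpenEmbedding_restrict_tubeA isOpen_Rb_tubeA (tubeHomeo hδ) (ld j).gpoly hg'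
  have hcrd : ∀ z : Rb, (ld j).dom (Aff.pt hp (Ψ ⟨tubeHomeo hδ z.1, hg' z⟩)) ∧
      (ld j).crd (Aff.pt hp (Ψ ⟨tubeHomeo hδ z.1, hg' z⟩)) =
        ![z.1 0, z.1 1 * ((δ / (1 + ‖z.1 0‖) ^ 3 : ℝ) : ℂ)] :=
    fun z => hΨ1 ⟨tubeHomeo hδ z.1, hg' z⟩
  refine ⟨fun z => Ψ ⟨tubeHomeo hδ z.1, hg' z⟩, hΨ.comp hm, hcrd, ?_⟩
  intro y hy
  obtain ⟨z', hz'⟩ := hΨ2 y hy.1
  have hc' : z'.1 = (ld j).crd (Aff.pt hp y) := by
    rw [← hz']
    exact ((hΨ1 z').2).symm
  have hS : ((tubeHomeo hδ).symm z'.1) ∈ Rb := by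
    have s1 : (tubeHomeo hδ).symm z'.1 1 = z'.1 1 * (tubeFac δ (z'.1 0))⁻¹ := rfl
    change ‖(tubeHomeo hδ).symm z'.1 1‖ < 1
    rw [s1, norm_mul, norm_inv]
    have h1 := hy.2
    rw [← hc'] at h1
    have h2 := norm_tubeFac hδ (z'.1 0)
    have h3 : 0 < ‖tubeFac δ (z'.1 0)‖ := norm_pos_iff.2 (tubeFac_ne hδ _)
    have h4 : 0 < (1 + ‖z'.1 0‖) ^ 3 := by
      have := norm_nonneg (z'.1 0)
      positivity
    rw [← div_eq_mul_inv, div_lt_one h3]
    rw [← h2] at h1
    exact lt_of_mul_lt_mul_right h1 h4.le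
  refine ⟨⟨_, hS⟩, ?_⟩
  rw [← hz']
  have e3 : (⟨tubeHomeo hδ ((tubeHomeo hδ).symm z'.1), hg' ⟨_, hS⟩⟩ :
      {z : C2 // eval z (ld j).gpoly ≠ 0}) = z' := by
    apply Subtype.ext
    exact (tubeHomeo hδ).apply_symm_apply z'.1
  exact congrArg Ψ e3

end

end Pool.Agent.Lib.MP_ee7b66_ag
end
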