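import Mathlib
import Pool.Agent.Lib.MP_ee7b66_ag.Mg.G008
import Pool.Agent.Lib.MP_ee7b66_ag.G.TubeB

section

/-!
# Disjoint tubes
-/

open scoped LinearAlgebra.Projectivization
open Pool.Agent.Lib.MP_8481ed_ag TopologicalSpace MvPolynomial Topology
open Pool.Agent.Lib.MP_ee7b66_ag.Top (C2 Sb Rb Pants loc)

namespace Pool.Agent.Lib.MP_ee7b66_ag

noncomputable section

lemma tubeC_lin_sub (c v w : Fin 3 → ℂ) : lin c (v - w) = lin c v - lin c w := by
  simp only [lin, Fin.sum_univ_three, Pi.sub_apply]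
  ring

lemma tubeC_lin_zero (c : Fin 3 → ℂ) : lin c 0 = 0 := by
  simp [lin]

lemma tubeC_k8_inj : Function.Injective k8 := by
  intro a b h
  have h1 := congrArg Fin.val h
  simp only [k8] at h1
  exact Fin.ext (by omega)

/-- Two vectors with the same coordinates are equal. -/
lemma tubeC_ext (F : Frame) (v w : Fin 3 → ℂ) (h0 : lin (F.c 0) v = lin (F.c 0) w)
    (h1 : lin (F.c 1) v = lin (F.c 1) w) (h2 : lin (F.c 2) v = lin (F.c 2) w) : v = w := by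
  have h : (fun j => lin (F.c j) v) = fun j => lin (F.c j) w := by
    funext j
    fin_cases j
    · exact h0
    · exact h1
    · exact h2
  exact (F.vecOf_lin v).symm.trans ((congrArg F.vecOf h).trans (F.vecOf_lin w))

/-- On the vectors with first coordinate zero every form is bounded by the other two
coordinates. -/
lemma tubeC_bound (F : Frame) (T : Fin 3 → ℂ) : ∃ K : ℝ, 0 < K ∧ ∀ d : Fin 3 → ℂ,
    lin (F.c 0) d = 0 → ‖lin T d‖ ≤ K * (‖lin (F.c 1) d‖ + ‖lin (F.c 2) d‖) := by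
  have hl : ∀ (y : Fin 3 → ℂ) j, lin (F.c j) (F.vecOf y) = y j := fun y j => F.lin_vecOf y j
  refine ⟨‖lin T (F.vecOf ![0, 1, 0])‖ + ‖lin T (F.vecOf ![0, 0, 1])‖ + 1, by positivity, ?_⟩
  intro d hd
  have e : d = lin (F.c 1) d • F.vecOf ![0, 1, 0] + lin (F.c 2) d • F.vecOf ![0, 0, 1] := by
    apply tubeC_ext F
    · refine hd.trans ?_
      rw [lin_add, lin_smul, lin_smul]
      refine Eq.trans ?_ (congrArg₂ (fun a b => lin (F.c 1) d * a + lin (F.c 2) d * b)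
        (hl ![0, 1, 0] 0).symm (hl ![0, 0, 1] 0).symm)
      simp
    · rw [lin_add, lin_smul, lin_smul]
      refine Eq.trans ?_ (congrArg₂ (fun a b => lin (F.c 1) d * a + lin (F.c 2) d * b)
        (hl ![0, 1, 0] 1).symm (hl ![0, 0, 1] 1).symm)
      simp
    · rw [lin_add, lin_smul, lin_smul]
      refine Eq.trans ?_ (congrArg₂ (fun a b => lin (F.c 1) d * a + lin (F.c 2) d * b)
        (hl ![0, 1, 0] 2).symm (hl ![0, 0, 1] 2).symm)
      simp
  have e2 : lin T d = lin (F.c 1) d * lin T (F.vecOf ![0, 1, 0]) +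
      lin (F.c 2) d * lin T (F.vecOf ![0, 0, 1]) := by
    conv_lhs => rw [e]
    rw [lin_add, lin_smul, lin_smul]
  rw [e2]
  refine (norm_add_le _ _).trans ?_
  rw [norm_mul, norm_mul]
  nlinarith [norm_nonneg (lin (F.c 1) d), norm_nonneg (lin (F.c 2) d),
    norm_nonneg (lin T (F.vecOf ![0, 1, 0])), norm_nonneg (lin T (F.vecOf ![0, 0, 1])),
    mul_nonneg (norm_nonneg (lin (F.c 1) d)) (norm_nonneg (lin T (F.vecOf ![0, 0, 1]))),
    mul_nonneg (norm_nonneg (lin (F.c 2) d)) (norm_nonneg (lin T (F.vecOf ![0, 1, 0])))]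

/-- A point in both tubes has a nonzero direction from the common blown up point. -/
lemma tubeC_exists_dir (i j : Fin 8) (hij : i ≠ j) (a b : Fin 3) (hab : kk i a = kk j b)
    (y : BlowUp hp) (hi : (ld i).dom y) (hj : (ld j).dom y) :
    ∃ d : Fin 3 → ℂ, d ≠ 0 ∧ IsDir (kk i a) d y := by
  cases y with
  | away q hq =>
    have hM : lin lM q.rep ≠ 0 := hi.1
    refine ⟨vecAff (aff q.rep) - vecAff (pt8 (kk i a)), ?_, hM, rfl⟩
    intro h0
    have h1 : vecAff (aff q.rep) = vecAff (pt8 (kk i a)) := sub_eq_zero.1 h0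
    have hMp := lin_lM_pvec (kk i a)
    have ep : vecAff (pt8 (kk i a)) =
        (lin lM (pvec (k8 (kk i a))))⁻¹ • pvec (k8 (kk i a)) := vecAff_aff hMp
    rw [vecAff_aff hM, ep] at h1
    apply hq (k8 (kk i a))
    rw [← q.mk_rep, hp, Projectivization.mk_eq_mk_iff']
    refine ⟨lin lM q.rep * (lin lM (pvec (k8 (kk i a))))⁻¹, ?_⟩
    rw [mul_smul, ← h1, smul_smul, mul_inv_cancel₀ hM, one_smul]
  | exc l L =>
    obtain ⟨i', hi', -⟩ := hi
    obtain ⟨i'', hi'', -⟩ := hj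
    have e1 : l = k8 (kk i i') := hi'
    have e2 : l = k8 (kk j i'') := hi''
    have e3 : kk i i' = kk j i'' := tubeC_k8_inj (e1.symm.trans e2)
    have e4 : a = i' := common_unique i j hij a i' b i'' hab e3
    subst e4
    subst e1
    have hMr : lin lM (hp (k8 (kk i a))).rep ≠ 0 := ld_hM i a
    refine ⟨LineThrough.dir L - (lin lM (LineThrough.dir L) / lin lM (hp (k8 (kk i a))).rep) •
      (hp (k8 (kk i a))).rep, ?_, rfl, ?_, ?_⟩
    · intro h0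
      apply L.dir_not_mem
      rw [sub_eq_zero.1 h0, Projectivization.submodule_eq]
      exact Submodule.smul_mem _ _ (Submodule.mem_span_singleton_self _)
    · exact Submodule.sub_mem _ L.dir_mem (Submodule.smul_mem _ _ L.rep_mem)
    · rw [tubeC_lin_sub, lin_smul, div_mul_cancel₀ _ hMr, sub_self]

/-- Disjoint tubes, case of lines meeting at a blown up point `k = kk i a = kk j b`. The forms
`M`, `B_i`, `B_j` are linearly independent, so `‖d‖ ≤ K max (‖B_i d‖, ‖B_j d‖)` for `M(d) = 0`; with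
`exists_const_dir` this is impossible for small `δ` and `d ≠ 0`. A point `y` in both tubes is
either outside the exceptional curves (`d = vecAff (aff q.rep) - vecAff (pt8 k) ≠ 0`) or
`y = exc (k8 k) L` (`common_unique`), and then `d ∈ L`, `M(d) = 0`, `d ≠ 0` exists. -/
lemma exists_delta_meet (i j : Fin 8) (hij : i ≠ j)
    (h : det3 lM (lvec (j8 i)) (lvec (j8 j)) ≠ 0) :
    ∃ δ₀ : ℝ, 0 < δ₀ ∧ ∀ δ : ℝ, 0 < δ → δ ≤ δ₀ → ∀ y, Tube i δ y → Tube j δ y → False := by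
  obtain ⟨a, b, hab⟩ := exists_common i j hij h
  obtain ⟨Ci, hCi, hTi⟩ := exists_const_dir i
  obtain ⟨Cj, hCj, hTj⟩ := exists_const_dir j
  have hdet : Matrix.det (Matrix.of ![lM, lvec (j8 i), lvec (j8 j)]) ≠ 0 := by
    rw [det_eq_det3]
    exact h
  let F : Frame := ⟨Matrix.of ![lM, lvec (j8 i), lvec (j8 j)], hdet⟩
  obtain ⟨Ki, hKi, hbi⟩ := tubeC_bound F (tcoef i)
  obtain ⟨Kj, hKj, hbj⟩ := tubeC_bound F (tcoef j)
  have hpos : 0 < 2 * (Ci * Ki + Cj * Kj) := by positivity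
  refine ⟨(2 * (Ci * Ki + Cj * Kj))⁻¹, inv_pos.2 hpos, ?_⟩
  intro δ hδ hδ₀ y hyi hyj
  obtain ⟨d, hd0, hd⟩ := tubeC_exists_dir i j hij a b hab y hyi.1 hyj.1
  have hMd : lin lM d = 0 := hd.lM_eq
  have hd' : IsDir (kk j b) d y := hab ▸ hd
  have h1 := hTi δ a d y hyi hd
  have h2 := hTj δ b d y hyj hd'
  have h3 : ‖lin (tcoef i) d‖ ≤ Ki * (‖lin (lvec (j8 i)) d‖ + ‖lin (lvec (j8 j)) d‖) :=
    hbi d hMd
  have h4 : ‖lin (tcoef j) d‖ ≤ Kj * (‖lin (lvec (j8 i)) d‖ + ‖lin (lvec (j8 j)) d‖) :=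
    hbj d hMd
  set x : ℝ := ‖lin (lvec (j8 i)) d‖ with hx
  set z : ℝ := ‖lin (lvec (j8 j)) d‖ with hz
  have hx0 : 0 ≤ x := norm_nonneg _
  have hz0 : 0 ≤ z := norm_nonneg _
  have h5 : x ≤ δ * Ci * (Ki * (x + z)) :=
    h1.trans (mul_le_mul_of_nonneg_left h3 (by positivity))
  have h6 : z ≤ δ * Cj * (Kj * (x + z)) :=
    h2.trans (mul_le_mul_of_nonneg_left h4 (by positivity))
  have h7 : δ * (2 * (Ci * Ki + Cj * Kj)) ≤ 1 := by
    calc δ * (2 * (Ci * Ki + Cj * Kj)) ≤ (2 * (Ci * Ki + Cj * Kj))⁻¹ *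
          (2 * (Ci * Ki + Cj * Kj)) := mul_le_mul_of_nonneg_right hδ₀ hpos.le
      _ = 1 := inv_mul_cancel₀ hpos.ne'
  have h8 : x + z ≤ 0 := by
    have h9 : x + z ≤ (δ * (Ci * Ki + Cj * Kj)) * (x + z) := by
      calc x + z ≤ δ * Ci * (Ki * (x + z)) + δ * Cj * (Kj * (x + z)) := add_le_add h5 h6
        _ = (δ * (Ci * Ki + Cj * Kj)) * (x + z) := by ring
    have h10 : (δ * (Ci * Ki + Cj * Kj)) * (x + z) ≤ (1 / 2) * (x + z) :=
      mul_le_mul_of_nonneg_right (by linarith) (by linarith)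
    linarith
  have hx1 : lin (lvec (j8 i)) d = 0 := by
    rw [← norm_eq_zero]
    linarith
  have hz1 : lin (lvec (j8 j)) d = 0 := by
    rw [← norm_eq_zero]
    linarith
  apply hd0
  exact tubeC_ext F d 0 (hMd.trans (tubeC_lin_zero _).symm) (hx1.trans (tubeC_lin_zero _).symm)
    (hz1.trans (tubeC_lin_zero _).symm)

lemma tubeC_lin_comb (κ c : ℂ) (u w v : Fin 3 → ℂ) :
    lin (κ • u + c • w) v = κ * lin u v + c * lin w v := by
  simp only [lin, Fin.sum_univ_three, Pi.add_apply, Pi.smul_apply, smul_eq_mul]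
  ring

/-- Disjoint tubes, case of parallel lines: `B_i / M = κ B_j / M + c`; points of exceptional
curves in both tubes would lie on both lines. -/
lemma exists_delta_parallel (i j : Fin 8) (hij : i ≠ j)
    (h : det3 lM (lvec (j8 i)) (lvec (j8 j)) = 0) :
    ∃ δ₀ : ℝ, 0 < δ₀ ∧ ∀ δ : ℝ, 0 < δ → δ ≤ δ₀ → ∀ y, Tube i δ y → Tube j δ y → False := by
  obtain ⟨κ, c, hc, hpar⟩ := exists_parallel i j hij h
  obtain ⟨Ci, hCi, hTi⟩ := exists_const_away i
  obtain ⟨Cj, hCj, hTj⟩ := exists_const_away j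
  have hcn : 0 < ‖c‖ := norm_pos_iff.2 hc
  have hpos : 0 < 2 * (Ci + ‖κ‖ * Cj) := by positivity
  refine ⟨‖c‖ / (2 * (Ci + ‖κ‖ * Cj)), div_pos hcn hpos, ?_⟩
  intro δ hδ hδ₀ y hyi hyj
  cases y with
  | away q hq =>
    have hM : lin lM q.rep ≠ 0 := hyi.1.1
    have h1 := hTi δ q hq hyi
    have h2 := hTj δ q hq hyj
    have e1 : lin (lvec (j8 i)) q.rep / lin lM q.rep =
        κ * (lin (lvec (j8 j)) q.rep / lin lM q.rep) + c := by
      rw [hpar, tubeC_lin_comb]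
      field_simp
    have e2 : c = lin (lvec (j8 i)) q.rep / lin lM q.rep -
        κ * (lin (lvec (j8 j)) q.rep / lin lM q.rep) := by
      rw [e1]
      ring
    have h3 : ‖c‖ ≤ δ * Ci + ‖κ‖ * (δ * Cj) := by
      calc ‖c‖ = ‖lin (lvec (j8 i)) q.rep / lin lM q.rep -
            κ * (lin (lvec (j8 j)) q.rep / lin lM q.rep)‖ := congrArg norm e2
        _ ≤ ‖lin (lvec (j8 i)) q.rep / lin lM q.rep‖ +
            ‖κ * (lin (lvec (j8 j)) q.rep / lin lM q.rep)‖ := norm_sub_le _ _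
        _ ≤ δ * Ci + ‖κ‖ * (δ * Cj) := by
            rw [norm_mul]
            exact add_le_add h1 (mul_le_mul_of_nonneg_left h2 (norm_nonneg _))
    have h4 : δ * (2 * (Ci + ‖κ‖ * Cj)) ≤ ‖c‖ := (le_div_iff₀ hpos).1 hδ₀
    nlinarith
  | exc l L =>
    obtain ⟨i', hi', -⟩ := hyi.1
    obtain ⟨i'', hi'', -⟩ := hyj.1
    have e1 : l = k8 (kk i i') := hi'
    have e2 : l = k8 (kk j i'') := hi''
    have e3 : kk i i' = kk j i'' := tubeC_k8_inj (e1.symm.trans e2)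
    have hMr : lin lM (hp (k8 (kk i i'))).rep ≠ 0 := ld_hM i i'
    have hBi : lin (lvec (j8 i)) (hp (k8 (kk i i'))).rep = 0 := ld_hB i i'
    have hBj : lin (lvec (j8 j)) (hp (k8 (kk i i'))).rep = 0 := by
      rw [e3]
      exact ld_hB j i''
    rw [hpar, tubeC_lin_comb, hBj, mul_zero, zero_add] at hBi
    exact mul_ne_zero hc hMr hBi

lemma tubeC_min {ι : Type} [Fintype ι] [Nonempty ι] (f : ι → ℝ) (hf : ∀ i, 0 < f i) :
    ∃ δ : ℝ, 0 < δ ∧ ∀ i, δ ≤ f i :=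
  ⟨Finset.univ.inf' Finset.univ_nonempty f, (Finset.lt_inf'_iff _).2 fun i _ => hf i,
    fun i => Finset.inf'_le f (Finset.mem_univ i)⟩

/-- A common size of the tubes. -/
theorem exists_delta : ∃ δ : ℝ, 0 < δ ∧
    (∀ (j : Fin 8) (z : C2), ‖z 1‖ * (1 + ‖z 0‖) ^ 3 < δ → eval z (ld j).gpoly ≠ 0) ∧
    ∀ i j : Fin 8, i ≠ j → ∀ y, Tube i δ y → Tube j δ y → False := by
  have h1 : ∀ x : Fin 8 × Fin 8, ∃ δ₀ : ℝ, 0 < δ₀ ∧ ∀ δ : ℝ, 0 < δ → δ ≤ δ₀ → x.1 ≠ x.2 →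
      ∀ y, Tube x.1 δ y → Tube x.2 δ y → False := by
    rintro ⟨i, j⟩
    by_cases hij : i = j
    · exact ⟨1, one_pos, fun δ _ _ h => absurd hij h⟩
    · by_cases h : det3 lM (lvec (j8 i)) (lvec (j8 j)) = 0
      · obtain ⟨δ₀, h0, h1⟩ := exists_delta_parallel i j hij h
        exact ⟨δ₀, h0, fun δ hδ hle _ => h1 δ hδ hle⟩
      · obtain ⟨δ₀, h0, h1⟩ := exists_delta_meet i j hij h
        exact ⟨δ₀, h0, fun δ hδ hle _ => h1 δ hδ hle⟩
  choose f hf hf' using h1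
  choose g hg hg' using exists_delta_g
  obtain ⟨δ₁, hδ₁, hf1⟩ := tubeC_min f hf
  obtain ⟨δ₂, hδ₂, hg1⟩ := tubeC_min g hg
  refine ⟨min δ₁ δ₂, lt_min hδ₁ hδ₂, ?_, ?_⟩
  · intro j z hz
    exact hg' j (min δ₁ δ₂) (lt_min hδ₁ hδ₂) ((min_le_right _ _).trans (hg1 j)) z hz
  · intro i j hij y hyi hyj
    exact hf' (i, j) (min δ₁ δ₂) (lt_min hδ₁ hδ₂) ((min_le_left _ _).trans (hf1 (i, j))) hij y
      hyi hyj

end

end Pool.Agent.Lib.MP_ee7b66_ag
end

section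

/-!
# The tubes
-/

open scoped LinearAlgebra.Projectivization
open Pool.Agent.Lib.MP_8481ed_ag TopologicalSpace MvPolynomial Topology
open Pool.Agent.Lib.MP_ee7b66_ag.Top (C2 Sb Rb Pants loc)

namespace Pool.Agent.Lib.MP_ee7b66_ag

noncomputable section

/-- The points with coordinates `(z₀, z₁ δ / (1 + |z₀|) ^ 3)`, `|z₁| < 1`, lie in the tube. -/
lemma tube_of_crd (j : Fin 8) {δ : ℝ} (hδ : 0 < δ) (y : BlowUp hp) (z : Rb)
    (h : (ld j).dom y ∧ (ld j).crd y =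
      ![z.1 0, z.1 1 * ((δ / (1 + ‖z.1 0‖) ^ 3 : ℝ) : ℂ)]) : Tube j δ y := by
  refine ⟨h.1, ?_⟩
  have hz : ‖z.1 1‖ < 1 := z.2
  have h0 : (0 : ℝ) < (1 + ‖z.1 0‖) ^ 3 := by positivity
  rw [h.2]
  simp only [Matrix.cons_val_zero, Matrix.cons_val_one, norm_mul, Complex.norm_real,
    Real.norm_eq_abs]
  rw [abs_of_pos (by positivity), mul_assoc, div_mul_cancel₀ _ h0.ne']
  calc ‖z.1 1‖ * δ < 1 * δ := mul_lt_mul_of_pos_right hz hδ
    _ = δ := one_mul δ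

/-- The tube charts, with a common size. -/
theorem exists_tubes : ∃ δ : ℝ, 0 < δ ∧ ∃ tb : Fin 8 → Rb → YT, (∀ j, IsOpenEmbedding (tb j)) ∧
    (∀ i j, i ≠ j → Disjoint (Set.range (tb i)) (Set.range (tb j))) ∧
    (∀ j, ell8 j = tb j '' {z | z.1 1 = 0}) ∧
    (∀ j (z : Rb), (ld j).dom (Aff.pt hp (tb j z)) ∧ (ld j).crd (Aff.pt hp (tb j z)) =
        ![z.1 0, z.1 1 * ((δ / (1 + ‖z.1 0‖) ^ 3 : ℝ) : ℂ)]) ∧
    ∀ j (y : YT), Tube j δ (Aff.pt hp y) → ∃ z, tb j z = y := by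
  obtain ⟨δ, hδ, hg, hdis⟩ := exists_delta
  choose tb hemb hcrd hsurj using fun j => exists_tube j hδ (hg j)
  refine ⟨δ, hδ, tb, hemb, ?_, ?_, hcrd, hsurj⟩
  · intro i j hij
    rw [Set.disjoint_left]
    rintro y ⟨z, rfl⟩ ⟨z', hz'⟩
    refine hdis i j hij (Aff.pt hp (tb i z)) (tube_of_crd i hδ _ z (hcrd i z)) ?_
    rw [← hz']
    exact tube_of_crd j hδ _ z' (hcrd j z')
  · intro j
    ext y
    constructor
    · intro hy
      obtain ⟨h1, h2⟩ := (on_line_iff j y).1 hy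
      obtain ⟨z, rfl⟩ := hsurj j y ⟨h1, by rw [h2, norm_zero, zero_mul]; exact hδ⟩
      refine ⟨z, ?_, rfl⟩
      have h3 := congrFun (hcrd j z).2 1
      rw [h2] at h3
      simp only [Matrix.cons_val_one] at h3
      have h0 : (0 : ℝ) < (1 + ‖z.1 0‖) ^ 3 := by positivity
      have h4 : ((δ / (1 + ‖z.1 0‖) ^ 3 : ℝ) : ℂ) ≠ 0 := by
        rw [Complex.ofReal_ne_zero]
        exact (div_pos hδ h0).ne'
      rcases mul_eq_zero.1 h3.symm with h5 | h5
      · exact h5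
      · exact absurd h5 h4
    · rintro ⟨z, hz, rfl⟩
      refine (on_line_iff j _).2 ⟨(hcrd j z).1, ?_⟩
      rw [(hcrd j z).2]
      have hz' : z.1 1 = 0 := hz
      simp [hz']

end

end Pool.Agent.Lib.MP_ee7b66_ag
end
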