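import Mathlib
import Pool.Agent.Lib.MP_ee7b66_ag.ContrReg
import Pool.Agent.Lib.MP_ee7b66_ag.LC2
import Pool.Agent.Lib.MP_ee7b66_ag.Exc

section

/-!
# Regularity of the contraction at points of the exceptional curves
-/

open scoped LinearAlgebra.Projectivization
open TopologicalSpace MvPolynomial

universe u

namespace Pool.Agent.Lib.MP_ee7b66_ag.Hes

open Pool.Agent.Lib.MP_8481ed_ag

noncomputable section

section Basic

variable {k : Type u} [Field k]

lemma det3_ne {u v m P w z : Fin 3 → k} (huP : eval P (lf u) = 0) (hvP : eval P (lf v) = 0)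
    (hvw : eval w (lf v) = 0) (hm : eval P (lf m) ≠ 0) (hu : eval w (lf u) ≠ 0)
    (hv : eval z (lf v) ≠ 0) : det3 u v m ≠ 0 := by
  rw [eval_lin] at *
  intro h0
  refine mul_ne_zero (mul_ne_zero hm hu) hv ?_
  have h1 : det3 u v m * det3 P w z = 0 := by rw [h0, zero_mul]
  unfold det3 at h1
  linear_combination h1 - ((v 0 * w 0 + v 1 * w 1 + v 2 * w 2) *
      (m 0 * z 0 + m 1 * z 1 + m 2 * z 2) - (v 0 * z 0 + v 1 * z 1 + v 2 * z 2) *
      (m 0 * w 0 + m 1 * w 1 + m 2 * w 2)) * huP +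
    ((u 0 * w 0 + u 1 * w 1 + u 2 * w 2) * (m 0 * z 0 + m 1 * z 1 + m 2 * z 2) -
      (u 0 * z 0 + u 1 * z 1 + u 2 * z 2) * (m 0 * w 0 + m 1 * w 1 + m 2 * w 2)) * hvP +
    ((u 0 * z 0 + u 1 * z 1 + u 2 * z 2) * (m 0 * P 0 + m 1 * P 1 + m 2 * P 2)) * hvw

lemma alongLine_lf (v w u : Fin 3 → k) : alongLine v w (lf u) =
    Polynomial.C (eval v (lf u)) + Polynomial.C (eval w (lf u)) * Polynomial.X := by
  rw [eval_lin, eval_lin, lin_apply]
  simp only [alongLine, map_add, map_mul, aeval_X, algHom_C, Polynomial.algebraMap_eq]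
  ring

lemma lf_ne_zero {u z : Fin 3 → k} (h : eval z (lf u) ≠ 0) : lf u ≠ 0 := by
  intro h0
  rw [h0, map_zero] at h
  exact h rfl

lemma exists_eval_ne_zero {u : Fin 3 → k} (hu : u ≠ 0) : ∃ z : Fin 3 → k, eval z (lf u) ≠ 0 := by
  obtain ⟨c, hc⟩ := Function.ne_iff.1 hu
  refine ⟨Pi.single c 1, ?_⟩
  rw [eval_lin]
  change u c ≠ 0 at hc
  fin_cases c <;> simpa using hc

lemma arrLine_ne_zero {l : Fin 3 → k} (hl : ArrLine l) : l ≠ 0 := by
  obtain ⟨a, b, ζ, hab, -, rfl⟩ := hl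
  intro h
  have := congrFun h a
  simp [hab] at this

/-- Linear forms adapted to a point and a direction. -/
lemma exists_frame {P w : Fin 3 → k} (hP : P ≠ 0) (hw : ∀ t : k, w ≠ t • P) :
    ∃ u v m : Fin 3 → k, eval P (lf u) = 0 ∧ eval w (lf u) ≠ 0 ∧ eval P (lf v) = 0 ∧
      eval w (lf v) = 0 ∧ v ≠ 0 ∧ eval P (lf m) ≠ 0 := by
  obtain ⟨c, hc⟩ := Function.ne_iff.1 hP
  have hc' : P c ≠ 0 := hc
  have hm : eval P (lf (Pi.single c (1 : k))) ≠ 0 := by
    rw [lin_single, eval_X]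
    exact hc'
  by_cases h0 : P 1 * w 2 - P 2 * w 1 = 0 ∧ P 2 * w 0 - P 0 * w 2 = 0 ∧ P 0 * w 1 - P 1 * w 0 = 0
  · exfalso
    obtain ⟨e0, e1, e2⟩ := h0
    apply hw (w c / P c)
    have key : ∀ j : Fin 3, w j * P c = w c * P j := by
      intro j
      fin_cases c <;> fin_cases j <;> simp only [Fin.zero_eta, Fin.mk_one, Fin.reduceFinMk]
      · linear_combination e2
      · linear_combination -e1
      · linear_combination -e2
      · linear_combination e0
      · linear_combination e1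
      · linear_combination -e0
    funext j
    rw [Pi.smul_apply, smul_eq_mul, div_mul_eq_mul_div, eq_div_iff hc']
    exact key j
  · have hv : (![P 1 * w 2 - P 2 * w 1, P 2 * w 0 - P 0 * w 2, P 0 * w 1 - P 1 * w 0] :
        Fin 3 → k) ≠ 0 := by
      intro h
      apply h0
      exact ⟨congrFun h 0, congrFun h 1, congrFun h 2⟩
    have hvP : eval P (lf ![P 1 * w 2 - P 2 * w 1, P 2 * w 0 - P 0 * w 2,
        P 0 * w 1 - P 1 * w 0]) = 0 := by
      rw [eval_lin]
      simp only [Matrix.cons_val]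
      ring
    have hvw : eval w (lf ![P 1 * w 2 - P 2 * w 1, P 2 * w 0 - P 0 * w 2,
        P 0 * w 1 - P 1 * w 0]) = 0 := by
      rw [eval_lin]
      simp only [Matrix.cons_val]
      ring
    have hu : ∃ u : Fin 3 → k, eval P (lf u) = 0 ∧ eval w (lf u) ≠ 0 := by
      by_cases a0 : P 1 * w 2 - P 2 * w 1 = 0
      · by_cases a1 : P 2 * w 0 - P 0 * w 2 = 0
        · have a2 : P 0 * w 1 - P 1 * w 0 ≠ 0 := fun a2 => h0 ⟨a0, a1, a2⟩
          refine ⟨![-P 1, P 0, 0], ?_, ?_⟩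
          · rw [eval_lin]
            simp only [Matrix.cons_val]
            ring
          · rw [eval_lin]
            simp only [Matrix.cons_val]
            intro h
            exact a2 (by linear_combination h)
        · refine ⟨![P 2, 0, -P 0], ?_, ?_⟩
          · rw [eval_lin]
            simp only [Matrix.cons_val]
            ring
          · rw [eval_lin]
            simp only [Matrix.cons_val]
            intro h
            exact a1 (by linear_combination h)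
      · refine ⟨![0, -P 2, P 1], ?_, ?_⟩
        · rw [eval_lin]
          simp only [Matrix.cons_val]
          ring
        · rw [eval_lin]
          simp only [Matrix.cons_val]
          intro h
          exact a0 (by linear_combination h)
    obtain ⟨u, hu1, hu2⟩ := hu
    exact ⟨u, _, _, hu1, hu2, hvP, hvw, hv, hm⟩

end Basic

section Main

variable {k : Type u} [Field k] [IsAlgClosed k] {r : ℕ} {p : Fin r → Plane k}

lemma prod3 {R : Type*} [CommRing R] (a : Fin 3 → R) {i j l : Fin 3} (hij : i ≠ j) (hil : i ≠ l)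
    (hjl : j ≠ l) : a 0 * a 1 * a 2 = a i * a j * a l := by
  fin_cases i <;> fin_cases j <;> fin_cases l <;> simp at hij hil hjl <;>
    simp only [Fin.zero_eta, Fin.mk_one, Fin.reduceFinMk] <;> ring

/-- The contraction of a local vector field at a point of an exceptional curve. -/
lemma contr_exc {ω : k} (h3 : (3 : k) ≠ 0) (hω : ω ^ 2 + ω + 1 = 0) (i : Fin r)
    (L : LineThrough (p i)) (hH : HesseZero (p i).rep) (dx dy : Frac k)
    (H1 : ∀ u m : Fin 3 → k, eval (p i).rep (lf m) ≠ 0 →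
      IsRegularAt p 0 0 (.exc i L) (dlin u m dx dy))
    (H1' : ∀ v u : Fin 3 → k, eval (p i).rep (lf u) = 0 → eval L.dir (lf u) ≠ 0 →
      eval (p i).rep (lf v) = 0 → IsRegularAt p 0 0 (.exc i L) (dlin v u dx dy))
    (H2 : ∀ l u : Fin 3 → k, ArrLine l → eval (p i).rep (lf l) = 0 → eval L.dir (lf l) = 0 →
      eval (p i).rep (lf u) = 0 → eval L.dir (lf u) ≠ 0 →
      ∃ f, IsRegularAt p 0 0 (.exc i L) f ∧
        dlin l u dx dy = toFrac (lf l) / toFrac (lf u) * f) :
    IsRegularAt p (-3) (fun _ => -1) (.exc i L) (contr dx dy) := by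
  obtain ⟨T⟩ := triplePt h3 hω (p i).rep (p i).rep_nonzero hH
  set P := (p i).rep with hP
  set w := L.dir with hw
  have hwP : ∀ t : k, w ≠ t • P := by
    intro t ht
    apply L.dir_not_mem
    rw [Projectivization.submodule_eq, ← hw, ht]
    exact Submodule.smul_mem _ _ (Submodule.mem_span_singleton_self _)
  have hmem : ∀ {A : CoordRing k} {n : ℕ}, A.IsHomogeneous n → eval P A = 0 →
      A ∈ (BlowUp.exc i L : BlowUp p).idl := fun hA h0 => mem_pointIdeal_of_homog hA _ h0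
  have hlead : ∀ u : Fin 3 → k, (BlowUp.exc i L : BlowUp p).lead 1 (lf u) = eval w (lf u) := by
    intro u
    rw [BlowUp.lead]
    change (alongLine P w (lf u)).coeff 1 = _
    rw [alongLine_lf]
    simp
  have hlead0 : ∀ A : CoordRing k, (BlowUp.exc i L : BlowUp p).lead 0 A = eval P A :=
    fun A => BlowUp.lead_zero _ A
  have hdiv : ∀ {A B : CoordRing k} {n m μ : ℕ}, A.IsHomogeneous n → B.IsHomogeneous m →
      (n : ℤ) = m + (-3) → A ∈ (BlowUp.exc i L : BlowUp p).idl ^ (μ - 1) →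
      B ∈ (BlowUp.exc i L : BlowUp p).idl ^ μ → (BlowUp.exc i L : BlowUp p).lead μ B ≠ 0 →
      IsRegularAt p (-3) (fun _ => -1) (.exc i L) (toFrac A / toFrac B) := by
    intro A B n m μ hA hB hnm hAI hBI hBl
    rw [isRegularAt_iff]
    refine ⟨n, m, μ, A, B, hA, hB, hnm, ?_, hBI, hBl, rfl⟩
    have : ((μ : ℤ) + (BlowUp.exc i L : BlowUp p).mlt (fun _ => -1)).toNat = μ - 1 := by
      change ((μ : ℤ) + (-1)).toNat = μ - 1
      omega
    rw [this]
    exact hAI
  have hsm : ∀ {s t : Frac k}, IsRegularAt p 0 0 (.exc i L) s →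
      IsRegularAt p (-3) (fun _ => -1) (.exc i L) t →
      IsRegularAt p (-3) (fun _ => -1) (.exc i L) (s * t) :=
    fun hs ht => isRegularAt_smul hs ht
  -- adapted linear forms
  obtain ⟨u, v, m, huP, huw, hvP, hvw, hv0, hmP, hcase⟩ : ∃ u v m : Fin 3 → k,
      eval P (lf u) = 0 ∧ eval w (lf u) ≠ 0 ∧ eval P (lf v) = 0 ∧
      eval w (lf v) = 0 ∧ v ≠ 0 ∧ eval P (lf m) ≠ 0 ∧
      ((∀ j, eval w (lf (T.l j)) ≠ 0) ∨ ∃ j, eval w (lf (T.l j)) = 0 ∧ v = T.l j) := by
    obtain ⟨u, v, m, h1, h2, h3, h4, h5, h6⟩ := exists_frame (p i).rep_nonzero hwP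
    by_cases hj : ∃ j, eval w (lf (T.l j)) = 0
    · obtain ⟨j, hj⟩ := hj
      exact ⟨u, T.l j, m, h1, h2, T.hl j, hj, arrLine_ne_zero (T.line j), h6,
        Or.inr ⟨j, hj, rfl⟩⟩
    · push Not at hj
      exact ⟨u, v, m, h1, h2, h3, h4, h5, h6, Or.inl hj⟩
  obtain ⟨z, hz⟩ := exists_eval_ne_zero hv0
  have hdet : det3 u v m ≠ 0 := det3_ne huP hvP hvw hmP huw hz
  obtain ⟨R, hR, hwedge⟩ := T.wedge u v huP hvP
  have hM0 : toFrac (lf m) ≠ 0 := toFrac_ne_zero (lf_ne_zero hmP)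
  have hU0 : toFrac (lf u) ≠ 0 := toFrac_ne_zero (lf_ne_zero huw)
  have hQ0 := toFrac_ne_zero (arrQ_ne_zero (k := k))
  have hid := frame_identity_exc u v m dx dy (lf_ne_zero hmP) (lf_ne_zero huw)
  have hdu := H1 u m hmP
  have hdw := H1' v u huP huw hvP
  have hinv := toFrac_C_inv hdet
  have e1 : toFrac (C (det3 u v m)⁻¹) = (toFrac (C (det3 u v m)))⁻¹ :=
    eq_inv_of_mul_eq_one_left hinv
  have hD0 : toFrac (C (det3 u v m)) ≠ 0 := toFrac_ne_zero (by rwa [Ne, C_eq_zero])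
  have hQQ := T.hQ
  have hne : toFrac (lf (T.l 0) * lf (T.l 1) * lf (T.l 2)) ≠ 0 ∧ toFrac T.Q' ≠ 0 := by
    rw [hQQ, map_mul] at hQ0
    exact ⟨left_ne_zero_of_mul hQ0, right_ne_zero_of_mul hQ0⟩
  obtain ⟨K, hK⟩ : ∃ K : CoordRing k, K = lf m * th2 u - lf u * th2 m := ⟨_, rfl⟩
  have hKhom : K.IsHomogeneous 5 := by
    rw [hK]
    exact ((hom_lin _).mul (hom_th2 _)).sub ((hom_lin _).mul (hom_th2 _))
  have hKP : eval P K = 0 := by
    rw [hK, map_sub, map_mul, map_mul, huP, T.van u huP]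
    ring
  rw [← hK] at hid
  have hfinal : contr dx dy = toFrac (C (det3 u v m)⁻¹) *
      (dlin u m dx dy * (toFrac (lf m ^ 2 * R) / toFrac (lf u * T.Q')) -
        dlin v u dx dy * (toFrac (lf u * K) / toFrac (arrQ k))) := by
    rw [e1]
    rw [hwedge] at hid
    rw [hQQ] at hid ⊢
    simp only [map_mul, map_pow] at hid hne ⊢
    obtain ⟨hl0, hl1, hl2⟩ : toFrac (lf (T.l 0)) ≠ 0 ∧ toFrac (lf (T.l 1)) ≠ 0 ∧
        toFrac (lf (T.l 2)) ≠ 0 :=
      ⟨left_ne_zero_of_mul (left_ne_zero_of_mul hne.1),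
        right_ne_zero_of_mul (left_ne_zero_of_mul hne.1), right_ne_zero_of_mul hne.1⟩
    have hQ'0 := hne.2
    generalize toFrac (lf (T.l 0)) = l0 at hid hl0 ⊢
    generalize toFrac (lf (T.l 1)) = l1 at hid hl1 ⊢
    generalize toFrac (lf (T.l 2)) = l2 at hid hl2 ⊢
    generalize toFrac T.Q' = Q' at hid hQ'0 ⊢
    generalize toFrac (C (det3 u v m)) = D at hid hD0 ⊢
    generalize toFrac (lf m) = M at hid hM0 ⊢
    generalize toFrac (lf u) = U at hid hU0 ⊢
    generalize toFrac R = R at hid ⊢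
    generalize toFrac K = K at hid ⊢
    generalize dlin u m dx dy = du at hid ⊢
    generalize dlin v u dx dy = dw at hid ⊢
    generalize contr dx dy = cc at hid ⊢
    field_simp at hid ⊢
    linear_combination hid
  rw [hfinal]
  refine hsm (regular_const _ _) (regular_sub (hsm hdu ?_) ?_)
  · refine hdiv (μ := 1) (((hom_lin m).pow 2).mul hR) ((hom_lin u).mul T.homQ') (by norm_num)
      (by simp) ?_ ?_
    · rw [pow_one]
      exact Ideal.mul_mem_right _ _ (hmem (hom_lin u) huP)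
    · have h1 : lf u ∈ (BlowUp.exc i L : BlowUp p).idl ^ 1 := by
        rw [pow_one]
        exact hmem (hom_lin u) huP
      have h0 : T.Q' ∈ (BlowUp.exc i L : BlowUp p).idl ^ 0 := by simp
      have h2 := BlowUp.lead_mul _ h1 h0
      rw [add_zero] at h2
      rw [h2, hlead, hlead0]
      exact mul_ne_zero huw T.hQ'
  · have hmul : ∀ (A : CoordRing k) (μ : ℕ) (B : CoordRing k) (ν : ℕ),
        A ∈ (BlowUp.exc i L : BlowUp p).idl ^ μ → B ∈ (BlowUp.exc i L : BlowUp p).idl ^ ν →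
        A * B ∈ (BlowUp.exc i L : BlowUp p).idl ^ (μ + ν) := by
      intro A μ B ν hA hB
      rw [pow_add]
      exact Ideal.mul_mem_mul hA hB
    have hl1 : ∀ j, lf (T.l j) ∈ (BlowUp.exc i L : BlowUp p).idl ^ 1 := by
      intro j
      rw [pow_one]
      exact hmem (hom_lin _) (T.hl j)
    have hu1 : lf u ∈ (BlowUp.exc i L : BlowUp p).idl ^ 1 := by
      rw [pow_one]
      exact hmem (hom_lin _) huP
    have hK1 : K ∈ (BlowUp.exc i L : BlowUp p).idl ^ 1 := by
      rw [pow_one]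
      exact hmem hKhom hKP
    have hQ'0 : T.Q' ∈ (BlowUp.exc i L : BlowUp p).idl ^ 0 := by simp
    have hQhom : (arrQ k).IsHomogeneous 9 :=
      ((hom_cube 0 1).mul (hom_cube 1 2)).mul (hom_cube 2 0)
    rcases hcase with hall | ⟨j, hj, hvj⟩
    · refine hsm hdw (hdiv (μ := 3) ((hom_lin u).mul hKhom) hQhom (by norm_num) ?_ ?_ ?_)
      · exact hmul _ 1 _ 1 hu1 hK1
      · rw [hQQ]
        exact hmul _ 3 _ 0 (hmul _ 2 _ 1 (hmul _ 1 _ 1 (hl1 0) (hl1 1)) (hl1 2)) hQ'0
      · rw [hQQ]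
        have a1 := BlowUp.lead_mul _ (hl1 0) (hl1 1)
        have a2 := BlowUp.lead_mul _ (hmul _ 1 _ 1 (hl1 0) (hl1 1)) (hl1 2)
        have a3 := BlowUp.lead_mul _ (hmul _ 2 _ 1 (hmul _ 1 _ 1 (hl1 0) (hl1 1)) (hl1 2)) hQ'0
        change (BlowUp.exc i L : BlowUp p).lead 3 _ = _ at a3
        rw [a3, hlead0]
        refine mul_ne_zero ?_ T.hQ'
        change (BlowUp.exc i L : BlowUp p).lead 3 _ = _ at a2
        change (BlowUp.exc i L : BlowUp p).lead 3 _ ≠ 0
        rw [a2]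
        change (BlowUp.exc i L : BlowUp p).lead 2 _ = _ at a1
        change (BlowUp.exc i L : BlowUp p).lead 2 _ * _ ≠ 0
        rw [a1, hlead, hlead, hlead]
        exact mul_ne_zero (mul_ne_zero (hall 0) (hall 1)) (hall 2)
    · have hex : ∀ j : Fin 3, ∃ j1 j2 : Fin 3, j ≠ j1 ∧ j ≠ j2 ∧ j1 ≠ j2 := by decide
      obtain ⟨j1, j2, h01, h02, h12⟩ := hex j
      have hn : ∀ j', j ≠ j' → eval w (lf (T.l j')) ≠ 0 := by
        intro j' hjj' h0
        obtain ⟨t, ht⟩ := T.indep j j' hjj' w hj h0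
        exact hwP t ht
      obtain ⟨f, hf, hdf⟩ := H2 (T.l j) u (T.line j) (T.hl j) hj huP huw
      have hterm : dlin v u dx dy * (toFrac (lf u * K) / toFrac (arrQ k)) =
          f * (toFrac K / toFrac (lf (T.l j1) * lf (T.l j2) * T.Q')) := by
        rw [hvj, hdf, hQQ, prod3 (fun j => lf (T.l j)) h01 h02 h12]
        rw [prod3 (fun j => lf (T.l j)) h01 h02 h12] at hne
        simp only [map_mul] at hne ⊢
        obtain ⟨hl0, hl1, hl2⟩ : toFrac (lf (T.l j)) ≠ 0 ∧ toFrac (lf (T.l j1)) ≠ 0 ∧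
            toFrac (lf (T.l j2)) ≠ 0 :=
          ⟨left_ne_zero_of_mul (left_ne_zero_of_mul hne.1),
            right_ne_zero_of_mul (left_ne_zero_of_mul hne.1), right_ne_zero_of_mul hne.1⟩
        have hQ'0 := hne.2
        field_simp
      rw [hterm]
      refine hsm hf (hdiv (μ := 2) hKhom (((hom_lin (T.l j1)).mul (hom_lin (T.l j2))).mul T.homQ')
        (by norm_num) hK1 ?_ ?_)
      · exact hmul _ 2 _ 0 (hmul _ 1 _ 1 (hl1 j1) (hl1 j2)) hQ'0
      · have a1 := BlowUp.lead_mul _ (hl1 j1) (hl1 j2)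
        have a2 := BlowUp.lead_mul _ (hmul _ 1 _ 1 (hl1 j1) (hl1 j2)) hQ'0
        change (BlowUp.exc i L : BlowUp p).lead 2 _ = _ at a2
        rw [a2, hlead0]
        refine mul_ne_zero ?_ T.hQ'
        change (BlowUp.exc i L : BlowUp p).lead 2 _ = _ at a1
        change (BlowUp.exc i L : BlowUp p).lead 2 _ ≠ 0
        rw [a1, hlead, hlead]
        exact mul_ne_zero (hn j1 h01) (hn j2 h02)

end Main

end

end Pool.Agent.Lib.MP_ee7b66_ag.Hes
end

section

/-!
# Charts adapted to a line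
-/

open scoped LinearAlgebra.Projectivization
open TopologicalSpace MvPolynomial

namespace Pool.Agent.Lib.MP_ee7b66_ag.Hes

open Pool.Agent.Lib.MP_8481ed_ag

noncomputable section

variable {r : ℕ} {p : Fin r → Plane ℂ}

lemma eval_lf (c v : Fin 3 → ℂ) : eval v (lf c) = lin c v := eval_lform c v

lemma det_of (u l m : Fin 3 → ℂ) : (Matrix.of ![m, u, l]).det = det3 u l m := by
  rw [Matrix.det_fin_three, det3]
  simp only [Matrix.of_apply, Matrix.cons_val]
  ring

lemma exists_third {l m q : Fin 3 → ℂ} (hl : l ≠ 0) (hlq : lin l q = 0) (hmq : lin m q ≠ 0) :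
    ∃ u : Fin 3 → ℂ, det3 u l m ≠ 0 := by
  by_contra hcon
  push Not at hcon
  apply hl
  have h0 := hcon ![1, 0, 0]
  have h1 := hcon ![0, 1, 0]
  have h2 := hcon ![0, 0, 1]
  simp only [det3, Matrix.cons_val] at h0 h1 h2
  rw [← eval_lf, eval_lin] at hlq hmq
  have key : ∀ j, l j * (m 0 * q 0 + m 1 * q 1 + m 2 * q 2) = 0 := by
    intro j
    fin_cases j
    · change l 0 * _ = 0
      linear_combination m 0 * hlq + q 1 * h2 - q 2 * h1
    · change l 1 * _ = 0
      linear_combination m 1 * hlq - q 0 * h2 + q 2 * h0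
    · change l 2 * _ = 0
      linear_combination m 2 * hlq + q 0 * h1 - q 1 * h0
  funext j
  exact (mul_eq_zero.1 (key j)).resolve_right hmq

lemma submodule_le_lker (q : Plane ℂ) (l : Fin 3 → ℂ) : q.submodule ≤ lker l ↔ lin l q.rep = 0 := by
  rw [Projectivization.submodule_eq, Submodule.span_singleton_le_iff_mem, mem_lker]

lemma lin_add_smul (l v w : Fin 3 → ℂ) (α β : ℂ) :
    lin l (α • v + β • w) = α * lin l v + β * lin l w := by
  rw [← eval_lf, ← eval_lf, ← eval_lf, eval_lin, eval_lin, eval_lin]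
  simp only [Pi.add_apply, Pi.smul_apply, smul_eq_mul]
  ring

lemma line_eq_lker {P : Plane ℂ} (L : LineThrough P) {l : Fin 3 → ℂ} (hl : l ≠ 0)
    (hlP : lin l P.rep = 0) : L.1 = lker l ↔ lin l L.dir = 0 := by
  constructor
  · intro h
    rw [← mem_lker, ← h]
    exact L.dir_mem
  · intro h
    apply Submodule.eq_of_le_of_finrank_eq
    · intro w hw
      obtain ⟨α, β, rfl⟩ := L.exists_coord w hw
      rw [mem_lker, lin_add_smul, hlP, h, mul_zero, mul_zero, add_zero]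
    · rw [L.2.1, finrank_lker hl]

/-- A chart around a point outside the exceptional curves. -/
lemma chart_away (q : Plane ℂ) (hq : ∀ i, q ≠ p i) {u l m : Fin 3 → ℂ} (hdet : det3 u l m ≠ 0)
    (hm : lin m q.rep ≠ 0) : ∃ C : LChart p, C.u = lq u m ∧ C.v = lq l m ∧
      BlowUp.away q hq ∈ C.dom ∧
      C.crd (.away q hq) = ![lin u q.rep / lin m q.rep, lin l q.rep / lin m q.rep] ∧
      ∀ y ∈ C.dom, On p (.line (lker l)) y ↔ C.crd y 1 = 0 := by
  obtain ⟨n, h, hh, hk, hhq⟩ := exists_kills m q hq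
  let F : Frame := ⟨Matrix.of ![m, u, l], by rwa [det_of]⟩
  refine ⟨F.awayChart h hh hk, rfl, rfl, ⟨hm, hhq⟩, rfl, ?_⟩
  rintro (⟨q', hq'⟩ | ⟨i, L⟩) hy
  · change q'.submodule ≤ lker l ↔ lin l q'.rep / lin m q'.rep = 0
    have hm' : lin m q'.rep ≠ 0 := hy.1
    rw [submodule_le_lker, div_eq_zero_iff, or_iff_left hm']
  · exact hy.elim

/-- A chart around a point of an exceptional curve. -/
lemma chart_exc (hp : Function.Injective p) (k : Fin r) (L : LineThrough (p k))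
    {u l m : Fin 3 → ℂ} (hdet : det3 u l m ≠ 0) (hm : lin m (p k).rep ≠ 0)
    (hu : lin u (p k).rep = 0) (hl : lin l (p k).rep = 0) (hud : lin u L.dir ≠ 0) :
    ∃ C : LChart p, C.u = lq u m ∧ C.v = lq l u ∧ BlowUp.exc k L ∈ C.dom ∧
      C.crd (.exc k L) = ![0, lin l L.dir / lin u L.dir] ∧
      (∀ y ∈ C.dom, On p (.line (lker l)) y ↔ C.crd y 1 = 0) ∧
      (∀ y ∈ C.dom, On p (.exc k) y ↔ C.crd y 0 = 0) := by
  obtain ⟨n, h, hh, hk⟩ := exists_killsOther hp k m
  let F : FrameAt p k := { c := Matrix.of ![m, u, l], det_ne := by rwa [det_of], hU := hu, hV := hl }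
  have hl0 : l ≠ 0 := by
    rintro rfl
    apply hdet
    simp [det3]
  refine ⟨F.excChart h hh hk, rfl, rfl, ⟨rfl, L.dir, L.dir_mem, hud⟩, rfl, ?_, ?_⟩
  · rintro (⟨q', hq'⟩ | ⟨i, L'⟩) hy
    · change q'.submodule ≤ lker l ↔ lin l q'.rep / lin u q'.rep = 0
      have hu' : lin u q'.rep ≠ 0 := hy.2.1
      rw [submodule_le_lker, div_eq_zero_iff, or_iff_left hu']
    · obtain ⟨rfl, w, hw, hw'⟩ := hy
      change L'.1 = lker l ↔ lin l L'.dir / lin u L'.dir = 0
      have hu' : lin u L'.dir ≠ 0 := by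
        obtain ⟨α, β, rfl⟩ := L'.exists_coord w hw
        intro h0
        apply hw'
        change lin u _ = 0
        rw [lin_add_smul, hu, h0, mul_zero, mul_zero, add_zero]
      rw [line_eq_lker L' hl0 hl, div_eq_zero_iff, or_iff_left hu']
  · rintro (⟨q', hq'⟩ | ⟨i, L'⟩) hy
    · have hm' : lin m q'.rep ≠ 0 := hy.1
      have hu' : lin u q'.rep ≠ 0 := hy.2.1
      change False ↔ lin u q'.rep / lin m q'.rep = 0
      rw [div_eq_zero_iff]
      exact ⟨fun h => h.elim, fun h => h.elim hu' hm'⟩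
    · obtain ⟨rfl, -⟩ := hy
      change i = i ↔ (0 : ℂ) = 0
      exact ⟨fun _ => rfl, fun _ => rfl⟩

/-- The ideal of a line at a point outside the exceptional curves. -/
lemma gen_line_away (q : Plane ℂ) (hq : ∀ i, q ≠ p i) {l m : Fin 3 → ℂ} (hl : l ≠ 0)
    (hlq : lin l q.rep = 0) (hm : lin m q.rep ≠ 0) :
    Gen p (.away q hq) (InIdeal p (.line (lker l)) (.away q hq)) (lq l m) := by
  obtain ⟨u, hdet⟩ := exists_third hl hlq hm
  obtain ⟨C, -, hv, hx, hcrd, hOn⟩ := chart_away q hq hdet hm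
  rw [← hv]
  refine C.gen_v hx ?_ hOn
  rw [hcrd, hlq, zero_div]
  rfl

/-- The ideal of a line at a point of an exceptional curve. -/
lemma gen_line_exc (hp : Function.Injective p) (k : Fin r) (L : LineThrough (p k))
    {u l m : Fin 3 → ℂ} (hdet : det3 u l m ≠ 0) (hm : lin m (p k).rep ≠ 0)
    (hu : lin u (p k).rep = 0) (hl : lin l (p k).rep = 0) (hud : lin u L.dir ≠ 0)
    (hld : lin l L.dir = 0) :
    Gen p (.exc k L) (InIdeal p (.line (lker l)) (.exc k L)) (lq l u) := by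
  obtain ⟨C, -, hv, hx, hcrd, hOn, -⟩ := chart_exc hp k L hdet hm hu hl hud
  rw [← hv]
  refine C.gen_v hx ?_ hOn
  rw [hcrd, hld, zero_div]
  rfl

/-- The ideal of an exceptional curve. -/
lemma gen_exc_exc (hp : Function.Injective p) (k : Fin r) (L : LineThrough (p k))
    {u l m : Fin 3 → ℂ} (hdet : det3 u l m ≠ 0) (hm : lin m (p k).rep ≠ 0)
    (hu : lin u (p k).rep = 0) (hl : lin l (p k).rep = 0) (hud : lin u L.dir ≠ 0) :
    Gen p (.exc k L) (InIdeal p (.exc k) (.exc k L)) (lq u m) := by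
  obtain ⟨C, hu', -, hx, hcrd, -, hOn⟩ := chart_exc hp k L hdet hm hu hl hud
  rw [← hu']
  refine C.gen_u hx ?_ hOn
  rw [hcrd]
  rfl

end

end Pool.Agent.Lib.MP_ee7b66_ag.Hes
end
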