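import Mathlib
import Pool.Agent.Lib.MP_ee7b66_ag.Mg.G003
import Pool.Agent.Lib.MP_ee7b66_ag.Points
import Pool.Agent.Lib.MP_ee7b66_ag.Theta
import Pool.Agent.Lib.MP_ee7b66_ag.Clo

section

/-!
# The contraction of a logarithmic vector field
-/

open scoped LinearAlgebra.Projectivization
open TopologicalSpace MvPolynomial

namespace Pool.Agent.Lib.MP_ee7b66_ag.Hes

open Pool.Agent.Lib.MP_8481ed_ag

noncomputable section

/-! ## The nine lines -/

lemma lvec_eq (j : Fin 9) : ∃ (a b : Fin 3) (ζ : ℂ), a ≠ b ∧ ζ ^ 3 = 1 ∧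
    lvec j = Pi.single a 1 - ζ • Pi.single b 1 := by
  have h3 := om_cube
  have h6 : (om ^ 2) ^ 3 = 1 := by rw [← pow_mul, mul_comm, pow_mul, om_cube, one_pow]
  fin_cases j
  · refine ⟨0, 1, 1, by decide, one_pow 3, ?_⟩
    funext i; fin_cases i <;> simp [lvec]
  · refine ⟨0, 1, om, by decide, h3, ?_⟩
    funext i; fin_cases i <;> simp [lvec]
  · refine ⟨0, 1, om ^ 2, by decide, h6, ?_⟩
    funext i; fin_cases i <;> simp [lvec]
  · refine ⟨1, 2, 1, by decide, one_pow 3, ?_⟩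
    funext i; fin_cases i <;> simp [lvec]
  · refine ⟨1, 2, om, by decide, h3, ?_⟩
    funext i; fin_cases i <;> simp [lvec]
  · refine ⟨1, 2, om ^ 2, by decide, h6, ?_⟩
    funext i; fin_cases i <;> simp [lvec]
  · refine ⟨2, 0, 1, by decide, one_pow 3, ?_⟩
    funext i; fin_cases i <;> simp [lvec]
  · refine ⟨2, 0, om, by decide, h3, ?_⟩
    funext i; fin_cases i <;> simp [lvec]
  · refine ⟨2, 0, om ^ 2, by decide, h6, ?_⟩
    funext i; fin_cases i <;> simp [lvec]

lemma arrLine_lvec (j : Fin 9) : ArrLine (lvec j) := lvec_eq j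

lemma lin_sub_single (a b : Fin 3) (ζ : ℂ) (v : Fin 3 → ℂ) (hab : a ≠ b) :
    lin (Pi.single a 1 - ζ • Pi.single b 1 : Fin 3 → ℂ) v = v a - ζ * v b := by
  rw [← eval_lf, lin_sub_smul hab]
  simp

lemma lker_swap (a b : Fin 3) {ζ : ℂ} (hab : a ≠ b) (hζ : ζ ^ 3 = 1) :
    lker (Pi.single a 1 - ζ • Pi.single b 1 : Fin 3 → ℂ) =
      lker (Pi.single b 1 - (ζ ^ 2) • Pi.single a 1 : Fin 3 → ℂ) := by
  ext v
  rw [mem_lker, mem_lker, lin_sub_single a b ζ v hab, lin_sub_single b a _ v hab.symm]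
  constructor
  · intro h
    linear_combination (-ζ ^ 2) * h - v b * hζ
  · intro h
    linear_combination (-ζ) * h - v a * hζ

lemma exists_lvec {ζ : ℂ} (h : ζ ^ 3 = 1) :
    (∃ j, lvec j = Pi.single 0 1 - ζ • Pi.single 1 1) ∧
      (∃ j, lvec j = Pi.single 1 1 - ζ • Pi.single 2 1) ∧
      ∃ j, lvec j = Pi.single 2 1 - ζ • Pi.single 0 1 := by
  rcases cube_cases h with rfl | rfl | rfl
  · refine ⟨⟨0, ?_⟩, ⟨3, ?_⟩, ⟨6, ?_⟩⟩ <;>
    · funext i
      fin_cases i <;> simp [lvec]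
  · refine ⟨⟨1, ?_⟩, ⟨4, ?_⟩, ⟨7, ?_⟩⟩ <;>
    · funext i
      fin_cases i <;> simp [lvec]
  · refine ⟨⟨2, ?_⟩, ⟨5, ?_⟩, ⟨8, ?_⟩⟩ <;>
    · funext i
      fin_cases i <;> simp [lvec]

lemma lker_eq_hl {l : Fin 3 → ℂ} (hl : ArrLine l) :
    ∃ j : Fin 9, lker l = MP_ee7b66_ag.hl j := by
  obtain ⟨a, b, ζ, hab, hζ, rfl⟩ := hl
  have hζ2 : (ζ ^ 2) ^ 3 = 1 := by rw [← pow_mul, mul_comm, pow_mul, hζ, one_pow]
  obtain ⟨⟨j0, h0⟩, ⟨j1, h1⟩, j2, h2⟩ := exists_lvec hζ
  obtain ⟨⟨i0, g0⟩, ⟨i1, g1⟩, i2, g2⟩ := exists_lvec hζ2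
  have key : ∀ {l : Fin 3 → ℂ} (j : Fin 9), lvec j = l → ∃ j : Fin 9,
      lker l = MP_ee7b66_ag.hl j := by
    rintro l j rfl
    exact ⟨j, rfl⟩
  fin_cases a <;> fin_cases b
  · exact absurd rfl hab
  · exact key j0 h0
  · rw [lker_swap _ _ hab hζ]
    exact key i2 g2
  · rw [lker_swap _ _ hab hζ]
    exact key i0 g0
  · exact absurd rfl hab
  · exact key j1 h1
  · exact key j2 h2
  · rw [lker_swap _ _ hab hζ]
    exact key i1 g1
  · exact absurd rfl hab

/-! ## Derivatives of quotients of linear forms -/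

lemma lq_relation (u : Fin 3 → ℂ) {m : Fin 3 → ℂ} (hm : lf m ≠ 0) :
    lq u m * (algebraMap ℂ FunField (m 0) * coordA + algebraMap ℂ FunField (m 1) * coordB +
      algebraMap ℂ FunField (m 2)) = algebraMap ℂ FunField (u 0) * coordA +
      algebraMap ℂ FunField (u 1) * coordB + algebraMap ℂ FunField (u 2) := by
  apply incl_injective
  have hA : incl coordA = toFrac (X 0) / toFrac (X 2) := rfl
  have hB : incl coordB = toFrac (X 1) / toFrac (X 2) := rfl
  have hu : incl (lq u m) = toFrac (lf u) / toFrac (lf m) := rfl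
  rw [map_mul incl, map_add incl, map_add incl, map_add incl, map_add incl, map_mul incl,
    map_mul incl, map_mul incl, map_mul incl]
  simp only [incl_algebraMap]
  rw [hA, hB, hu]
  have hM := toFrac_ne_zero hm
  have h2 : toFrac (X 2 : CoordRing ℂ) ≠ 0 := toFrac_ne_zero (X_ne_zero 2)
  field_simp
  simp only [lin_apply, map_add, map_mul]
  ring

/-- The derivative of a quotient of linear forms. -/
lemma incl_der_lq (δ : VecField) (u : Fin 3 → ℂ) {m : Fin 3 → ℂ} (hm : lf m ≠ 0) :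
    incl (δ (lq u m)) = dlin u m (incl (δ coordA)) (incl (δ coordB)) := by
  have h := congrArg δ (lq_relation u hm)
  simp only [Derivation.leibniz, map_add, Derivation.map_algebraMap, smul_eq_mul, mul_zero,
    add_zero] at h
  have h' := congrArg incl h
  have hA : incl coordA = toFrac (X 0) / toFrac (X 2) := rfl
  have hB : incl coordB = toFrac (X 1) / toFrac (X 2) := rfl
  have hu : incl (lq u m) = toFrac (lf u) / toFrac (lf m) := rfl
  simp only [map_mul incl, map_add incl, incl_algebraMap] at h'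
  rw [hA, hB, hu] at h'
  have hM := toFrac_ne_zero hm
  have h2 : toFrac (X 2 : CoordRing ℂ) ≠ 0 := toFrac_ne_zero (X_ne_zero 2)
  rw [dlin]
  have hMlin : toFrac (lf m) = toFrac (C (m 0)) * toFrac (X 0) + toFrac (C (m 1)) * toFrac (X 1) +
      toFrac (C (m 2)) * toFrac (X 2) := by
    rw [lin_apply]
    simp only [map_add, map_mul]
  have e : (toFrac (C (m 0)) * (toFrac (X 0) / toFrac (X 2)) +
      toFrac (C (m 1)) * (toFrac (X 1) / toFrac (X 2)) + toFrac (C (m 2))) =
      toFrac (lf m) / toFrac (X 2) := by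
    rw [hMlin]
    field_simp
  rw [e] at h'
  generalize toFrac (lf m) = M at *
  generalize toFrac (lf u) = U at *
  generalize incl (δ (lq u m)) = D at *
  generalize incl (δ coordA) = dx at *
  generalize incl (δ coordB) = dy at *
  field_simp at h' ⊢
  linear_combination h'

end

end Pool.Agent.Lib.MP_ee7b66_ag.Hes
end

section

/-!
# The contraction maps logarithmic vector fields to sections of the canonical bundle
-/

open scoped LinearAlgebra.Projectivization
open TopologicalSpace MvPolynomial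

namespace Pool.Agent.Lib.MP_ee7b66_ag.Hes

open Pool.Agent.Lib.MP_8481ed_ag

noncomputable section

variable {r : ℕ} {p : Fin r → Plane ℂ}

lemma Reg.one (x : BlowUp p) : Reg p x 1 := by
  have h := regular_const (p := p) x 1
  rw [C_1, map_one] at h
  change IsRegularAt p 0 0 x (incl 1)
  rwa [map_one]

lemma Gen.mem {x : BlowUp p} {I : FunField → Prop} {u : FunField} (h : Gen p x I u) : I u :=
  (h u).2 ⟨1, Reg.one x, (one_mul u).symm⟩

lemma incl_lq_lf (u m : Fin 3 → ℂ) : incl (lq u m) = toFrac (lf u) / toFrac (lf m) := rfl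

/-- Consequence of tangency to a line. -/
lemma exists_factor {𝒟 : Set (Curve r)} {x : BlowUp p} {δ : VecField} (hδ : IsLogField p 𝒟 x δ)
    {l m : Fin 3 → ℂ} (hl : Curve.line (lker l) ∈ 𝒟) (hm : lf m ≠ 0)
    (hgen : Gen p x (InIdeal p (.line (lker l)) x) (lq l m)) :
    ∃ f, IsRegularAt p 0 0 x f ∧ dlin l m (incl (δ coordA)) (incl (δ coordB)) =
      toFrac (lf l) / toFrac (lf m) * f := by
  obtain ⟨f, hf, he⟩ := (hgen _).1 (hδ.2 _ hl _ (Gen.mem hgen))
  refine ⟨incl f, hf, ?_⟩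
  rw [← incl_der_lq δ l hm, he, map_mul incl, incl_lq_lf, mul_comm]

lemma line_mem_hD {l : Fin 3 → ℂ} (hl : ArrLine l) : Curve.line (lker l) ∈ hD := by
  obtain ⟨j, hj⟩ := lker_eq_hl hl
  exact Or.inl ⟨j, by rw [hj]⟩

/-- The contraction of a logarithmic vector field. -/
theorem contr_mem {x : BlowUp hp} {δ : VecField} (hδ : IsLogField hp hD x δ) :
    IsRegularAt hp (-3) (fun _ => -1) x (contr (incl (δ coordA)) (incl (δ coordB))) := by
  have h3 : (3 : ℂ) ≠ 0 := by norm_num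
  cases x with
  | away q hq =>
    refine contr_away h3 q hq ?_ _ _ ?_ ?_ _
    · intro h
      obtain ⟨i, hi⟩ := (hesse_hp q).1 h
      exact hq i hi
    · intro u m hm
      rw [← incl_der_lq δ u (lf_ne_zero hm)]
      rw [eval_lf] at hm
      exact hδ.1 _ (val_lq_away q hq u m hm).reg
    · intro l m hl hlq hm
      have hm' := hm
      rw [eval_lf] at hlq hm'
      exact exists_factor hδ (line_mem_hD hl) (lf_ne_zero hm)
        (gen_line_away q hq (arrLine_ne_zero hl) hlq hm')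
  | exc i L =>
    refine contr_exc h3 om_rel i L ((hesse_hp _).2 ⟨i, rfl⟩) _ _ ?_ ?_ ?_
    · intro u m hm
      rw [← incl_der_lq δ u (lf_ne_zero hm)]
      rw [eval_lf] at hm
      exact hδ.1 _ (val_lq_exc i L u m hm).reg
    · intro v u hu hud hv
      rw [← incl_der_lq δ v (lf_ne_zero hud)]
      rw [eval_lf] at hu hud hv
      exact hδ.1 _ (val_lq_exc' i L v u hu hv L.dir L.dir_mem hud).reg
    · intro l u hl hlP hld hu hud
      obtain ⟨c, hc⟩ := exists_linear_ne_zero (hp i).rep (hp i).rep_nonzero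
      obtain ⟨z, hz⟩ := exists_eval_ne_zero (arrLine_ne_zero hl)
      have hm : eval (hp i).rep (lf (Pi.single c (1 : ℂ))) ≠ 0 := by
        rw [lin_single]
        exact hc
      have hdet := det3_ne hu hlP hld hm hud hz
      refine exists_factor hδ (line_mem_hD hl) (lf_ne_zero hud) ?_
      rw [eval_lf] at hlP hld hu hud hm
      exact gen_line_exc hp_injective i L hdet hm hu hlP hud hld

/-- The contraction as a homomorphism. -/
def contrHom : VecField →+ Frac ℂ where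
  toFun δ := contr (incl (δ coordA)) (incl (δ coordB))
  map_zero' := by
    change contr (incl 0) (incl 0) = 0
    rw [map_zero, contr]
    ring
  map_add' δ δ' := by
    change contr (incl (δ coordA + δ' coordA)) (incl (δ coordB + δ' coordB)) = _
    rw [map_add incl, map_add incl, contr, contr, contr]
    ring

lemma contrHom_apply (δ : VecField) : contrHom δ = contr (incl (δ coordA)) (incl (δ coordB)) := rfl

lemma contrHom_theta : contrHom theta = (toFrac xyz)⁻¹ := contr_theta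

end

end Pool.Agent.Lib.MP_ee7b66_ag.Hes
end

section

/-!
# The vector field `theta` is logarithmic over `X₀ X₁ X₂ ≠ 0`
-/

open scoped LinearAlgebra.Projectivization
open TopologicalSpace MvPolynomial

namespace Pool.Agent.Lib.MP_ee7b66_ag.Hes

open Pool.Agent.Lib.MP_8481ed_ag

noncomputable section

section Basic

variable {r : ℕ} {p : Fin r → Plane ℂ}

lemma inIdeal_der {δ : VecField} {x : BlowUp p} {Cu : Curve r} {w : FunField} (hw : w ≠ 0)
    (hreg : ∀ s, Reg p x s → Reg p x (δ s)) (hgen : Gen p x (InIdeal p Cu x) w)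
    (hg : Reg p x (δ w / w)) (s : FunField) (hs : InIdeal p Cu x s) : InIdeal p Cu x (δ s) := by
  obtain ⟨f, hf, rfl⟩ := (hgen s).1 hs
  refine (hgen _).2 ⟨f * (δ w / w) + δ f, (hf.mul hg).add (hreg f hf), ?_⟩
  rw [Derivation.leibniz, smul_eq_mul, smul_eq_mul]
  field_simp

/-- The value of `X₀⁴ ∂₀ + X₁⁴ ∂₁ + X₂⁴ ∂₂` at a linear form. -/
lemma der0_lf (u : Fin 3 → ℂ) : der0 (lf u) =
    C (u 0) * X 0 ^ 4 + C (u 1) * X 1 ^ 4 + C (u 2) * X 2 ^ 4 := by
  rw [lin_apply]
  simp only [map_add, Derivation.leibniz, der0_X, der0_C, smul_eq_mul, mul_zero, add_zero]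

lemma hom_der0_lf (u : Fin 3 → ℂ) : (der0 (lf u)).IsHomogeneous 4 := der0_hom (hom_lin u)

lemma der0_arrLine {l : Fin 3 → ℂ} (hl : ArrLine l) :
    ∃ κ : CoordRing ℂ, κ.IsHomogeneous 3 ∧ der0 (lf l) = lf l * κ := by
  obtain ⟨a, b, ζ, hab, hζ, rfl⟩ := hl
  have hζ' : (C ζ : CoordRing ℂ) ^ 3 = 1 := by rw [← C_pow, hζ, C_1]
  refine ⟨(X a + C ζ * X b) * (X a ^ 2 + C (ζ ^ 2) * X b ^ 2), ?_, ?_⟩
  · exact ((hom_X a).add (hom_C_mul (hom_X b) ζ)).mul
      ((hom_X_pow a 2).add (hom_C_mul (hom_X_pow b 2) _))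
  · rw [lin_sub_smul hab, map_sub, Derivation.leibniz, der0_X, der0_X, der0_C, smul_zero, add_zero,
      smul_eq_mul, C_pow]
    linear_combination (C ζ * X b ^ 4) * hζ'

lemma incl_theta_lq (u : Fin 3 → ℂ) {m : Fin 3 → ℂ} (hm : lf m ≠ 0) : incl (theta (lq u m)) =
    toFrac (lf m * der0 (lf u) - lf u * der0 (lf m)) / toFrac (lf m ^ 2 * xyz) :=
  incl_theta_div rfl hm

lemma incl_div (s t : FunField) : incl (s / t) = incl s / incl t := map_div₀ incl s t

/-- Logarithmic derivative, first form. -/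
lemma incl_theta_log (u : Fin 3 → ℂ) {m : Fin 3 → ℂ} (hu : lf u ≠ 0) (hm : lf m ≠ 0) :
    incl (theta (lq u m) / lq u m) =
      toFrac (lf m * der0 (lf u) - lf u * der0 (lf m)) / toFrac (lf u * (lf m * xyz)) := by
  rw [incl_div, incl_theta_lq u hm, incl_lq_lf]
  have h1 := toFrac_ne_zero hu
  have h2 := toFrac_ne_zero hm
  have h3 := toFrac_ne_zero xyz_ne_zero
  rw [map_mul, map_mul, map_mul, map_pow]
  field_simp

/-- Logarithmic derivative of the equation of a line of the arrangement. -/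
lemma incl_theta_log' {l m : Fin 3 → ℂ} {κ : CoordRing ℂ} (hl : lf l ≠ 0) (hm : lf m ≠ 0)
    (hκ : der0 (lf l) = lf l * κ) :
    incl (theta (lq l m) / lq l m) =
      toFrac (lf m * κ - der0 (lf m)) / toFrac (lf m * xyz) := by
  rw [incl_theta_log l hl hm, hκ]
  have h1 := toFrac_ne_zero hl
  have h2 := toFrac_ne_zero hm
  have h3 := toFrac_ne_zero xyz_ne_zero
  have e : lf m * (lf l * κ) - lf l * der0 (lf m) = lf l * (lf m * κ - der0 (lf m)) := by ring
  rw [e, map_mul, map_mul, map_mul toFrac (lf m) xyz]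
  field_simp

lemma lf_ne_zero' {u : Fin 3 → ℂ} (hu : u ≠ 0) : lf u ≠ 0 := by
  obtain ⟨z, hz⟩ := exists_eval_ne_zero hu
  exact lf_ne_zero hz

lemma reg_of_div_away {q : Plane ℂ} {hq : ∀ i, q ≠ p i} {s : FunField} {A B : CoordRing ℂ} {n : ℕ}
    (hA : A.IsHomogeneous n) (hB : B.IsHomogeneous n) (hBq : eval q.rep B ≠ 0)
    (hs : incl s = toFrac A / toFrac B) : Reg p (.away q hq) s := by
  change IsRegularAt p 0 0 _ (incl s)
  rw [isRegularAt_away_iff]
  exact ⟨n, n, A, B, hA, hB, by ring, hBq, hs⟩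

lemma reg_of_div_exc {k : Fin r} {L : LineThrough (p k)} {s : FunField} {A B : CoordRing ℂ}
    {n : ℕ} (μ : ℕ) (hA : A.IsHomogeneous n) (hB : B.IsHomogeneous n)
    (hAI : A ∈ (BlowUp.exc k L : BlowUp p).idl ^ μ) (hBI : B ∈ (BlowUp.exc k L : BlowUp p).idl ^ μ)
    (hBl : (BlowUp.exc k L : BlowUp p).lead μ B ≠ 0)
    (hs : incl s = toFrac A / toFrac B) : Reg p (.exc k L) s := by
  change IsRegularAt p 0 0 _ (incl s)
  rw [isRegularAt_iff]
  refine ⟨n, n, μ, A, B, hA, hB, by ring, ?_, hBI, hBl, hs⟩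
  have : ((μ : ℤ) + (BlowUp.exc k L : BlowUp p).mlt 0).toNat = μ := by
    change ((μ : ℤ) + 0).toNat = μ
    omega
  rw [this]
  exact hAI

end Basic

lemma finrank_line {𝒞 : Curve 12} (h : 𝒞 ∈ hD) (Λ : Submodule ℂ (Fin 3 → ℂ)) (hΛ : 𝒞 = .line Λ) :
    Module.finrank ℂ Λ = 2 := by
  rcases h with ⟨j, hj⟩ | ⟨i, -, hi⟩
  · rw [hΛ, Curve.line.injEq] at hj
    rw [hj]
    exact finrank_lker (arrLine_ne_zero (arrLine_lvec j))
  · rw [hΛ] at hi
    cases hi

/-- `theta` is logarithmic at points outside the exceptional curves. -/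
lemma theta_log_away (q : Plane ℂ) (hq : ∀ i, q ≠ hp i) (hx : eval q.rep xyz ≠ 0) :
    IsLogField hp hD (.away q hq) theta := by
  have hreg1 : ∀ u m : Fin 3 → ℂ, lin m q.rep ≠ 0 → Reg hp (.away q hq) (theta (lq u m)) := by
    intro u m hm
    rw [← eval_lf] at hm
    refine reg_of_div_away (n := 5) ?_ ?_ ?_ (incl_theta_lq u (lf_ne_zero hm))
    · exact ((hom_lin m).mul (hom_der0_lf u)).sub ((hom_lin u).mul (hom_der0_lf m))
    · exact ((hom_lin m).pow 2).mul hom_xyz
    · rw [map_mul, map_pow]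
      exact mul_ne_zero (pow_ne_zero _ hm) hx
  have h2 : lin (Pi.single 2 (1 : ℂ)) q.rep ≠ 0 := by
    rw [← eval_lf, lin_single, eval_X]
    intro h
    apply hx
    simp [xyz, h]
  obtain ⟨C, hCu, hCv, hxC, -, -⟩ := chart_away (p := hp) q hq
    (det3_single (k := ℂ) (a := 0) (b := 1) (c := 2) (by decide) (by decide) (by decide)) h2
  have hreg : ∀ s, Reg hp (.away q hq) s → Reg hp (.away q hq) (theta s) := by
    intro s hs
    refine C.reg_der hxC theta ?_ ?_ hs
    · rw [hCu]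
      exact hreg1 _ _ h2
    · rw [hCv]
      exact hreg1 _ _ h2
  refine ⟨hreg, ?_⟩
  intro 𝒞 h𝒞 s hs
  by_cases hon : On hp 𝒞 (.away q hq)
  · rcases h𝒞 with ⟨j, rfl⟩ | ⟨i, -, rfl⟩
    · have hlq : lin (lvec j) q.rep = 0 := (submodule_le_lker q (lvec j)).1 hon
      have hl := arrLine_lvec j
      have hl0 := arrLine_ne_zero hl
      obtain ⟨κ, hκh, hκ⟩ := der0_arrLine hl
      have h2' := h2
      rw [← eval_lf] at h2'
      have hm0 : (Pi.single 2 1 : Fin 3 → ℂ) ≠ 0 := by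
        intro h
        have := congrFun h 2
        simp at this
      refine inIdeal_der (lq_ne_zero hl0 hm0) hreg (gen_line_away q hq hl0 hlq h2) ?_ s hs
      · refine reg_of_div_away (n := 4) ?_ ?_ ?_
          (incl_theta_log' (lf_ne_zero' hl0) (lf_ne_zero h2') hκ)
        · exact ((hom_lin _).mul hκh).sub (hom_der0_lf _)
        · exact (hom_lin _).mul hom_xyz
        · rw [map_mul]
          exact mul_ne_zero h2' hx
    · exact hon.elim
  · rw [inIdeal_iff_of_not_on hp_injective (finrank_line h𝒞) hon] at hs ⊢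
    exact hreg s hs

/-- `theta` is logarithmic at points of the exceptional curves. -/
lemma theta_log_exc (k : Fin 12) (L : LineThrough (hp k)) (hx : eval (hp k).rep xyz ≠ 0) :
    IsLogField hp hD (.exc k L) theta := by
  set P := (hp k).rep with hP
  have hH : HesseZero P := (hesse_hp _).2 ⟨k, rfl⟩
  have hwP : ∀ t : ℂ, L.dir ≠ t • P := by
    intro t ht
    apply L.dir_not_mem
    rw [Projectivization.submodule_eq, ht]
    exact Submodule.smul_mem _ _ (Submodule.mem_span_singleton_self _)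
  -- the derivation vanishes at the point
  have hvan : ∀ u : Fin 3 → ℂ, eval P (lf u) = 0 → eval P (der0 (lf u)) = 0 := by
    intro u hu
    have h0 : P 0 ≠ 0 ∧ P 1 ≠ 0 ∧ P 2 ≠ 0 := by
      simp only [xyz, map_mul, eval_X] at hx
      exact ⟨left_ne_zero_of_mul (left_ne_zero_of_mul hx),
        right_ne_zero_of_mul (left_ne_zero_of_mul hx), right_ne_zero_of_mul hx⟩
    have e1 := (mul_eq_zero.1 hH.1).resolve_left h0.1
    have e2 := (mul_eq_zero.1 hH.2.1).resolve_left h0.2.1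
    rw [eval_lin] at hu
    rw [der0_lf]
    simp only [map_add, map_mul, map_pow, eval_X, eval_C]
    linear_combination P 0 ^ 3 * hu + (u 1 * P 1) * (e1 + e2) + (u 2 * P 2) * e2
  have hmem : ∀ {A : CoordRing ℂ} {n : ℕ}, A.IsHomogeneous n → eval P A = 0 →
      A ∈ (BlowUp.exc k L : BlowUp hp).idl ^ 1 := fun hA h0 => by
    rw [pow_one]
    exact mem_pointIdeal_of_homog hA _ h0
  have hmem0 : ∀ A : CoordRing ℂ, A ∈ (BlowUp.exc k L : BlowUp hp).idl ^ 0 := fun A => by simp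
  have hmul : ∀ (A : CoordRing ℂ) (μ : ℕ) (B : CoordRing ℂ) (ν : ℕ),
      A ∈ (BlowUp.exc k L : BlowUp hp).idl ^ μ → B ∈ (BlowUp.exc k L : BlowUp hp).idl ^ ν →
      A * B ∈ (BlowUp.exc k L : BlowUp hp).idl ^ (μ + ν) := by
    intro A μ B ν hA hB
    rw [pow_add]
    exact Ideal.mul_mem_mul hA hB
  have hlead : ∀ u : Fin 3 → ℂ, (BlowUp.exc k L : BlowUp hp).lead 1 (lf u) = eval L.dir (lf u) := by
    intro u
    rw [BlowUp.lead]
    change (alongLine P L.dir (lf u)).coeff 1 = _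
    rw [alongLine_lf]
    simp
  have hlead0 : ∀ A : CoordRing ℂ, (BlowUp.exc k L : BlowUp hp).lead 0 A = eval P A :=
    fun A => BlowUp.lead_zero _ A
  -- regularity of the basic quotients
  have hregA : ∀ u m : Fin 3 → ℂ, eval P (lf m) ≠ 0 → Reg hp (.exc k L) (theta (lq u m)) := by
    intro u m hm
    refine reg_of_div_exc (n := 5) 0 ?_ ?_ (hmem0 _) (hmem0 _) ?_ (incl_theta_lq u (lf_ne_zero hm))
    · exact ((hom_lin m).mul (hom_der0_lf u)).sub ((hom_lin u).mul (hom_der0_lf m))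
    · exact ((hom_lin m).pow 2).mul hom_xyz
    · rw [hlead0, map_mul, map_pow]
      exact mul_ne_zero (pow_ne_zero _ hm) hx
  have hregB : ∀ v u : Fin 3 → ℂ, eval P (lf u) = 0 → eval P (lf v) = 0 →
      eval L.dir (lf u) ≠ 0 → Reg hp (.exc k L) (theta (lq v u)) := by
    intro v u hu hv hud
    have hu1 := hmem (hom_lin u) hu
    have hv1 := hmem (hom_lin v) hv
    refine reg_of_div_exc (n := 5) 2 ?_ ?_ ?_ ?_ ?_ (incl_theta_lq v (lf_ne_zero hud))
    · exact ((hom_lin u).mul (hom_der0_lf v)).sub ((hom_lin v).mul (hom_der0_lf u))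
    · exact ((hom_lin u).pow 2).mul hom_xyz
    · exact Ideal.sub_mem _ (hmul _ 1 _ 1 hu1 (hmem (hom_der0_lf v) (hvan v hv)))
        (hmul _ 1 _ 1 hv1 (hmem (hom_der0_lf u) (hvan u hu)))
    · rw [pow_two (lf u)]
      exact hmul _ 2 _ 0 (hmul _ 1 _ 1 hu1 hu1) (hmem0 _)
    · rw [pow_two (lf u)]
      have a1 := BlowUp.lead_mul _ hu1 hu1
      have a2 := BlowUp.lead_mul _ (hmul _ 1 _ 1 hu1 hu1) (hmem0 xyz)
      change (BlowUp.exc k L : BlowUp hp).lead 2 _ = _ at a2
      change (BlowUp.exc k L : BlowUp hp).lead 2 _ = _ at a1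
      rw [a2, hlead0]
      refine mul_ne_zero ?_ hx
      change (BlowUp.exc k L : BlowUp hp).lead 2 _ ≠ 0
      rw [a1, hlead]
      exact mul_ne_zero hud hud
  obtain ⟨u, v, m, hu, hud, hv, hvd, hv0, hm⟩ := exists_frame (hp k).rep_nonzero hwP
  have hu1 := hmem (hom_lin u) hu
  have hdet : ∀ l : Fin 3 → ℂ, l ≠ 0 → eval P (lf l) = 0 → eval L.dir (lf l) = 0 →
      det3 u l m ≠ 0 := by
    intro l hl hlP hld
    obtain ⟨z, hz⟩ := exists_eval_ne_zero hl
    exact det3_ne hu hlP hld hm hud hz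
  have hu' := hu
  have hud' := hud
  have hv' := hv
  have hm' := hm
  rw [eval_lf] at hu' hud' hv' hm'
  obtain ⟨C, hCu, hCv, hxC, -, -, -⟩ := chart_exc (p := hp) hp_injective k L (hdet v hv0 hv hvd)
    hm' hu' hv' hud'
  have hreg : ∀ s, Reg hp (.exc k L) s → Reg hp (.exc k L) (theta s) := by
    intro s hs
    refine C.reg_der hxC theta ?_ ?_ hs
    · rw [hCu]
      exact hregA _ _ hm
    · rw [hCv]
      exact hregB _ _ hu hv hud
  have hu0 : u ≠ 0 := by
    rintro rfl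
    apply hud
    rw [eval_lin]
    simp
  have hm0 : m ≠ 0 := by
    rintro rfl
    apply hm
    rw [eval_lin]
    simp
  refine ⟨hreg, ?_⟩
  intro 𝒞 h𝒞 s hs
  by_cases hon : On hp 𝒞 (.exc k L)
  · rcases h𝒞 with ⟨j, rfl⟩ | ⟨i, -, rfl⟩
    · have hLj : L.1 = lker (lvec j) := hon
      have hlP' : lin (lvec j) (hp k).rep = 0 := by
        rw [← mem_lker, ← hLj]
        exact L.rep_mem
      have hld' : lin (lvec j) L.dir = 0 := by
        rw [← mem_lker, ← hLj]
        exact L.dir_mem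
      have hlP := hlP'
      have hld := hld'
      rw [← eval_lf] at hlP hld
      have hl := arrLine_lvec j
      have hl0 := arrLine_ne_zero hl
      obtain ⟨κ, hκh, hκ⟩ := der0_arrLine hl
      refine inIdeal_der (lq_ne_zero hl0 hu0) hreg
        (gen_line_exc hp_injective k L (hdet _ hl0 hlP hld) hm' hu' hlP' hud' hld') ?_ s hs
      refine reg_of_div_exc (n := 4) 1 ?_ ?_ ?_ ?_ ?_
        (incl_theta_log' (lf_ne_zero' hl0) (lf_ne_zero hud) hκ)
      · exact ((hom_lin _).mul hκh).sub (hom_der0_lf _)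
      · exact (hom_lin _).mul hom_xyz
      · exact Ideal.sub_mem _ (hmul _ 1 _ 0 hu1 (hmem0 κ)) (hmem (hom_der0_lf u) (hvan u hu))
      · exact hmul _ 1 _ 0 hu1 (hmem0 _)
      · have a1 := BlowUp.lead_mul _ hu1 (hmem0 xyz)
        change (BlowUp.exc k L : BlowUp hp).lead 1 _ = _ at a1
        rw [a1, hlead0, hlead]
        exact mul_ne_zero hud hx
    · have hki : k = i := hon
      subst hki
      refine inIdeal_der (lq_ne_zero hu0 hm0) hreg
        (gen_exc_exc hp_injective k L (hdet v hv0 hv hvd) hm' hu' hv' hud') ?_ s hs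
      refine reg_of_div_exc (n := 5) 1 ?_ ?_ ?_ ?_ ?_
        (incl_theta_log u (lf_ne_zero hud) (lf_ne_zero hm))
      · exact ((hom_lin m).mul (hom_der0_lf u)).sub ((hom_lin u).mul (hom_der0_lf m))
      · exact (hom_lin u).mul ((hom_lin m).mul hom_xyz)
      · refine Ideal.sub_mem _ ?_ (hmul _ 1 _ 0 hu1 (hmem0 _))
        rw [mul_comm]
        exact hmul _ 1 _ 0 (hmem (hom_der0_lf u) (hvan u hu)) (hmem0 _)
      · exact hmul _ 1 _ 0 hu1 (hmem0 _)
      · have a1 := BlowUp.lead_mul _ hu1 (hmem0 (lf m * xyz))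
        change (BlowUp.exc k L : BlowUp hp).lead 1 _ = _ at a1
        rw [a1, hlead0, hlead, map_mul]
        exact mul_ne_zero hud (mul_ne_zero hm hx)
  · rw [inIdeal_iff_of_not_on hp_injective (finrank_line h𝒞) hon] at hs ⊢
    exact hreg s hs

/-- `theta` is logarithmic over `X₀ X₁ X₂ ≠ 0`. -/
theorem theta_log (x : BlowUp hp) (hx : eval x.vec xyz ≠ 0) : IsLogField hp hD x theta := by
  cases x with
  | away q hq => exact theta_log_away q hq hx
  | exc k L => exact theta_log_exc k L hx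

end

end Pool.Agent.Lib.MP_ee7b66_ag.Hes
end
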