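import Mathlib
import Pool.Agent.Lib.MP_8481ed_ag.ConstSheaf
import Pool.Agent.Lib.MP_ee7b66_ag.Top.Affine

section

/-!
# Non-vanishing of the second cohomology, part 1: sections over intersections
-/

open CategoryTheory TopologicalSpace Opposite Abelian

universe u

namespace Pool.Agent.Lib.MP_ee7b66_ag.Hes

open Pool.Agent.Lib.MP_8481ed_ag

noncomputable section

variable {X : TopCat.{u}}

/-- The local predicate satisfied by all dependent functions. -/
def allPred (T : X → Type u) [∀ x, AddCommGroup (T x)] : AddLocalPredicate X T where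
  pred _ := True
  res _ _ _ := trivial
  locality _ _ := trivial
  zero_mem _ := trivial
  add_mem _ _ := trivial
  neg_mem _ := trivial

variable {T : X → Type u} [∀ x, AddCommGroup (T x)]

variable (T) in
lemma flasque_all : TopCat.Sheaf.IsFlasque (X := X) (allPred T).sheaf := by
  classical
  constructor
  intro U V i
  refine (AddCommGrpCat.epi_iff_surjective _).2 fun s => ?_
  refine ⟨⟨fun x => if h : x.1 ∈ V.unop then s.1 ⟨x.1, h⟩ else 0, trivial⟩, ?_⟩
  apply Subtype.ext
  funext y
  exact dif_pos y.2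

/-- The inclusion of a sheaf of functions in the sheaf of all functions. -/
def predIncl (P : AddLocalPredicate X T) : P.sheaf ⟶ (allPred T).sheaf :=
  ⟨{ app := fun U => AddCommGrpCat.ofHom
      { toFun := fun f => ⟨f.1, trivial⟩
        map_zero' := rfl
        map_add' := fun _ _ => rfl }
     naturality := by intros; rfl }⟩

instance (P : AddLocalPredicate X T) : Mono (predIncl P) := by
  constructor
  intro G a b hab
  apply Sheaf.hom_ext
  ext U s
  have h := congrArg (fun φ : G ⟶ _ => φ.hom.app U s) hab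
  apply Subtype.ext
  exact congrArg (fun t => t.1) h

/-- If the first cohomology of a sheaf of functions vanishes, then every section over an
intersection `A ∩ B` with `A ∪ B = X` is a difference of sections over `A` and `B`. -/
theorem exists_sub_of_subsingleton_H1 (P : AddLocalPredicate X T)
    (h : Subsingleton (Sheaf.H P.sheaf 1)) (A B : Opens X) (hAB : A ⊔ B = ⊤)
    (q : ∀ x : (A ⊓ B : Opens X), T x) (hq : P.pred q) :
    ∃ (α : ∀ x : A, T x) (β : ∀ x : B, T x), P.pred α ∧ P.pred β ∧
      ∀ x : (A ⊓ B : Opens X), q x = α ⟨x.1, x.2.1⟩ - β ⟨x.1, x.2.2⟩ := by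
  classical
  let S : ShortComplex (AbSh X) :=
    ShortComplex.mk (predIncl P) (Limits.cokernel.π (predIncl P)) (Limits.cokernel.condition _)
  have : Mono S.f := inferInstanceAs (Mono (predIncl P))
  have hS : S.ShortExact :=
    { exact := ShortComplex.exact_of_g_is_cokernel _ (Limits.cokernelIsCokernel S.f) }
  have hsurj := (subsingleton_H1_iff hS (subsingleton_H1_of_flasque _ (flasque_all T))).1 h
  have hz : ∀ (U : Opens X) (s : S.X₁.obj.obj (op U)),
      S.g.hom.app (op U) (S.f.hom.app (op U) s) = 0 := by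
    intro U s
    have h0 : (S.f.hom.app (op U) ≫ S.g.hom.app (op U)) = 0 := by
      rw [← NatTrans.comp_app, ← ObjectProperty.FullSubcategory.comp_hom, S.zero]
      rfl
    rw [← ConcreteCategory.comp_apply, h0]
    rfl
  -- extend `q` by zero
  let g : S.X₂.obj.obj (op A) :=
    (⟨fun x => if hx : x.1 ∈ B then q ⟨x.1, x.2, hx⟩ else 0, trivial⟩ : (allPred T).sec A)
  let qs : S.X₁.obj.obj (op (A ⊓ B)) := (⟨q, hq⟩ : P.sec (A ⊓ B))
  have hg : S.X₂.obj.map (homOfLE (inf_le_left : A ⊓ B ≤ A)).op g = S.f.hom.app (op (A ⊓ B)) qs := by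
    apply Subtype.ext
    funext y
    exact dif_pos y.2.2
  let f : Bool → Opens X := fun b => if b then A else B
  let sf : (i : Bool) → S.X₃.obj.obj (op (f i))
    | true => S.g.hom.app (op A) g
    | false => 0
  have hgW : ∀ (W : Opens X) (hA : W ≤ A) (hW : W ≤ A ⊓ B),
      S.X₃.obj.map (homOfLE hA).op (S.g.hom.app (op A) g) = 0 := by
    intro W hA hW
    have e1 : S.X₃.obj.map (homOfLE hA).op (S.g.hom.app (op A) g) =
        S.g.hom.app (op W) (S.X₂.obj.map (homOfLE hA).op g) :=
      (NatTrans.naturality_apply S.g.hom (homOfLE hA).op g).symm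
    have e2 : S.X₂.obj.map (homOfLE hA).op g = S.X₂.obj.map (homOfLE hW).op
        (S.X₂.obj.map (homOfLE (inf_le_left : A ⊓ B ≤ A)).op g) := by
      rw [← ConcreteCategory.comp_apply, ← Functor.map_comp]
      rfl
    rw [e1, e2, hg]
    have e3 : S.X₂.obj.map (homOfLE hW).op (S.f.hom.app (op (A ⊓ B)) qs) =
        S.f.hom.app (op W) (S.X₁.obj.map (homOfLE hW).op qs) :=
      (NatTrans.naturality_apply S.f.hom (homOfLE hW).op qs).symm
    rw [e3, hz]
  have hcompat : TopCat.Presheaf.IsCompatible S.X₃.obj f sf := by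
    intro i j
    cases i <;> cases j
    · rfl
    · exact (map_zero (S.X₃.obj.map (Opens.infLELeft B A).op).hom).trans
        (hgW (B ⊓ A) inf_le_right (by rw [inf_comm])).symm
    · exact (hgW (A ⊓ B) inf_le_left le_rfl).trans
        (map_zero (S.X₃.obj.map (Opens.infLERight A B).op).hom).symm
    · rfl
  obtain ⟨γ, hγ, -⟩ := TopCat.Sheaf.existsUnique_gluing (X := X) S.X₃ f sf hcompat
  have htop : iSup f = ⊤ := by
    rw [iSup_bool_eq]
    exact hAB
  have hγA : S.X₃.obj.map (Opens.leSupr f true).op γ = S.g.hom.app (op A) g := hγ true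
  have hγB : S.X₃.obj.map (Opens.leSupr f false).op γ = 0 := hγ false
  obtain ⟨Γ, hΓ⟩ := hsurj (S.X₃.obj.map (homOfLE htop.ge).op γ)
  -- restrict to `A` and to `B`
  have key : ∀ (W : Opens X) (hW : W ≤ iSup f) (s : S.X₂.obj.obj (op W))
      (hs : S.X₃.obj.map (homOfLE hW).op γ = S.g.hom.app (op W) s),
      P.pred (U := W) (fun x => (s.1 x - Γ.1 ⟨x.1, trivial⟩ : T x)) := by
    intro W hW s hs
    let d : S.X₂.obj.obj (op W) := s - S.X₂.obj.map (homOfLE (le_top : W ≤ ⊤)).op Γ
    have hd : S.g.hom.app (op W) d = 0 := by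
      have e1 : S.g.hom.app (op W) (S.X₂.obj.map (homOfLE (le_top : W ≤ ⊤)).op Γ) =
          S.X₃.obj.map (homOfLE (le_top : W ≤ ⊤)).op (S.g.hom.app (op ⊤) Γ) :=
        NatTrans.naturality_apply S.g.hom (homOfLE (le_top : W ≤ ⊤)).op Γ
      have e2 : S.X₃.obj.map (homOfLE (le_top : W ≤ ⊤)).op
          (S.X₃.obj.map (homOfLE htop.ge).op γ) = S.X₃.obj.map (homOfLE hW).op γ := by
        rw [← ConcreteCategory.comp_apply, ← Functor.map_comp]
        rfl
      change (S.g.hom.app (op W)).hom (s - _) = 0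
      rw [map_sub]
      change S.g.hom.app (op W) s - S.g.hom.app (op W) _ = 0
      rw [e1, hΓ, e2, hs, sub_self]
    obtain ⟨q', hq'⟩ := TopCat.Sheaf.sections_exact_of_left_exact hS.1 hS.2 d hd
    have e3 := congrArg (fun t => t.1) hq'
    have e4 : (q'.1 : ∀ x : W, T x) = fun x : W => (s.1 x - Γ.1 ⟨x.1, trivial⟩ : T x) := e3
    rw [← e4]
    exact q'.2
  refine ⟨fun x => g.1 x - Γ.1 ⟨x.1, trivial⟩, fun x => 0 - Γ.1 ⟨x.1, trivial⟩, ?_, ?_, ?_⟩
  · exact key A (le_iSup f true) g hγA
  · refine key B (le_iSup f false) 0 ?_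
    exact hγB.trans (map_zero (S.g.hom.app (op B)).hom).symm
  · intro x
    have e1 : g.1 ⟨x.1, x.2.1⟩ = q x := dif_pos x.2.2
    simp only [e1]
    abel

end

end Pool.Agent.Lib.MP_ee7b66_ag.Hes
end

section

/-!
# Barycentric subdivision of singular chains

`Sd` is the barycentric subdivision, `Ho` the homotopy from `Sd` to the identity; both are natural
and preserve the chains in a subset. `sdk k` and `hok k` are the iterated versions.
-/

set_option autoImplicit false

open Set

namespace Pool.Agent.Lib.MP_ee7b66_ag.Top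

section

variable {T T' : Type*} [TopologicalSpace T] [TopologicalSpace T']

/-- the operator on singular chains given by a universal chain of tuples -/
noncomputable def opC {n k : ℕ} (θ : Tup (Sx n) k) : Chain T n →ₗ[ℚ] Chain T k :=
  Finsupp.linearCombination ℚ fun σ => mapC σ (real (hSx n) θ)

theorem opC_single {n k : ℕ} (θ : Tup (Sx n) k) (σ : C(Sx n, T)) (c : ℚ) :
    opC θ (Finsupp.single σ c) = c • mapC σ (real (hSx n) θ) :=
  Finsupp.linearCombination_single _ _ _

theorem opC_mapC {n k : ℕ} (θ : Tup (Sx n) k) (f : C(T, T')) (z : Chain T n) :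
    opC θ (mapC f z) = mapC f (opC θ z) := by
  have : (opC θ).comp (mapC f) = (mapC f).comp (opC θ) := by
    apply hom_ext
    intro σ
    simp only [LinearMap.comp_apply, mapC_single, opC_single, one_smul, mapC_comp]
  exact LinearMap.congr_fun this z

theorem opC_mem {A : Set T} {n k : ℕ} (θ : Tup (Sx n) k) {z : Chain T n} (hz : z ∈ Ch A n) :
    opC θ z ∈ Ch A k := by
  refine map_mem_of_single (opC θ) (Ch A k) ?_ hz
  intro σ hσ
  rw [opC_single, one_smul]
  exact mapC_mem σ (A := Set.univ) (fun x _ => hσ x) (by simp)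

theorem opC_bdS {n k : ℕ} (X : ∀ m, Tup (Sx m) n →ₗ[ℚ] Tup (Sx m) k)
    (hX : ∀ m i z, mapT (face m i) (X m z) = X (m + 1) (mapT (face m i) z))
    (σ : C(Sx (n + 1), T)) :
    mapC σ (real (hSx (n + 1)) (X (n + 1) (bdTS (vert (n + 1))))) =
      opC (X n (Finsupp.single (vert n) 1)) (bdS σ) := by
  rw [bdTS, map_sum, map_sum, map_sum, bdS, map_sum]
  refine Finset.sum_congr rfl fun i _ => ?_
  rw [map_smul, map_smul, map_smul, map_smul, opC_single, one_smul]
  congr 1
  have h1 : (Finsupp.single (vert (n + 1) ∘ Fin.succAbove i) 1 : Tup (Sx (n + 1)) n) =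
      mapT (face n i) (Finsupp.single (vert n) 1) := by
    rw [mapT_single, face_vert]
  rw [h1, ← hX, real_mapT (hSx n) (hSx (n + 1)) (face n i) (isAff_face n i), mapC_comp]

/-- barycentric subdivision -/
noncomputable def Sd (n : ℕ) : Chain T n →ₗ[ℚ] Chain T n :=
  opC (sdT (bary (hSx n)) n (Finsupp.single (vert n) 1))

/-- the homotopy from the barycentric subdivision to the identity -/
noncomputable def Ho (n : ℕ) : Chain T n →ₗ[ℚ] Chain T (n + 1) :=
  opC (hoT (sdT (bary (hSx n))) (fun _ => LinearMap.id) (bary (hSx n)) n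
    (Finsupp.single (vert n) 1))

theorem bd_Sd (n : ℕ) (z : Chain T (n + 1)) : bd (Sd (n + 1) z) = Sd n (bd z) := by
  have : (bd (T := T)).comp (Sd (n + 1)) = (Sd n).comp bd := by
    apply hom_ext
    intro σ
    simp only [LinearMap.comp_apply, bd_single, one_smul]
    rw [Sd, opC_single, one_smul, ← mapC_bd, ← real_bdT, bdT_sdT, bdT_single, one_smul]
    exact opC_bdS (fun m => sdT (bary (hSx m)) n)
      (fun m i z => sdT_natural _ _ _ (fun n v => isAff_bary _ _ (isAff_face m i) n v) n z) σ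
  exact LinearMap.congr_fun this z

theorem Ho_nat (n m : ℕ) (i : Fin (m + 2)) (z : Tup (Sx m) n) :
    mapT (face m i) (hoT (sdT (bary (hSx m))) (fun _ => LinearMap.id) (bary (hSx m)) n z) =
      hoT (sdT (bary (hSx (m + 1)))) (fun _ => LinearMap.id) (bary (hSx (m + 1))) n
        (mapT (face m i) z) := by
  refine hoT_natural _ _ _ _ _ _ _ _ ?_ ?_ ?_ n z
  · intro n z
    exact sdT_natural _ _ _ (fun n v => isAff_bary _ _ (isAff_face m i) n v) n z
  · intro n z
    rfl
  · intro n v
    exact isAff_bary _ _ (isAff_face m i) n v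

theorem real_vert (n : ℕ) (σ : C(Sx n, T)) :
    mapC σ (real (hSx n) (Finsupp.single (vert n) 1)) = Finsupp.single σ 1 := by
  rw [real_single, aff_vert, mapC_single, ContinuousMap.comp_id]

theorem bd_Ho (n : ℕ) (z : Chain T (n + 1)) :
    bd (Ho (n + 1) z) + Ho n (bd z) = z - Sd (n + 1) z := by
  have : (bd (T := T)).comp (Ho (n + 1)) + (Ho n).comp bd = LinearMap.id - Sd (n + 1) := by
    apply hom_ext
    intro σ
    simp only [LinearMap.comp_apply, bd_single, one_smul, LinearMap.add_apply,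
      LinearMap.sub_apply, LinearMap.id_apply]
    have h1 := opC_bdS (k := n + 1) (fun m => hoT (sdT (bary (hSx m))) (fun _ => LinearMap.id)
      (bary (hSx m)) n) (fun m i z => Ho_nat n m i z) σ
    have h2 := bdT_hoT (sdT (bary (hSx (n + 1)))) (fun _ => LinearMap.id) (bary (hSx (n + 1)))
      (fun z => by rw [sdT_zero]; rfl) (fun n z => bdT_sdT _ n z) (fun n z => rfl) n
      (Finsupp.single (vert (n + 1)) 1)
    rw [bdT_single, one_smul, LinearMap.id_apply] at h2
    rw [Ho, opC_single, one_smul, ← mapC_bd, ← real_bdT]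
    have h3 : Ho n (bdS σ) = mapC σ (real (hSx (n + 1)) (hoT (sdT (bary (hSx (n + 1))))
      (fun _ => LinearMap.id) (bary (hSx (n + 1))) n (bdTS (vert (n + 1))))) := h1.symm
    rw [h3, ← map_add, ← map_add, h2, map_sub, map_sub, real_vert, Sd, opC_single, one_smul]
  exact LinearMap.congr_fun this z

theorem bd_Ho_zero (z : Chain T 0) : bd (Ho 0 z) = z - Sd 0 z := by
  have : (bd (T := T)).comp (Ho 0) = LinearMap.id - Sd 0 := by
    apply hom_ext
    intro σ
    simp only [LinearMap.comp_apply, LinearMap.sub_apply, LinearMap.id_apply]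
    have h2 := bdT_hoT_zero (sdT (bary (hSx 0))) (fun _ => LinearMap.id) (bary (hSx 0))
      (fun z => by rw [sdT_zero]; rfl) (Finsupp.single (vert 0) 1)
    rw [LinearMap.id_apply] at h2
    rw [Ho, opC_single, one_smul, ← mapC_bd, ← real_bdT, h2, map_sub, map_sub, real_vert, Sd,
      opC_single, one_smul]
  exact LinearMap.congr_fun this z

theorem Sd_mem {A : Set T} {n : ℕ} {z : Chain T n} (hz : z ∈ Ch A n) : Sd n z ∈ Ch A n :=
  opC_mem _ hz

theorem Ho_mem {A : Set T} {n : ℕ} {z : Chain T n} (hz : z ∈ Ch A n) : Ho n z ∈ Ch A (n + 1) :=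
  opC_mem _ hz

theorem Sd_mapC (f : C(T, T')) {n : ℕ} (z : Chain T n) : Sd n (mapC f z) = mapC f (Sd n z) :=
  opC_mapC _ _ _

theorem Ho_mapC (f : C(T, T')) {n : ℕ} (z : Chain T n) : Ho n (mapC f z) = mapC f (Ho n z) :=
  opC_mapC _ _ _

/-- the subdivision of affine simplices -/
theorem Sd_real {m n : ℕ} (z : Tup (Sx m) n) :
    Sd n (real (hSx m) z) = real (hSx m) (sdT (bary (hSx m)) n z) := by
  have : (Sd n).comp (real (hSx m)) = (real (hSx m)).comp (sdT (bary (hSx m)) n) := by
    apply tup_ext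
    intro v
    simp only [LinearMap.comp_apply, real_single]
    rw [Sd, opC_single, one_smul, ← real_mapT (hSx n) (hSx m) (aff (hSx m) v)
      (isAff_aff (hSx m) v), sdT_natural _ (bary (hSx m)) _
        (fun n w => isAff_bary _ _ (isAff_aff (hSx m) v) n w), mapT_single, aff_vert_apply]
  exact LinearMap.congr_fun this z

/-- iterated subdivision -/
noncomputable def sdk (n k : ℕ) : Chain T n →ₗ[ℚ] Chain T n := (Sd n) ^ k

/-- the homotopy for the iterated subdivision -/
noncomputable def hok (n : ℕ) : ℕ → (Chain T n →ₗ[ℚ] Chain T (n + 1))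
  | 0 => 0
  | k + 1 => hok n k + (Ho n).comp (sdk n k)

@[simp] theorem sdk_zero (n : ℕ) (z : Chain T n) : sdk n 0 z = z := rfl

theorem sdk_succ (n k : ℕ) (z : Chain T n) : sdk n (k + 1) z = Sd n (sdk n k z) := by
  rw [sdk, pow_succ']; rfl

theorem hok_succ (n k : ℕ) (z : Chain T n) :
    hok n (k + 1) z = hok n k z + Ho n (sdk n k z) := rfl

theorem bd_sdk (n k : ℕ) (z : Chain T (n + 1)) : bd (sdk (n + 1) k z) = sdk n k (bd z) := by
  induction k with
  | zero => rfl
  | succ k ih => rw [sdk_succ, bd_Sd, ih, sdk_succ]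

theorem bd_hok (n k : ℕ) (z : Chain T (n + 1)) :
    bd (hok (n + 1) k z) + hok n k (bd z) = z - sdk (n + 1) k z := by
  induction k with
  | zero => simp [hok]
  | succ k ih =>
    have h1 := bd_Ho n (sdk (n + 1) k z)
    rw [hok_succ, hok_succ, map_add, sdk_succ, ← bd_sdk]
    rw [show bd (hok (n + 1) k z) + bd (Ho (n + 1) (sdk (n + 1) k z)) +
      (hok n k (bd z) + Ho n (bd (sdk (n + 1) k z))) =
      (bd (hok (n + 1) k z) + hok n k (bd z)) + (bd (Ho (n + 1) (sdk (n + 1) k z)) +
        Ho n (bd (sdk (n + 1) k z))) by abel, ih, h1]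
    abel

theorem bd_hok_zero (k : ℕ) (z : Chain T 0) : bd (hok 0 k z) = z - sdk 0 k z := by
  induction k with
  | zero => simp [hok]
  | succ k ih => rw [hok_succ, map_add, ih, bd_Ho_zero, sdk_succ]; abel

theorem sdk_mem {A : Set T} {n : ℕ} (k : ℕ) {z : Chain T n} (hz : z ∈ Ch A n) :
    sdk n k z ∈ Ch A n := by
  induction k with
  | zero => exact hz
  | succ k ih => rw [sdk_succ]; exact Sd_mem ih

theorem hok_mem {A : Set T} {n : ℕ} (k : ℕ) {z : Chain T n} (hz : z ∈ Ch A n) :
    hok n k z ∈ Ch A (n + 1) := by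
  induction k with
  | zero => exact Submodule.zero_mem _
  | succ k ih => rw [hok_succ]; exact Submodule.add_mem _ ih (Ho_mem (sdk_mem k hz))

theorem sdk_mapC (f : C(T, T')) {n : ℕ} (k : ℕ) (z : Chain T n) :
    sdk n k (mapC f z) = mapC f (sdk n k z) := by
  induction k with
  | zero => rfl
  | succ k ih => rw [sdk_succ, ih, Sd_mapC, sdk_succ]

theorem hok_mapC (f : C(T, T')) {n : ℕ} (k : ℕ) (z : Chain T n) :
    hok n k (mapC f z) = mapC f (hok n k z) := by
  induction k with
  | zero => simp [hok]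
  | succ k ih => rw [hok_succ, ih, sdk_mapC, Ho_mapC, hok_succ, map_add]

theorem sdk_real {m n : ℕ} (k : ℕ) (z : Tup (Sx m) n) :
    sdk n k (real (hSx m) z) = real (hSx m) (((sdT (bary (hSx m)) n) ^ k) z) := by
  induction k with
  | zero => rfl
  | succ k ih => rw [sdk_succ, ih, Sd_real, pow_succ']; rfl

end

end Pool.Agent.Lib.MP_ee7b66_ag.Top
end

section

/-!
# Small simplices
-/

set_option autoImplicit false

open Set

namespace Pool.Agent.Lib.MP_ee7b66_ag.Top

section

variable {E : Type*} [NormedAddCommGroup E] [NormedSpace ℝ E] {S : Set E} (hS : Convex ℝ S)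

/-- all distances between the entries of a tuple are at most `d` -/
def SmallT (d : ℝ) {n : ℕ} (v : Fin (n + 1) → S) : Prop :=
  ∀ i j, dist (v i : E) (v j) ≤ d

omit [NormedSpace ℝ E] in
theorem SmallT.nonneg {d : ℝ} {n : ℕ} {v : Fin (n + 1) → S} (h : SmallT d v) : 0 ≤ d :=
  le_trans dist_nonneg (h 0 0)

theorem dist_bary {d : ℝ} {n : ℕ} {v : Fin (n + 1) → S} (h : SmallT d v) (k : Fin (n + 1)) :
    dist (v k : E) (bary hS n v) ≤ (n : ℝ) / (n + 1) * d := by
  have h0 : ((n : ℝ) + 1) ≠ 0 := by positivity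
  have h1 : (v k : E) - bary hS n v = ∑ i, ((n : ℝ) + 1)⁻¹ • ((v k : E) - v i) := by
    rw [← Finset.smul_sum, Finset.sum_sub_distrib, smul_sub, Finset.sum_const, Finset.card_univ,
      Fintype.card_fin, bary, aff_coe, ← Nat.cast_smul_eq_nsmul ℝ, smul_smul]
    simp only [stdSimplex.barycenter_apply, Fintype.card_fin]
    rw [← Finset.smul_sum]
    push_cast
    rw [inv_mul_cancel₀ h0, one_smul]
  rw [dist_eq_norm, h1]
  calc ‖∑ i, ((n : ℝ) + 1)⁻¹ • ((v k : E) - v i)‖
      ≤ ∑ i, ‖((n : ℝ) + 1)⁻¹ • ((v k : E) - v i)‖ := norm_sum_le _ _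
    _ ≤ ∑ i, (if i = k then 0 else ((n : ℝ) + 1)⁻¹ * d) := by
        refine Finset.sum_le_sum fun i _ => ?_
        split_ifs with hi
        · simp [hi]
        · rw [norm_smul, Real.norm_of_nonneg (by positivity)]
          refine mul_le_mul_of_nonneg_left ?_ (by positivity)
          rw [← dist_eq_norm]
          exact h k i
    _ = (n : ℝ) / (n + 1) * d := by
        rw [Finset.sum_ite, Finset.sum_const_zero, zero_add, Finset.sum_const]
        have : (Finset.univ.filter fun i : Fin (n + 1) => ¬ i = k).card = n := by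
          rw [Finset.filter_not, Finset.filter_eq', if_pos (Finset.mem_univ k),
            Finset.card_sdiff_of_subset (by simp)]
          simp
        rw [this, nsmul_eq_mul]
        field_simp

/-- the subdivision of a tuple consists of smaller tuples in the convex hull -/
theorem sdS_supported (n : ℕ) : ∀ (d : ℝ) (v : Fin (n + 1) → S), SmallT d v →
    sdS (bary hS) n v ∈ Finsupp.supported ℚ ℚ {w : Fin (n + 1) → S |
      SmallT ((n : ℝ) / (n + 1) * d) w ∧
        ∀ i, (w i : E) ∈ convexHull ℝ (range fun i => (v i : E))} := by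
  classical
  induction n with
  | zero =>
    intro d v h
    refine Finsupp.single_mem_supported ℚ _ ⟨?_, ?_⟩
    · intro i j
      have : i = j := Fin.ext (by omega)
      rw [this, dist_self]
      simp
    · intro i
      exact subset_convexHull ℝ _ ⟨i, rfl⟩
  | succ n ih =>
    intro d v h
    have hd : 0 ≤ d := h.nonneg
    have hn : (n : ℝ) / (n + 1) ≤ ((n + 1 : ℕ) : ℝ) / ((n + 1 : ℕ) + 1) := by
      rw [div_le_div_iff₀ (by positivity) (by positivity)]
      push_cast
      nlinarith
    -- the subdivided faces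
    have h1 : sdT (bary hS) n (bdTS v) ∈ Finsupp.supported ℚ ℚ {w : Fin (n + 1) → S |
        SmallT ((n : ℝ) / (n + 1) * d) w ∧
          ∀ i, (w i : E) ∈ convexHull ℝ (range fun i => (v i : E))} := by
      rw [bdTS, map_sum]
      refine Submodule.sum_mem _ fun i _ => ?_
      rw [map_smul, sdT_single, one_smul]
      refine Submodule.smul_mem _ _ ?_
      have h2 := ih d (v ∘ Fin.succAbove i) (fun a b => h _ _)
      refine Finsupp.supported_mono ?_ h2
      rintro w ⟨hw1, hw2⟩
      refine ⟨hw1, fun j => convexHull_mono ?_ (hw2 j)⟩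
      rintro _ ⟨a, rfl⟩
      exact ⟨_, rfl⟩
    rw [sdS_succ, coneT, Finsupp.lmapDomain_apply]
    -- the hull is in the ball around the barycenter
    have hball : convexHull ℝ (range fun i => (v i : E)) ⊆
        Metric.closedBall (bary hS (n + 1) v : E) (((n + 1 : ℕ) : ℝ) / ((n + 1 : ℕ) + 1) * d) := by
      refine convexHull_min ?_ (convex_closedBall _ _)
      rintro _ ⟨a, rfl⟩
      exact dist_bary hS h a
    have hb : (bary hS (n + 1) v : E) ∈ convexHull ℝ (range fun i => (v i : E)) := by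
      rw [bary, aff_coe]
      refine (convex_convexHull ℝ _).sum_mem (fun i _ => stdSimplex.barycenter.2.1 i)
        stdSimplex.barycenter.2.2 (fun i _ => subset_convexHull ℝ _ ⟨i, rfl⟩)
    rw [Finsupp.mem_supported] at h1 ⊢
    refine (Finset.coe_subset.mpr Finsupp.mapDomain_support).trans ?_
    rw [Finset.coe_image]
    rintro _ ⟨w, hw, rfl⟩
    obtain ⟨hw1, hw2⟩ := h1 hw
    refine ⟨?_, ?_⟩
    · have hle : (n : ℝ) / (n + 1) * d ≤ ((n + 1 : ℕ) : ℝ) / ((n + 1 : ℕ) + 1) * d :=
        mul_le_mul_of_nonneg_right hn hd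
      intro i j
      refine Fin.cases ?_ (fun i => ?_) i <;> refine Fin.cases ?_ (fun j => ?_) j
      · simp only [Fin.cons_zero, dist_self]
        positivity
      · simp only [Fin.cons_zero, Fin.cons_succ]
        rw [dist_comm]
        exact hball (hw2 j)
      · simp only [Fin.cons_zero, Fin.cons_succ]
        exact hball (hw2 i)
      · simp only [Fin.cons_succ]
        exact (hw1 i j).trans hle
    · intro i
      refine Fin.cases ?_ (fun i => ?_) i
      · simpa using hb
      · simpa using hw2 i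

/-- the chains of tuples of diameter at most `d` -/
noncomputable def smallSub (S : Set E) (n : ℕ) (d : ℝ) : Submodule ℚ (Tup S n) :=
  Finsupp.supported ℚ ℚ {w : Fin (n + 1) → S | SmallT d w}

theorem sdT_small (n : ℕ) (d : ℝ) {z : Tup S n} (hz : z ∈ smallSub S n d) :
    sdT (bary hS) n z ∈ smallSub S n ((n : ℝ) / (n + 1) * d) := by
  have : smallSub S n d ≤ (smallSub S n ((n : ℝ) / (n + 1) * d)).comap (sdT (bary hS) n) := by
    rw [smallSub, Finsupp.supported_eq_span_single, Submodule.span_le]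
    rintro _ ⟨w, hw, rfl⟩
    rw [SetLike.mem_coe, Submodule.mem_comap, sdT_single, one_smul]
    exact Finsupp.supported_mono (fun w hw => hw.1) (sdS_supported hS n d w hw)
  exact this hz

theorem sdT_pow_small (n : ℕ) (k : ℕ) (d : ℝ) {z : Tup S n} (hz : z ∈ smallSub S n d) :
    ((sdT (bary hS) n) ^ k) z ∈ smallSub S n (((n : ℝ) / (n + 1)) ^ k * d) := by
  induction k with
  | zero => simpa using hz
  | succ k ih =>
    rw [pow_succ', pow_succ' _ k, mul_assoc]
    exact sdT_small hS n _ ih

/-- the affine simplex on a small tuple is in a small ball around a vertex -/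
theorem aff_dist {n : ℕ} {d : ℝ} {w : Fin (n + 1) → S} (hw : SmallT d w) (t : Sx n) :
    dist (aff hS w t : E) (w 0) ≤ d := by
  have h : (aff hS w t : E) ∈ Metric.closedBall (w 0 : E) d := by
    rw [aff_coe]
    exact (convex_closedBall _ _).sum_mem (fun i _ => t.2.1 i) t.2.2 (fun i _ => hw i 0)
  exact h

end

section

variable {T : Type*} [TopologicalSpace T]

theorem vert_small (n : ℕ) : SmallT 1 (vert n) := by
  intro i j
  refine (dist_pi_le_iff zero_le_one).2 fun k => ?_
  have hx := mem_Icc_of_mem_stdSimplex (vert n i).2 k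
  have hy := mem_Icc_of_mem_stdSimplex (vert n j).2 k
  rw [Real.dist_eq, abs_le]
  constructor <;> linarith [hx.1, hx.2, hy.1, hy.2]

/-- a simplex of `A ∪ B` is eventually subdivided into simplices of `A` and of `B` -/
theorem exists_sdk_single {A B : Set T} (hA : IsOpen A) (hB : IsOpen B) {n : ℕ}
    (σ : C(Sx n, T)) (hσ : ∀ x, σ x ∈ A ∪ B) :
    ∃ k, sdk n k (Finsupp.single σ 1) ∈ Ch A n ⊔ Ch B n := by
  -- Lebesgue number
  obtain ⟨δ, hδ, h⟩ := lebesgue_number_lemma_of_metric (s := (Set.univ : Set (Sx n)))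
    (c := fun b : Bool => bif b then σ ⁻¹' A else σ ⁻¹' B) isCompact_univ
    (by
      intro b
      cases b
      · exact hB.preimage σ.continuous
      · exact hA.preimage σ.continuous)
    (by
      intro x _
      rcases hσ x with hx | hx
      · exact mem_iUnion.2 ⟨true, hx⟩
      · exact mem_iUnion.2 ⟨false, hx⟩)
  -- the number of subdivisions
  obtain ⟨k, hk⟩ : ∃ k : ℕ, ((n : ℝ) / (n + 1)) ^ k < δ :=
    exists_pow_lt_of_lt_one hδ (by rw [div_lt_one (by positivity)]; linarith)
  refine ⟨k, ?_⟩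
  have h1 : (Finsupp.single σ 1 : Chain T n) =
      mapC σ (real (hSx n) (Finsupp.single (vert n) 1)) := (real_vert n σ).symm
  rw [h1, sdk_mapC, sdk_real]
  have h2 := sdT_pow_small (hSx n) n k 1
    (Finsupp.single_mem_supported ℚ 1 (vert_small n) : _ ∈ smallSub _ n 1)
  have h3 : smallSub (stdSimplex ℝ (Fin (n + 1))) n (((n : ℝ) / (n + 1)) ^ k * 1) ≤
      (Ch A n ⊔ Ch B n).comap ((mapC σ).comp (real (hSx n))) := by
    rw [smallSub, Finsupp.supported_eq_span_single, Submodule.span_le]
    rintro _ ⟨w, hw, rfl⟩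
    rw [SetLike.mem_coe, Submodule.mem_comap, LinearMap.comp_apply, real_single, mapC_single]
    obtain ⟨b, hb⟩ := h (w 0) trivial
    have h4 : ∀ x, aff (hSx n) w x ∈ (bif b then σ ⁻¹' A else σ ⁻¹' B) := by
      intro x
      apply hb
      rw [Metric.mem_ball, Subtype.dist_eq]
      refine lt_of_le_of_lt (aff_dist (hSx n) hw x) ?_
      rwa [mul_one]
    cases b
    · exact Submodule.mem_sup_right (single_mem (σ := σ.comp (aff (hSx n) w)) (fun x => h4 x) 1)
    · exact Submodule.mem_sup_left (single_mem (σ := σ.comp (aff (hSx n) w)) (fun x => h4 x) 1)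
  exact h3 h2

/-- a chain of `A ∪ B` is eventually subdivided into a chain of `A` and a chain of `B` -/
theorem exists_sdk {A B : Set T} (hA : IsOpen A) (hB : IsOpen B) {n : ℕ} {z : Chain T n}
    (hz : z ∈ Ch (A ∪ B) n) : ∃ k, sdk n k z ∈ Ch A n ⊔ Ch B n := by
  have hup : ∀ (k l : ℕ) (z : Chain T n), k ≤ l → sdk n k z ∈ Ch A n ⊔ Ch B n →
      sdk n l z ∈ Ch A n ⊔ Ch B n := by
    intro k l z hkl h
    induction l, hkl using Nat.le_induction with
    | base => exact h
    | succ l _ ih =>
      rw [sdk_succ]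
      obtain ⟨a, ha, b, hb, hab⟩ := Submodule.mem_sup.1 ih
      rw [← hab, map_add]
      exact Submodule.add_mem_sup (Sd_mem ha) (Sd_mem hb)
  rw [Ch_eq_span] at hz
  induction hz using Submodule.span_induction with
  | mem x hx =>
    obtain ⟨σ, hσ, rfl⟩ := hx
    exact exists_sdk_single hA hB σ hσ
  | zero => exact ⟨0, by rw [map_zero]; exact Submodule.zero_mem _⟩
  | add x y _ _ hx hy =>
    obtain ⟨k, hk⟩ := hx
    obtain ⟨l, hl⟩ := hy
    refine ⟨max k l, ?_⟩
    rw [map_add]
    exact Submodule.add_mem _ (hup _ _ _ (le_max_left _ _) hk) (hup _ _ _ (le_max_right _ _) hl)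
  | smul c x _ hx =>
    obtain ⟨k, hk⟩ := hx
    exact ⟨k, by rw [map_smul]; exact Submodule.smul_mem _ _ hk⟩

/-- **Small simplices.** A chain of `A ∪ B` whose boundary is the sum of a chain of `A` and a chain
of `B` is homologous to the sum of a chain of `A` and a chain of `B`. -/
theorem small_of_add {A B : Set T} (hA : IsOpen A) (hB : IsOpen B) {n : ℕ}
    {z : Chain T (n + 1)} (hz : z ∈ Ch (A ∪ B) (n + 1)) {p q : Chain T n} (hp : p ∈ Ch A n)
    (hq : q ∈ Ch B n) (h : bd z = p + q) :
    ∃ a ∈ Ch A (n + 1), ∃ b ∈ Ch B (n + 1), ∃ w ∈ Ch (A ∪ B) (n + 2), z = a + b + bd w := by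
  obtain ⟨k, hk⟩ := exists_sdk hA hB hz
  obtain ⟨a, ha, b, hb, hab⟩ := Submodule.mem_sup.1 hk
  refine ⟨a + hok n k p, Submodule.add_mem _ ha (hok_mem k hp), b + hok n k q,
    Submodule.add_mem _ hb (hok_mem k hq), hok (n + 1) k z, hok_mem k hz, ?_⟩
  have h1 := bd_hok n k z
  rw [h, map_add, ← hab] at h1
  have h2 : z = (bd (hok (n + 1) k z) + (hok n k p + hok n k q)) + (a + b) := by
    rw [h1]; abel
  nth_rewrite 1 [h2]
  abel

/-- **Small simplices.** A chain of `A ∪ B` (`A`, `B` open) is homologous to the sum of a chain of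
`A` and a chain of `B`, relatively to its boundary if this is already such a sum. -/
theorem small {A B : Set T} (hA : IsOpen A) (hB : IsOpen B) {n : ℕ} {z : Chain T (n + 1)}
    (hz : z ∈ Ch (A ∪ B) (n + 1)) (hbd : bd z ∈ Ch A n ⊔ Ch B n) :
    ∃ a ∈ Ch A (n + 1), ∃ b ∈ Ch B (n + 1), ∃ w ∈ Ch (A ∪ B) (n + 2), z = a + b + bd w := by
  obtain ⟨p, hp, q, hq, hpq⟩ := Submodule.mem_sup.1 hbd
  exact small_of_add hA hB hz hp hq hpq.symm

/-- a `0`-chain of `A ∪ B` is the sum of a chain of `A` and a chain of `B` -/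
theorem small_zero {A B : Set T} {z : Chain T 0} (hz : z ∈ Ch (A ∪ B) 0) :
    ∃ a ∈ Ch A 0, ∃ b ∈ Ch B 0, z = a + b := by
  rw [Ch_eq_span] at hz
  have h : Submodule.span ℚ ((fun σ => (Finsupp.single σ 1 : Chain T 0)) ''
      {σ | ∀ x, σ x ∈ A ∪ B}) ≤ Ch A 0 ⊔ Ch B 0 := by
    rw [Submodule.span_le]
    rintro _ ⟨σ, hσ, rfl⟩
    have hx : ∀ x y : Sx 0, x = y := fun x y => Subsingleton.elim x y
    rcases hσ default with h | h
    · exact Submodule.mem_sup_left (single_mem (fun x => by rw [hx x default]; exact h) 1)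
    · exact Submodule.mem_sup_right (single_mem (fun x => by rw [hx x default]; exact h) 1)
  obtain ⟨a, ha, b, hb, hab⟩ := Submodule.mem_sup.1 (h hz)
  exact ⟨a, ha, b, hb, hab.symm⟩

end

end Pool.Agent.Lib.MP_ee7b66_ag.Top
end
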