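import Mathlib
import Pool.Agent.Lib.MP_ee7b66_ag.Top.Cone
import Pool.Agent.Lib.MP_ee7b66_ag.Mg.G002

section

/-!
# Mayer-Vietoris arguments on the level of chains
-/

set_option autoImplicit false

open Set Topology

namespace Pool.Agent.Lib.MP_ee7b66_ag.Top

variable {T : Type*} [TopologicalSpace T]

/-! ### Chains in disjoint open sets -/

theorem Ch_empty (n : ℕ) : Ch (∅ : Set T) n = ⊥ := by
  rw [eq_bot_iff]
  intro z hz
  rw [mem_Ch] at hz
  rw [Submodule.mem_bot, ← Finsupp.support_eq_empty, Finset.eq_empty_iff_forall_notMem]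
  intro σ hσ
  exact hz σ hσ (Classical.arbitrary _)

theorem eq_zero_of_disjoint {A B : Set T} (h : Disjoint A B) {n : ℕ} {z : Chain T n}
    (h1 : z ∈ Ch A n) (h2 : z ∈ Ch B n) : z = 0 := by
  have := mem_Ch_inter h1 h2
  rwa [Set.disjoint_iff_inter_eq_empty.1 h, Ch_empty, Submodule.mem_bot] at this

/-- a simplex in a disjoint union of open sets lies in one of them -/
theorem simplex_mem_of_disjoint {ι : Type*} {U : ι → Set T} (hU : ∀ i, IsOpen (U i))
    (hd : ∀ i j, i ≠ j → Disjoint (U i) (U j)) {n : ℕ} (σ : C(Sx n, T))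
    (hσ : ∀ x, σ x ∈ ⋃ i, U i) : ∃ i, ∀ x, σ x ∈ U i := by
  obtain ⟨i, hi⟩ := mem_iUnion.1 (hσ (Classical.arbitrary _))
  refine ⟨i, ?_⟩
  have hpc : PreconnectedSpace (Sx n) := by
    have : PathConnectedSpace (Sx n) := by infer_instance
    infer_instance
  have hcl : IsClopen (σ ⁻¹' (U i)) := by
    refine ⟨?_, (hU i).preimage σ.continuous⟩
    rw [← isOpen_compl_iff]
    have : (σ ⁻¹' (U i))ᶜ = ⋃ j : {j // j ≠ i}, σ ⁻¹' (U j) := by
      ext x
      simp only [mem_compl_iff, mem_preimage, mem_iUnion]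
      constructor
      · intro hx
        obtain ⟨j, hj⟩ := mem_iUnion.1 (hσ x)
        exact ⟨⟨j, fun h => hx (h ▸ hj)⟩, hj⟩
      · rintro ⟨⟨j, hji⟩, hj⟩ hx
        exact (Set.disjoint_left.1 (hd i j (Ne.symm hji))) hx hj
    rw [this]
    exact isOpen_iUnion fun j => (hU _).preimage σ.continuous
  have := hcl.eq_univ ⟨_, hi⟩
  intro x
  exact (this.symm ▸ mem_univ x : x ∈ σ ⁻¹' (U i))

/-- a chain in a finite disjoint union of open sets is a sum of chains in these sets -/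
theorem exists_sum_of_disjoint {ι : Type*} [Fintype ι] {U : ι → Set T}
    (hU : ∀ i, IsOpen (U i)) (hd : ∀ i j, i ≠ j → Disjoint (U i) (U j)) {n : ℕ}
    {z : Chain T n} (hz : z ∈ Ch (⋃ i, U i) n) :
    ∃ y : ι → Chain T n, (∀ i, y i ∈ Ch (U i) n) ∧ z = ∑ i, y i := by
  classical
  have key : z ∈ ⨆ i, Ch (U i) n := by
    refine map_mem_of_single (T := T) LinearMap.id (⨆ i, Ch (U i) n) ?_ hz
    intro σ hσ
    obtain ⟨i, hi⟩ := simplex_mem_of_disjoint hU hd σ hσ
    exact Submodule.mem_iSup_of_mem i (single_mem hi 1)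
  rw [Submodule.mem_iSup_iff_exists_finsupp] at key
  obtain ⟨f, hf, hfz⟩ := key
  refine ⟨f, hf, ?_⟩
  rw [← hfz, Finsupp.sum_fintype _ _ (fun _ => rfl)]

/-- if a sum of chains in disjoint sets is zero, all of them are zero -/
theorem eq_zero_of_sum_eq_zero {ι : Type*} [Fintype ι] {U : ι → Set T}
    (hd : ∀ i j, i ≠ j → Disjoint (U i) (U j)) {n : ℕ} (y : ι → Chain T n)
    (hy : ∀ i, y i ∈ Ch (U i) n) (h : ∑ i, y i = 0) (i : ι) : y i = 0 := by
  classical
  have h1 : y i = - ∑ j ∈ Finset.univ.erase i, y j := by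
    rw [← Finset.add_sum_erase _ _ (Finset.mem_univ i)] at h
    exact eq_neg_of_add_eq_zero_left h
  have h2 : y i ∈ Ch (⋃ j ∈ Finset.univ.erase i, U j) n := by
    rw [h1]
    refine Submodule.neg_mem _ (Submodule.sum_mem _ fun j hj => ?_)
    exact Ch_mono (Set.subset_biUnion_of_mem (u := U) hj) n (hy j)
  refine eq_zero_of_disjoint ?_ (hy i) h2
  rw [Set.disjoint_iUnion₂_right]
  intro j hj
  exact hd i j (Ne.symm (Finset.ne_of_mem_erase hj))

/-- a cycle in a finite disjoint union of open sets is a sum of cycles in these sets -/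
theorem exists_sum_cycle_of_disjoint {ι : Type*} [Fintype ι] {U : ι → Set T}
    (hU : ∀ i, IsOpen (U i)) (hd : ∀ i j, i ≠ j → Disjoint (U i) (U j)) {n : ℕ}
    {z : Chain T (n + 1)} (hz : z ∈ Ch (⋃ i, U i) (n + 1)) (hbd : bd z = 0) :
    ∃ y : ι → Chain T (n + 1), (∀ i, y i ∈ Ch (U i) (n + 1)) ∧ (∀ i, bd (y i) = 0) ∧
      z = ∑ i, y i := by
  obtain ⟨y, hy, rfl⟩ := exists_sum_of_disjoint hU hd hz
  refine ⟨y, hy, ?_, rfl⟩
  rw [map_sum] at hbd
  exact eq_zero_of_sum_eq_zero hd (fun i => bd (y i)) (fun i => bd_mem (hy i)) hbd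

theorem acyc_iUnion_of_disjoint {ι : Type*} [Fintype ι] {U : ι → Set T}
    (hU : ∀ i, IsOpen (U i)) (hd : ∀ i j, i ≠ j → Disjoint (U i) (U j)) {n : ℕ}
    (h : ∀ i, Acyc (U i) n) : Acyc (⋃ i, U i) n := by
  intro z hz hbd
  obtain ⟨y, hy, hby, rfl⟩ := exists_sum_cycle_of_disjoint hU hd hz hbd
  choose w hw hwy using fun i => h i (y i) (hy i) (hby i)
  refine ⟨∑ i, w i, Submodule.sum_mem _ fun i _ => Ch_mono (subset_iUnion U i) _ (hw i), ?_⟩
  rw [map_sum]
  exact Finset.sum_congr rfl fun i _ => hwy i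

theorem exists_add_of_disjoint {A B : Set T} (hA : IsOpen A) (hB : IsOpen B)
    (hd : Disjoint A B) {n : ℕ} {z : Chain T n} (hz : z ∈ Ch (A ∪ B) n) :
    ∃ a ∈ Ch A n, ∃ b ∈ Ch B n, z = a + b := by
  have h1 : A ∪ B = ⋃ i : Bool, cond i A B := by rw [Set.union_eq_iUnion]
  rw [h1] at hz
  obtain ⟨y, hy, rfl⟩ := exists_sum_of_disjoint (U := fun i : Bool => cond i A B)
    (by rintro (_ | _) <;> assumption)
    (by rintro (_ | _) (_ | _) h <;> simp_all [disjoint_comm]) hz
  exact ⟨y true, hy true, y false, hy false, by simp⟩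

theorem acyc_union_of_disjoint {A B : Set T} (hA : IsOpen A) (hB : IsOpen B)
    (hd : Disjoint A B) {n : ℕ} (h1 : Acyc A n) (h2 : Acyc B n) : Acyc (A ∪ B) n := by
  rw [Set.union_eq_iUnion]
  refine acyc_iUnion_of_disjoint (U := fun i : Bool => cond i A B)
    (by rintro (_ | _) <;> assumption)
    (by rintro (_ | _) (_ | _) h <;> simp_all [disjoint_comm]) ?_
  rintro (_ | _) <;> assumption

/-! ### Mayer-Vietoris -/

/-- a cycle is homologous to a sum of a chain of `A` and a chain of `B` -/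
theorem mv_cycle {A B : Set T} (hA : IsOpen A) (hB : IsOpen B) {n : ℕ} {z : Chain T (n + 1)}
    (hz : z ∈ Ch (A ∪ B) (n + 1)) (hbd : bd z = 0) :
    ∃ a ∈ Ch A (n + 1), ∃ b ∈ Ch B (n + 1), ∃ w ∈ Ch (A ∪ B) (n + 2),
      z = a + b + bd w ∧ bd a + bd b = 0 ∧ bd a ∈ Ch (A ∩ B) n := by
  obtain ⟨a, ha, b, hb, w, hw, rfl⟩ := small hA hB hz (by rw [hbd]; exact Submodule.zero_mem _)
  rw [map_add, map_add, bd_bd, add_zero] at hbd
  refine ⟨a, ha, b, hb, w, hw, rfl, hbd, mem_Ch_inter (bd_mem ha) ?_⟩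
  rw [eq_neg_of_add_eq_zero_left hbd]
  exact Submodule.neg_mem _ (bd_mem hb)

/-- if `z = a + b` is a cycle and `bd a` bounds in `A ∩ B`, then `z` bounds -/
theorem mv_bound {A B : Set T} {n : ℕ} (h1 : Acyc A n) (h2 : Acyc B n)
    {a b : Chain T (n + 1)} (ha : a ∈ Ch A (n + 1)) (hb : b ∈ Ch B (n + 1))
    (hab : bd a + bd b = 0) (h : ∃ e ∈ Ch (A ∩ B) (n + 1), bd e = bd a) :
    ∃ w ∈ Ch (A ∪ B) (n + 2), bd w = a + b := by
  obtain ⟨e, he, hea⟩ := h
  obtain ⟨u, hu, hua⟩ := h1 (a - e)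
    (Submodule.sub_mem _ ha (Ch_mono inter_subset_left _ he)) (by rw [map_sub, hea, sub_self])
  obtain ⟨v, hv, hvb⟩ := h2 (b + e)
    (Submodule.add_mem _ hb (Ch_mono inter_subset_right _ he)) (by rw [map_add, hea, add_comm, hab])
  refine ⟨u + v, Submodule.add_mem _ (Ch_mono subset_union_left _ hu)
    (Ch_mono subset_union_right _ hv), ?_⟩
  rw [map_add, hua, hvb]
  abel

theorem acyc_union {A B : Set T} (hA : IsOpen A) (hB : IsOpen B) {n : ℕ}
    (h1 : Acyc A (n + 1)) (h2 : Acyc B (n + 1)) (h3 : Acyc (A ∩ B) n) : Acyc (A ∪ B) (n + 1) := by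
  intro z hz hbd
  obtain ⟨a, ha, b, hb, w, hw, rfl, hab, hm⟩ := mv_cycle hA hB hz hbd
  obtain ⟨v, hv, hva⟩ := mv_bound h1 h2 ha hb hab (h3 _ hm (bd_bd a))
  exact ⟨v + w, Submodule.add_mem _ hv hw, by rw [map_add, hva]⟩

theorem acyc_union_zero {A B : Set T} (hA : IsOpen A) (hB : IsOpen B)
    (h1 : Acyc A 0) (h2 : Acyc B 0) (h3 : Conn (A ∩ B)) : Acyc (A ∪ B) 0 := by
  intro z hz hbd
  obtain ⟨a, ha, b, hb, w, hw, rfl, hab, hm⟩ := mv_cycle hA hB hz hbd
  obtain ⟨v, hv, hva⟩ := mv_bound h1 h2 ha hb hab (h3 _ hm (deg_bd a))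
  exact ⟨v + w, Submodule.add_mem _ hv hw, by rw [map_add, hva]⟩

end Pool.Agent.Lib.MP_ee7b66_ag.Top
end

section

/-!
# Winding numbers of singular chains

`theta g : Chain T 1 → ℂ` is the change of `log g / (2 π i)` along a `1`-chain, for a function
`g : T → ℂ` which is continuous and without zeros on the chain.
-/

set_option autoImplicit false

open Set Topology

namespace Pool.Agent.Lib.MP_ee7b66_ag.Top

instance (n : ℕ) : ContractibleSpace (Sx n) :=
  Convex.contractibleSpace (convex_stdSimplex ℝ (Fin (n + 1)))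
    ⟨_, (Classical.arbitrary (Sx n)).2⟩

instance (n : ℕ) : LocallyPathConnectedSpace (Sx n) :=
  Convex.locallyPathConnectedSpace _ (convex_stdSimplex ℝ (Fin (n + 1)))

instance (n : ℕ) : PreconnectedSpace (Sx n) := by
  have : PathConnectedSpace (Sx n) := by infer_instance
  infer_instance

/-- the vertices of the simplex -/
noncomputable abbrev vtx (n : ℕ) (i : Fin (n + 1)) : Sx n := stdSimplex.vertex i

theorem face_vtx (n : ℕ) (i : Fin (n + 2)) (j : Fin (n + 1)) :
    face n i (vtx n j) = vtx (n + 1) (i.succAbove j) := stdSimplex.map_vertex _ _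

/-- two logarithms of the same function differ by a constant -/
theorem log_sub_const {n : ℕ} {L L' : C(Sx n, ℂ)} (h : ∀ x, Complex.exp (L x) = Complex.exp (L' x))
    (x y : Sx n) : L x - L' x = L y - L' y := by
  have hpos : (0 : ℝ) < 2 * Real.pi := by positivity
  have h1 : ∀ x, ∃ k : ℤ, L x - L' x = k * (2 * Real.pi * Complex.I) := by
    intro x
    obtain ⟨k, hk⟩ := Complex.exp_eq_exp_iff_exists_int.1 (h x)
    exact ⟨k, by rw [hk]; ring⟩
  choose k hk using h1
  have hcont : Continuous fun x => (L x - L' x) := L.continuous.sub L'.continuous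
  have hk' : Continuous fun x => (k x : ℝ) := by
    have h2 : ∀ x, (k x : ℝ) = ((L x - L' x) / (2 * Real.pi * Complex.I)).re := by
      intro x
      rw [hk, mul_div_cancel_right₀ _ Complex.two_pi_I_ne_zero]
      simp
    simp only [h2]
    exact Complex.continuous_re.comp (hcont.div_const _)
  have hk2 : Continuous k := Int.isClosedEmbedding_coe_real.isInducing.continuous_iff.2 hk'
  have := PreconnectedSpace.constant (by infer_instance) hk2 (x := x) (y := y)
  rw [hk, hk, this]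

variable {T : Type*} [TopologicalSpace T]

/-- `L` is a logarithm of `g` along `σ` -/
def IsLog (g : T → ℂ) {n : ℕ} (σ : C(Sx n, T)) (L : C(Sx n, ℂ)) : Prop :=
  ∀ x, Complex.exp (L x) = g (σ x)

theorem exists_isLog (g : T → ℂ) {Z : Set T} (hc : ContinuousOn g Z) (h0 : ∀ x ∈ Z, g x ≠ 0)
    {n : ℕ} (σ : C(Sx n, T)) (hσ : ∀ x, σ x ∈ Z) : ∃ L, IsLog g σ L := by
  have hcont : Continuous fun x => g (σ x) := hc.comp_continuous σ.continuous hσ
  let f : C(Sx n, ℂ) := ⟨fun x => g (σ x), hcont⟩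
  have hf : ∀ a, f a ∈ ({0}ᶜ : Set ℂ) := fun a => h0 _ (hσ a)
  obtain ⟨F, ⟨-, hF⟩, -⟩ := Complex.isCoveringMapOn_exp.existsUnique_continuousMap_lifts f
    (a₀ := vtx n 0) (e₀ := Complex.log (f (vtx n 0))) (Complex.exp_log (hf _)) hf
  exact ⟨F, fun x => congrFun hF x⟩

open Classical in
/-- the change of `log g / (2 π i)` along a `1`-simplex -/
noncomputable def thetaS (g : T → ℂ) (σ : C(Sx 1, T)) : ℂ :=
  if h : ∃ L, IsLog g σ L then
    (h.choose (vtx 1 1) - h.choose (vtx 1 0)) / (2 * Real.pi * Complex.I) else 0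

theorem thetaS_eq {g : T → ℂ} {σ : C(Sx 1, T)} {L : C(Sx 1, ℂ)} (h : IsLog g σ L) :
    thetaS g σ = (L (vtx 1 1) - L (vtx 1 0)) / (2 * Real.pi * Complex.I) := by
  have hex : ∃ L, IsLog g σ L := ⟨L, h⟩
  rw [thetaS, dif_pos hex]
  congr 1
  have := log_sub_const (L := hex.choose) (L' := L)
    (fun x => by rw [hex.choose_spec x, h x]) (vtx 1 1) (vtx 1 0)
  linear_combination this

/-- the change of `log g / (2 π i)` along a `1`-chain -/
noncomputable def theta (g : T → ℂ) : Chain T 1 →ₗ[ℚ] ℂ :=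
  Finsupp.linearCombination ℚ (thetaS g)

@[simp] theorem theta_single (g : T → ℂ) (σ : C(Sx 1, T)) (c : ℚ) :
    theta g (Finsupp.single σ c) = c • thetaS g σ := Finsupp.linearCombination_single _ _ _

/-- `θ` vanishes on boundaries -/
theorem theta_bd {g : T → ℂ} {Z : Set T} (hc : ContinuousOn g Z) (h0 : ∀ x ∈ Z, g x ≠ 0)
    {z : Chain T 2} (hz : z ∈ Ch Z 2) : theta g (bd z) = 0 := by
  have h : (theta g).comp bd z ∈ (⊥ : Submodule ℚ ℂ) := by
    refine map_mem_of_single _ _ ?_ hz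
    intro τ hτ
    obtain ⟨L, hL⟩ := exists_isLog g hc h0 τ hτ
    have h1 : ∀ i, IsLog g (τ.comp (face 1 i)) (L.comp (face 1 i)) := fun i x => hL _
    rw [Submodule.mem_bot, LinearMap.comp_apply, bd_single, one_smul, bdS, map_sum,
      Fin.sum_univ_three]
    simp only [map_smul, theta_single, one_smul]
    rw [thetaS_eq (h1 0), thetaS_eq (h1 1), thetaS_eq (h1 2)]
    simp only [ContinuousMap.comp_apply, face_vtx]
    have e1 : Fin.succAbove (0 : Fin 3) (1 : Fin 2) = 2 := rfl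
    have e2 : Fin.succAbove (0 : Fin 3) (0 : Fin 2) = 1 := rfl
    have e3 : Fin.succAbove (1 : Fin 3) (1 : Fin 2) = 2 := rfl
    have e4 : Fin.succAbove (1 : Fin 3) (0 : Fin 2) = 0 := rfl
    have e5 : Fin.succAbove (2 : Fin 3) (1 : Fin 2) = 1 := rfl
    have e6 : Fin.succAbove (2 : Fin 3) (0 : Fin 2) = 0 := rfl
    simp only [Nat.reduceAdd, e1, e2, e3, e4, e5, e6, Fin.val_zero, Fin.val_one, Fin.val_two,
      pow_zero, pow_one, one_smul, neg_smul]
    rw [show ((-1 : ℚ) ^ 2) = 1 by norm_num, one_smul]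
    ring
  simpa using h

/-- the value of a function on `0`-chains -/
noncomputable def ev0 (l : T → ℂ) : Chain T 0 →ₗ[ℚ] ℂ :=
  Finsupp.linearCombination ℚ fun σ : C(Sx 0, T) => l (σ (vtx 0 0)) / (2 * Real.pi * Complex.I)

@[simp] theorem ev0_single (l : T → ℂ) (σ : C(Sx 0, T)) (c : ℚ) :
    ev0 l (Finsupp.single σ c) = c • (l (σ (vtx 0 0)) / (2 * Real.pi * Complex.I)) :=
  Finsupp.linearCombination_single _ _ _

/-- if `l` is a logarithm of `g` on `A`, then `θ` is the change of `l / (2 π i)` -/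
theorem theta_of_log {g l : T → ℂ} {A : Set T} (hl : ContinuousOn l A)
    (h : ∀ x ∈ A, Complex.exp (l x) = g x) {z : Chain T 1} (hz : z ∈ Ch A 1) :
    theta g z = ev0 l (bd z) := by
  have key : (theta g - (ev0 l).comp bd) z ∈ (⊥ : Submodule ℚ ℂ) := by
    refine map_mem_of_single _ _ ?_ hz
    intro σ hσ
    let L : C(Sx 1, ℂ) := ⟨fun x => l (σ x), hl.comp_continuous σ.continuous hσ⟩
    have hL : IsLog g σ L := fun x => h _ (hσ x)
    rw [Submodule.mem_bot, LinearMap.sub_apply, LinearMap.comp_apply, theta_single, bd_single,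
      thetaS_eq hL, one_smul, one_smul, bdS, map_sum, Fin.sum_univ_two]
    simp only [map_smul, ev0_single, one_smul, ContinuousMap.comp_apply, face_vtx]
    have e1 : Fin.succAbove (0 : Fin 2) (0 : Fin 1) = 1 := rfl
    have e2 : Fin.succAbove (1 : Fin 2) (0 : Fin 1) = 0 := rfl
    simp only [Nat.reduceAdd, e1, e2, Fin.val_zero, Fin.val_one, pow_zero, pow_one, one_smul,
      neg_smul]
    change (l (σ (vtx 1 1)) - l (σ (vtx 1 0))) / _ - _ = 0
    ring
  rw [Submodule.mem_bot, LinearMap.sub_apply, sub_eq_zero] at key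
  exact key

/-- `θ` of a cycle in a set with a logarithm is zero -/
theorem theta_cycle_of_log {g l : T → ℂ} {A : Set T} (hl : ContinuousOn l A)
    (h : ∀ x ∈ A, Complex.exp (l x) = g x) {z : Chain T 1} (hz : z ∈ Ch A 1) (hbd : bd z = 0) :
    theta g z = 0 := by
  rw [theta_of_log hl h hz, hbd, map_zero]

theorem theta_mul {g g' : T → ℂ} {Z : Set T} (hc : ContinuousOn g Z) (h0 : ∀ x ∈ Z, g x ≠ 0)
    (hc' : ContinuousOn g' Z) (h0' : ∀ x ∈ Z, g' x ≠ 0)
    {z : Chain T 1} (hz : z ∈ Ch Z 1) :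
    theta (fun x => g x * g' x) z = theta g z + theta g' z := by
  have key : (theta (fun x => g x * g' x) - (theta g + theta g')) z ∈ (⊥ : Submodule ℚ ℂ) := by
    refine map_mem_of_single _ _ ?_ hz
    intro σ hσ
    obtain ⟨L, hL⟩ := exists_isLog g hc h0 σ hσ
    obtain ⟨L', hL'⟩ := exists_isLog g' hc' h0' σ hσ
    have h1 : IsLog (fun x => g x * g' x) σ (L + L') := fun x => by
      rw [ContinuousMap.add_apply, Complex.exp_add, hL, hL']
    rw [Submodule.mem_bot, LinearMap.sub_apply, LinearMap.add_apply, theta_single, theta_single,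
      theta_single, thetaS_eq h1, thetaS_eq hL, thetaS_eq hL']
    simp only [ContinuousMap.add_apply, one_smul]
    ring
  rw [Submodule.mem_bot, LinearMap.sub_apply, LinearMap.add_apply, sub_eq_zero] at key
  exact key

theorem theta_inv {g : T → ℂ} {Z : Set T} (hc : ContinuousOn g Z) (h0 : ∀ x ∈ Z, g x ≠ 0)
    {z : Chain T 1} (hz : z ∈ Ch Z 1) :
    theta (fun x => (g x)⁻¹) z = - theta g z := by
  have key : (theta (fun x => (g x)⁻¹) + theta g) z ∈ (⊥ : Submodule ℚ ℂ) := by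
    refine map_mem_of_single _ _ ?_ hz
    intro σ hσ
    obtain ⟨L, hL⟩ := exists_isLog g hc h0 σ hσ
    have h1 : IsLog (fun x => (g x)⁻¹) σ (-L) := fun x => by
      rw [ContinuousMap.neg_apply, Complex.exp_neg, hL]
    rw [Submodule.mem_bot, LinearMap.add_apply, theta_single, theta_single, thetaS_eq h1,
      thetaS_eq hL]
    simp only [ContinuousMap.neg_apply, one_smul]
    ring
  rw [Submodule.mem_bot, LinearMap.add_apply] at key
  exact eq_neg_of_add_eq_zero_left key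

/-- `θ_g` depends only on the values of `g` on the chain -/
theorem theta_congr {g g' : T → ℂ} {Z : Set T} (h : ∀ x ∈ Z, g x = g' x) {z : Chain T 1}
    (hz : z ∈ Ch Z 1) : theta g z = theta g' z := by
  have key : (theta g - theta g') z ∈ (⊥ : Submodule ℚ ℂ) := by
    refine map_mem_of_single _ _ ?_ hz
    intro σ hσ
    have h1 : ∀ L, IsLog g σ L ↔ IsLog g' σ L := fun L =>
      forall_congr' fun x => by rw [h _ (hσ x)]
    have h2 : thetaS g σ = thetaS g' σ := by
      by_cases hex : ∃ L, IsLog g σ L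
      · obtain ⟨L, hL⟩ := hex
        rw [thetaS_eq hL, thetaS_eq ((h1 L).1 hL)]
      · rw [thetaS, dif_neg hex, thetaS, dif_neg fun ⟨L, hL⟩ => hex ⟨L, (h1 L).2 hL⟩]
    rw [Submodule.mem_bot, LinearMap.sub_apply, theta_single, theta_single, h2, sub_self]
  rw [Submodule.mem_bot, LinearMap.sub_apply, sub_eq_zero] at key
  exact key

theorem theta_mapC {T' : Type*} [TopologicalSpace T'] (g : T' → ℂ) (f : C(T, T'))
    (z : Chain T 1) : theta g (mapC f z) = theta (fun x => g (f x)) z := by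
  have : (theta g).comp (mapC f) = theta fun x => g (f x) := by
    apply hom_ext
    intro σ
    rw [LinearMap.comp_apply, mapC_single, theta_single, theta_single]
    rfl
  exact LinearMap.congr_fun this z

end Pool.Agent.Lib.MP_ee7b66_ag.Top
end
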