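import Mathlib
import Pool.Agent.Lib.MP_ee7b66_ag.Top.Circ

section

/-!
# Cycles in the plane with one or two points removed, circles, pairs of pants
-/

set_option autoImplicit false

open Set Topology

namespace Pool.Agent.Lib.MP_ee7b66_ag.Top

/-! ### One point -/

theorem slit_star {ε : ℝ} (hε : 0 < ε) {a b : ℝ} (ha : 0 ≤ a) (hb : 0 ≤ b) (hab : a + b = 1)
    {w : ℂ} (hw : w ∈ Complex.slitPlane) : (a * ε : ℝ) + b • w ∈ Complex.slitPlane := by
  rw [Complex.mem_slitPlane_iff] at hw ⊢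
  simp only [Complex.add_re, Complex.ofReal_re, Complex.real_smul, Complex.re_ofReal_mul,
    Complex.add_im, Complex.ofReal_im, Complex.im_ofReal_mul, zero_add]
  rcases hb.eq_or_lt with rfl | hb
  · left
    rw [add_zero] at hab
    rw [hab, one_mul, zero_mul, add_zero]
    exact hε
  · rcases hw with hw | hw
    · left
      have := mul_pos hb hw
      positivity
    · right
      exact mul_ne_zero hb.ne' hw

section point

variable {U : Set ℂ} {p : ℂ}

theorem punct_isOpen (hU : IsOpen U) : IsOpen (U \ {p}) := hU.sdiff isClosed_singleton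

theorem punct_cont : ContinuousOn (fun x : ℂ => x - p) (U \ {p}) :=
  (continuous_id.sub continuous_const).continuousOn

theorem punct_ne : ∀ x ∈ U \ {p}, x - p ≠ 0 := fun _ hx => sub_ne_zero.2 hx.2

theorem exists_eps (hU : IsOpen U) (hp : p ∈ U) :
    ∃ ε : ℝ, 0 < ε ∧ p + (ε : ℂ) ∈ U ∧ p - (ε : ℂ) ∈ U := by
  obtain ⟨δ, hδ, hb⟩ := Metric.isOpen_iff.1 hU p hp
  refine ⟨δ / 2, by positivity, hb ?_, hb ?_⟩
  · rw [Metric.mem_ball, dist_eq_norm, add_sub_cancel_left, Complex.norm_real, Real.norm_eq_abs,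
      abs_of_pos (by positivity)]
    linarith
  · rw [Metric.mem_ball, dist_eq_norm, sub_sub_cancel_left, norm_neg, Complex.norm_real,
      Real.norm_eq_abs, abs_of_pos (by positivity)]
    linarith

theorem punct_slitA (hU : Convex ℝ U) {ε : ℝ} (hε : 0 < ε) (h : p + (ε : ℂ) ∈ U) :
    StarConvex ℝ (p + (ε : ℂ)) (slitA (U \ {p}) fun x => x - p) := by
  intro y hy a b ha hb hab
  have h1 : a • (p + (ε : ℂ)) + b • y - p = (a * ε : ℝ) + b • (y - p) := by
    have : (a : ℂ) + b = 1 := by exact_mod_cast hab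
    simp only [Complex.real_smul]
    push_cast
    linear_combination p * this
  have h2 : a • (p + (ε : ℂ)) + b • y - p ∈ Complex.slitPlane := by
    rw [h1]
    exact slit_star hε ha hb hab hy.2
  refine ⟨⟨hU h hy.1.1 ha hb hab, ?_⟩, h2⟩
  intro h3
  rw [mem_singleton_iff] at h3
  rw [h3, sub_self] at h2
  exact Complex.zero_notMem_slitPlane h2

theorem punct_slitB (hU : Convex ℝ U) {ε : ℝ} (hε : 0 < ε) (h : p - (ε : ℂ) ∈ U) :
    StarConvex ℝ (p - (ε : ℂ)) (slitB (U \ {p}) fun x => x - p) := by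
  intro y hy a b ha hb hab
  have h1 : -(a • (p - (ε : ℂ)) + b • y - p) = (a * ε : ℝ) + b • (-(y - p)) := by
    have : (a : ℂ) + b = 1 := by exact_mod_cast hab
    simp only [Complex.real_smul]
    push_cast
    linear_combination - p * this
  have h2 : -(a • (p - (ε : ℂ)) + b • y - p) ∈ Complex.slitPlane := by
    rw [h1]
    exact slit_star hε ha hb hab hy.2
  refine ⟨⟨hU h hy.1.1 ha hb hab, ?_⟩, h2⟩
  intro h3
  rw [mem_singleton_iff] at h3
  rw [h3, sub_self, neg_zero] at h2
  exact Complex.zero_notMem_slitPlane h2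

theorem punct_up (hU : Convex ℝ U) : Convex ℝ (upZ (U \ {p}) fun x => x - p) := by
  have : upZ (U \ {p}) (fun x => x - p) = U ∩ {x | p.im < x.im} := by
    ext x
    simp only [upZ, mem_inter_iff, mem_sdiff, mem_singleton_iff, mem_preimage, mem_ofPred_eq,
      Complex.sub_im, sub_pos]
    constructor
    · rintro ⟨⟨h1, -⟩, h2⟩
      exact ⟨h1, h2⟩
    · rintro ⟨h1, h2⟩
      exact ⟨⟨h1, fun h => by rw [h] at h2; exact lt_irrefl _ h2⟩, h2⟩
  rw [this]
  exact hU.inter (convex_halfSpace_im_gt _)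

theorem punct_lo (hU : Convex ℝ U) : Convex ℝ (loZ (U \ {p}) fun x => x - p) := by
  have : loZ (U \ {p}) (fun x => x - p) = U ∩ {x | x.im < p.im} := by
    ext x
    simp only [loZ, mem_inter_iff, mem_sdiff, mem_singleton_iff, mem_preimage, mem_ofPred_eq,
      Complex.sub_im, sub_neg]
    constructor
    · rintro ⟨⟨h1, -⟩, h2⟩
      exact ⟨h1, h2⟩
    · rintro ⟨h1, h2⟩
      exact ⟨⟨h1, fun h => by rw [h] at h2; exact lt_irrefl _ h2⟩, h2⟩
  rw [this]
  exact hU.inter (convex_halfSpace_im_lt _)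

/-- a convex open set without a point has no homology in degrees `≥ 2` -/
theorem punct_acyc (hU : IsOpen U) (hc : Convex ℝ U) (hp : p ∈ U) (n : ℕ) :
    Acyc (U \ {p}) (n + 1) := by
  obtain ⟨ε, hε, h1, h2⟩ := exists_eps hU hp
  exact circ_acyc (punct_isOpen hU) punct_cont punct_ne
    (StarConvex.acyc (punct_slitA hc hε h1) _) (StarConvex.acyc (punct_slitB hc hε h2) _)
    (Convex.acyc' (punct_up hc) _) (Convex.acyc' (punct_lo hc) _)

/-- a `1`-cycle with winding number zero around `p` bounds in `U \ {p}` -/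
theorem punct_bound (hU : IsOpen U) (hc : Convex ℝ U) (hp : p ∈ U) {z : Chain ℂ 1}
    (hz : z ∈ Ch (U \ {p}) 1) (hbd : bd z = 0) (hθ : theta (fun x => x - p) z = 0) :
    ∃ w ∈ Ch (U \ {p}) 2, bd w = z := by
  obtain ⟨ε, hε, h1, h2⟩ := exists_eps hU hp
  exact circ_bound (punct_isOpen hU) punct_cont punct_ne
    (StarConvex.acyc (punct_slitA hc hε h1) _) (StarConvex.acyc (punct_slitB hc hε h2) _)
    (Convex.conn' (punct_up hc)) (Convex.conn' (punct_lo hc)) hz hbd hθ

end point

/-! ### Two points -/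

/-- in a convex set a `1`-cycle has winding number zero with respect to a function without
zeros -/
theorem theta_convex {U : Set ℂ} (hc : Convex ℝ U) {g : ℂ → ℂ} (hg : ContinuousOn g U)
    (h0 : ∀ x ∈ U, g x ≠ 0) {z : Chain ℂ 1} (hz : z ∈ Ch U 1) (hbd : bd z = 0) :
    theta g z = 0 := by
  obtain ⟨w, hw, rfl⟩ := Convex.acyc' hc 0 z hz hbd
  exact theta_bd hg h0 hw

/-- a `1`-cycle of `ℂ \ {p₁, p₂}` with winding numbers zero around `p₁` and `p₂` bounds in
`ℂ \ {p₁, p₂}` -/
theorem punct2_bound {p₁ p₂ : ℂ} (hne : p₁ ≠ p₂) {z : Chain ℂ 1}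
    (hz : z ∈ Ch ({p₁, p₂}ᶜ : Set ℂ) 1) (hbd : bd z = 0)
    (h1 : theta (fun x => x - p₁) z = 0) (h2 : theta (fun x => x - p₂) z = 0) :
    ∃ w ∈ Ch ({p₁, p₂}ᶜ : Set ℂ) 2, bd w = z := by
  set d : ℂ := p₂ - p₁ with hd
  have hd0 : d ≠ 0 := sub_ne_zero.2 hne.symm
  have hD : 0 < Complex.normSq d := Complex.normSq_pos.2 hd0
  let l : ℂ → ℝ := fun x => ((x - p₁) * (starRingEnd ℂ) d).re
  have hlc : Continuous l := Complex.continuous_re.comp
    ((continuous_id.sub continuous_const).mul continuous_const)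
  have hl1 : l p₁ = 0 := by simp [l]
  have hl2 : l p₂ = Complex.normSq d := by
    change ((p₂ - p₁) * (starRingEnd ℂ) d).re = _
    rw [← hd, Complex.mul_conj, Complex.ofReal_re]
  have hla : ∀ x y : ℂ, ∀ a b : ℝ, a + b = 1 → l (a • x + b • y) = a * l x + b * l y := by
    intro x y a b hab
    have hab' : (a : ℂ) + b = 1 := by exact_mod_cast hab
    have : (a • x + b • y - p₁) * (starRingEnd ℂ) d =
        (a : ℂ) * ((x - p₁) * (starRingEnd ℂ) d) + (b : ℂ) * ((y - p₁) * (starRingEnd ℂ) d) := by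
      simp only [Complex.real_smul]
      linear_combination (p₁ * (starRingEnd ℂ) d) * hab'
    simp only [l]
    rw [this, Complex.add_re, Complex.re_ofReal_mul, Complex.re_ofReal_mul]
  set N := Complex.normSq d with hN
  let A : Set ℂ := {x | l x < 3 / 4 * N}
  let B : Set ℂ := {x | 1 / 4 * N < l x}
  have hAo : IsOpen A := isOpen_lt hlc continuous_const
  have hBo : IsOpen B := isOpen_lt continuous_const hlc
  have hAc : Convex ℝ A := by
    intro x hx y hy a b ha hb hab
    change l (a • x + b • y) < _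
    rw [hla x y a b hab]
    have hx' : l x < 3 / 4 * N := hx
    have hy' : l y < 3 / 4 * N := hy
    rcases ha.eq_or_lt with rfl | ha
    · rw [zero_add] at hab; rw [hab]; linarith
    · nlinarith [mul_lt_mul_of_pos_left hx' ha, mul_le_mul_of_nonneg_left hy'.le hb]
  have hBc : Convex ℝ B := by
    intro x hx y hy a b ha hb hab
    change _ < l (a • x + b • y)
    rw [hla x y a b hab]
    have hx' : 1 / 4 * N < l x := hx
    have hy' : 1 / 4 * N < l y := hy
    rcases ha.eq_or_lt with rfl | ha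
    · rw [zero_add] at hab; rw [hab]; linarith
    · nlinarith [mul_lt_mul_of_pos_left hx' ha, mul_le_mul_of_nonneg_left hy'.le hb]
  have hp1A : p₁ ∈ A := by change l p₁ < _; rw [hl1]; positivity
  have hp2B : p₂ ∈ B := by change _ < l p₂; rw [hl2]; linarith
  have hp1B : p₁ ∉ B := by
    intro h
    have h' : 1 / 4 * N < l p₁ := h
    rw [hl1] at h'
    linarith
  have hp2A : p₂ ∉ A := by
    intro h
    have h' : l p₂ < 3 / 4 * N := h
    rw [hl2] at h'
    linarith
  have hU : (A \ {p₁}) ∪ (B \ {p₂}) = ({p₁, p₂}ᶜ : Set ℂ) := by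
    ext x
    simp only [mem_union, mem_sdiff, mem_singleton_iff, mem_compl_iff, mem_insert_iff, not_or]
    constructor
    · rintro (⟨h3, h4⟩ | ⟨h3, h4⟩)
      · exact ⟨h4, fun h => hp2A (h ▸ h3)⟩
      · exact ⟨fun h => hp1B (h ▸ h3), h4⟩
    · rintro ⟨h3, h4⟩
      by_cases h5 : l x < 3 / 4 * N
      · exact Or.inl ⟨h5, h3⟩
      · exact Or.inr ⟨by change _ < l x; linarith, h4⟩
  have hI : (A \ {p₁}) ∩ (B \ {p₂}) = A ∩ B := by
    ext x
    simp only [mem_inter_iff, mem_sdiff, mem_singleton_iff]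
    constructor
    · rintro ⟨⟨h3, -⟩, h4, -⟩; exact ⟨h3, h4⟩
    · rintro ⟨h3, h4⟩
      exact ⟨⟨h3, fun h => hp1B (h ▸ h4)⟩, h4, fun h => hp2A (h ▸ h3)⟩
  have hz' := hz
  rw [← hU] at hz'
  obtain ⟨a, ha, b, hb, w, hw, rfl, hab, hm⟩ := mv_cycle (hAo.sdiff isClosed_singleton)
    (hBo.sdiff isClosed_singleton) hz' hbd
  rw [hI] at hm
  rw [hU] at hw
  obtain ⟨e, he, hea⟩ := Convex.conn' (hAc.inter hBc) (bd a) hm (deg_bd a)
  have heA : e ∈ Ch (A \ {p₁}) 1 := by
    rw [← hI] at he; exact Ch_mono inter_subset_left _ he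
  have heB : e ∈ Ch (B \ {p₂}) 1 := by
    rw [← hI] at he; exact Ch_mono inter_subset_right _ he
  have ha' : a - e ∈ Ch (A \ {p₁}) 1 := Submodule.sub_mem _ ha heA
  have hb' : b + e ∈ Ch (B \ {p₂}) 1 := Submodule.add_mem _ hb heB
  have hbda : bd (a - e) = 0 := by rw [map_sub, hea, sub_self]
  have hbdb : bd (b + e) = 0 := by rw [map_add, hea, add_comm, hab]
  have hcont : ∀ q : ℂ, Continuous fun x : ℂ => x - q := fun q =>
    continuous_id.sub continuous_const
  have hw1 : theta (fun x => x - p₁) (bd w) = 0 := theta_bd (Z := ({p₁, p₂}ᶜ : Set ℂ))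
    (hcont p₁).continuousOn (fun x hx => sub_ne_zero.2 fun h => hx (Or.inl h)) hw
  have hw2 : theta (fun x => x - p₂) (bd w) = 0 := theta_bd (Z := ({p₁, p₂}ᶜ : Set ℂ))
    (hcont p₂).continuousOn (fun x hx => sub_ne_zero.2 fun h => hx (Or.inr h)) hw
  have e1 : theta (fun x => x - p₁) (b + e) = 0 := theta_convex hBc (hcont p₁).continuousOn
    (fun x hx => sub_ne_zero.2 fun h => hp1B (h ▸ hx)) (Ch_mono sdiff_subset _ hb') hbdb
  have e2 : theta (fun x => x - p₂) (a - e) = 0 := theta_convex hAc (hcont p₂).continuousOn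
    (fun x hx => sub_ne_zero.2 fun h => hp2A (h ▸ hx)) (Ch_mono sdiff_subset _ ha') hbda
  have f1 : theta (fun x => x - p₁) (a - e) = 0 := by
    rw [map_add, map_add, hw1, add_zero] at h1
    rw [map_add] at e1
    rw [map_sub]
    linear_combination h1 - e1
  have f2 : theta (fun x => x - p₂) (b + e) = 0 := by
    rw [map_add, map_add, hw2, add_zero] at h2
    rw [map_sub] at e2
    rw [map_add]
    linear_combination h2 - e2
  obtain ⟨u, hu, hua⟩ := punct_bound hAo hAc hp1A ha' hbda f1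
  obtain ⟨v, hv, hvb⟩ := punct_bound hBo hBc hp2B hb' hbdb f2
  refine ⟨u + v + w, Submodule.add_mem _ (Submodule.add_mem _ ?_ ?_) hw, ?_⟩
  · rw [← hU]; exact Ch_mono subset_union_left _ hu
  · rw [← hU]; exact Ch_mono subset_union_right _ hv
  · rw [map_add, map_add, hua, hvb]
    abel

/-! ### Circles -/

/-- the circle with centre `c` and radius `r` as a singular simplex -/
noncomputable def circS (c : ℂ) (r : ℝ) : C(Sx 1, ℂ) where
  toFun x := c + r * Complex.exp (2 * Real.pi * Complex.I * (x 1 : ℝ))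
  continuous_toFun := continuous_const.add (continuous_const.mul (Complex.continuous_exp.comp
    (continuous_const.mul (Complex.continuous_ofReal.comp (continuous_coord 1)))))

theorem circS_apply (c : ℂ) (r : ℝ) (x : Sx 1) :
    circS c r x = c + r * Complex.exp (2 * Real.pi * Complex.I * (x 1 : ℝ)) := rfl

theorem norm_circS_sub (c : ℂ) (r : ℝ) (x : Sx 1) : ‖circS c r x - c‖ = |r| := by
  rw [circS_apply, add_sub_cancel_left, norm_mul, Complex.norm_real, Real.norm_eq_abs,
    Complex.norm_exp]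
  simp

/-- the circle as a chain -/
noncomputable def circ (c : ℂ) (r : ℝ) : Chain ℂ 1 := Finsupp.single (circS c r) 1

theorem vtx_apply_self (n : ℕ) (i : Fin (n + 1)) : vtx n i i = 1 := by
  simp [vtx]

theorem vtx_apply_ne {n : ℕ} {i j : Fin (n + 1)} (h : j ≠ i) : vtx n i j = 0 := by
  simp [vtx, h]

theorem bd_circ (c : ℂ) (r : ℝ) : bd (circ c r) = 0 := by
  rw [circ, bd_single, one_smul, bdS, Fin.sum_univ_two]
  have h : (circS c r).comp (face 0 0) = (circS c r).comp (face 0 1) := by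
    ext x
    have hx : x = vtx 0 0 := Subsingleton.elim (α := stdSimplex ℝ (Fin 1)) _ _
    have e1 : Fin.succAbove (0 : Fin 2) (0 : Fin 1) = 1 := rfl
    have e2 : Fin.succAbove (1 : Fin 2) (0 : Fin 1) = 0 := rfl
    rw [ContinuousMap.comp_apply, ContinuousMap.comp_apply, hx, face_vtx, face_vtx, e1, e2,
      circS_apply, circS_apply, vtx_apply_self, vtx_apply_ne (by decide)]
    simp only [Complex.ofReal_one, mul_one, Complex.exp_two_pi_mul_I, Complex.ofReal_zero,
      mul_zero, Complex.exp_zero]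
  rw [h]
  simp

theorem circ_mem {c : ℂ} {r : ℝ} {A : Set ℂ} (h : ∀ x : ℂ, ‖x - c‖ = |r| → x ∈ A) :
    circ c r ∈ Ch A 1 := single_mem (fun x => h _ (norm_circS_sub c r x)) 1

theorem theta_circ_centre {c : ℂ} {r : ℝ} (hr : 0 < r) : theta (fun x => x - c) (circ c r) = 1 := by
  let L : C(Sx 1, ℂ) := ⟨fun x => Real.log r + 2 * Real.pi * Complex.I * (x 1 : ℝ),
    continuous_const.add (continuous_const.mul (Complex.continuous_ofReal.comp
      (continuous_coord 1)))⟩
  have hL : IsLog (fun x => x - c) (circS c r) L := by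
    intro x
    change Complex.exp (Real.log r + 2 * Real.pi * Complex.I * (x 1 : ℝ)) = circS c r x - c
    rw [circS_apply, add_sub_cancel_left, Complex.exp_add, ← Complex.ofReal_exp, Real.exp_log hr]
  rw [circ, theta_single, one_smul, thetaS_eq hL]
  change (Real.log r + 2 * Real.pi * Complex.I * ((vtx 1 1) 1 : ℝ) -
    (Real.log r + 2 * Real.pi * Complex.I * ((vtx 1 0) 1 : ℝ))) / _ = 1
  rw [vtx_apply_self, vtx_apply_ne (by decide)]
  simp only [Complex.ofReal_one, mul_one, Complex.ofReal_zero, mul_zero, add_zero,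
    add_sub_cancel_left]
  exact div_self Complex.two_pi_I_ne_zero

/-- a function without zeros in the closed disc has winding number zero on the circle -/
theorem theta_circ_disc {c : ℂ} {r : ℝ} {g : ℂ → ℂ}
    (hg : ContinuousOn g (Metric.closedBall c |r|))
    (h0 : ∀ x ∈ Metric.closedBall c |r|, g x ≠ 0) : theta g (circ c r) = 0 :=
  theta_convex (convex_closedBall c |r|) hg h0
    (circ_mem fun x hx => by rw [mem_closedBall_iff_norm]; exact hx.le) (bd_circ c r)

theorem theta_circ_inside {c p : ℂ} {r : ℝ} (h : ‖p - c‖ < r) :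
    theta (fun x => x - p) (circ c r) = 1 := by
  have hr : 0 < r := (norm_nonneg _).trans_lt h
  let S : Set ℂ := {x | ‖x - c‖ = |r|}
  have hS : circ c r ∈ Ch S 1 := circ_mem fun x hx => hx
  have hne : ∀ x ∈ S, x - c ≠ 0 := by
    intro x hx h1
    have : ‖x - c‖ = |r| := hx
    rw [h1, norm_zero, eq_comm, abs_eq_zero] at this
    exact hr.ne' this
  have hc1 : ContinuousOn (fun x : ℂ => x - c) S := (continuous_id.sub continuous_const).continuousOn
  have hc2 : ContinuousOn (fun x : ℂ => 1 - (p - c) / (x - c)) S :=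
    continuousOn_const.sub (continuousOn_const.div hc1 hne)
  have hlt : ∀ x ∈ S, ‖(p - c) / (x - c)‖ < 1 := by
    intro x hx
    have hx' : ‖x - c‖ = |r| := hx
    rw [norm_div, hx', abs_of_pos hr, div_lt_one hr]
    exact h
  have hslit : ∀ x ∈ S, 1 - (p - c) / (x - c) ∈ Complex.slitPlane := by
    intro x hx
    rw [Complex.mem_slitPlane_iff]
    left
    rw [Complex.sub_re, Complex.one_re, sub_pos]
    exact (Complex.re_le_norm _).trans_lt (hlt x hx)
  have hne2 : ∀ x ∈ S, 1 - (p - c) / (x - c) ≠ 0 := fun x hx =>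
    Complex.slitPlane_ne_zero (hslit x hx)
  have h1 := theta_mul hc1 hne hc2 hne2 hS
  have h2 : theta (fun x => 1 - (p - c) / (x - c)) (circ c r) = 0 :=
    theta_cycle_of_log (l := fun x => Complex.log (1 - (p - c) / (x - c)))
      (fun x hx => (hc2 x hx).clog (hslit x hx)) (fun x hx => Complex.exp_log (hne2 x hx)) hS
      (bd_circ c r)
  rw [theta_circ_centre hr, h2, add_zero] at h1
  rw [← h1]
  refine theta_congr (fun x hx => ?_) hS
  field_simp [hne x hx]
  ring

/-- the pair of pants: small circles around `p₁`, `p₂` and a large circle -/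
theorem pants {p₁ p₂ : ℂ} {r₁ r₂ R : ℝ} (h1 : 0 < r₁) (h2 : 0 < r₂)
    (h12 : r₁ < ‖p₁ - p₂‖) (h21 : r₂ < ‖p₁ - p₂‖) (hR1 : ‖p₁‖ < R) (hR2 : ‖p₂‖ < R) :
    ∃ w ∈ Ch ({p₁, p₂}ᶜ : Set ℂ) 2, bd w = circ p₁ r₁ + circ p₂ r₂ - circ 0 R := by
  have hne : p₁ ≠ p₂ := by
    rintro rfl
    rw [sub_self, norm_zero] at h12
    linarith
  have hR : 0 < R := (norm_nonneg _).trans_lt hR1
  have m1 : circ p₁ r₁ ∈ Ch ({p₁, p₂}ᶜ : Set ℂ) 1 := circ_mem fun x hx => by
    rw [abs_of_pos h1] at hx
    rintro (h | h)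
    · rw [h, sub_self, norm_zero] at hx; linarith
    · rw [mem_singleton_iff] at h
      rw [h, norm_sub_rev] at hx; linarith
  have m2 : circ p₂ r₂ ∈ Ch ({p₁, p₂}ᶜ : Set ℂ) 1 := circ_mem fun x hx => by
    rw [abs_of_pos h2] at hx
    rintro (h | h)
    · rw [h] at hx; linarith
    · rw [mem_singleton_iff] at h
      rw [h, sub_self, norm_zero] at hx; linarith
  have m3 : circ 0 R ∈ Ch ({p₁, p₂}ᶜ : Set ℂ) 1 := circ_mem fun x hx => by
    rw [abs_of_pos hR, sub_zero] at hx
    rintro (h | h)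
    · rw [h] at hx; linarith
    · rw [mem_singleton_iff] at h
      rw [h] at hx; linarith
  have hcont : ∀ q : ℂ, Continuous fun x : ℂ => x - q := fun q =>
    continuous_id.sub continuous_const
  have t12 : theta (fun x => x - p₂) (circ p₁ r₁) = 0 :=
    theta_circ_disc (hcont _).continuousOn fun x hx h => by
      rw [sub_eq_zero] at h
      rw [h, mem_closedBall_iff_norm, abs_of_pos h1, norm_sub_rev] at hx
      linarith
  have t21 : theta (fun x => x - p₁) (circ p₂ r₂) = 0 :=
    theta_circ_disc (hcont _).continuousOn fun x hx h => by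
      rw [sub_eq_zero] at h
      rw [h, mem_closedBall_iff_norm, abs_of_pos h2] at hx
      linarith
  refine punct2_bound hne (Submodule.sub_mem _ (Submodule.add_mem _ m1 m2) m3)
    (by rw [map_sub, map_add, bd_circ, bd_circ, bd_circ]; simp) ?_ ?_
  · rw [map_sub, map_add, theta_circ_centre h1, t21, theta_circ_inside (by rwa [sub_zero])]
    simp
  · rw [map_sub, map_add, theta_circ_centre h2, t12, theta_circ_inside (by rwa [sub_zero])]
    simp

end Pool.Agent.Lib.MP_ee7b66_ag.Top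
end

section

/-!
# Transport of chains by functions which are continuous on a subset
-/

set_option autoImplicit false

open Set Topology

namespace Pool.Agent.Lib.MP_ee7b66_ag.Top

variable {T T' : Type*} [TopologicalSpace T] [TopologicalSpace T']

/-- the composition of a simplex in `A` with a function continuous on `A` -/
def compOn {A : Set T} {f : T → T'} (hf : ContinuousOn f A) {n : ℕ} (σ : C(Sx n, T))
    (h : ∀ x, σ x ∈ A) : C(Sx n, T') := ⟨fun x => f (σ x), hf.comp_continuous σ.continuous h⟩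

open Classical in
/-- the chain map of a function `f` which is continuous on `A`; simplices outside `A` are sent to
zero -/
noncomputable def pushOn {A : Set T} {f : T → T'} (hf : ContinuousOn f A) {n : ℕ} :
    Chain T n →ₗ[ℚ] Chain T' n :=
  Finsupp.linearCombination ℚ fun σ : C(Sx n, T) =>
    if h : ∀ x, σ x ∈ A then Finsupp.single (compOn hf σ h) 1 else 0

section

variable {A : Set T} {B : Set T'} {f : T → T'} {g : T' → T}

theorem pushOn_single (hf : ContinuousOn f A) {n : ℕ} {σ : C(Sx n, T)} (h : ∀ x, σ x ∈ A)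
    (c : ℚ) : pushOn hf (Finsupp.single σ c) = Finsupp.single (compOn hf σ h) c := by
  rw [pushOn, Finsupp.linearCombination_single, dif_pos h, Finsupp.smul_single, smul_eq_mul,
    mul_one]

/-- two linear maps which agree on the simplices in `A` -/
theorem eq_of_single {n : ℕ} {M : Type*} [AddCommGroup M] [Module ℚ M]
    {F G : Chain T n →ₗ[ℚ] M}
    (h : ∀ σ : C(Sx n, T), (∀ x, σ x ∈ A) → F (Finsupp.single σ 1) = G (Finsupp.single σ 1))
    {z : Chain T n} (hz : z ∈ Ch A n) : F z = G z := by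
  have key : (F - G) z ∈ (⊥ : Submodule ℚ M) := by
    refine map_mem_of_single _ _ ?_ hz
    intro σ hσ
    rw [Submodule.mem_bot, LinearMap.sub_apply, h σ hσ, sub_self]
  rw [Submodule.mem_bot, LinearMap.sub_apply, sub_eq_zero] at key
  exact key

theorem pushOn_bd (hf : ContinuousOn f A) {n : ℕ} {z : Chain T (n + 1)} (hz : z ∈ Ch A (n + 1)) :
    pushOn hf (bd z) = bd (pushOn hf z) := by
  refine eq_of_single (F := (pushOn hf).comp bd) (G := bd.comp (pushOn hf)) ?_ hz
  intro σ hσ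
  rw [LinearMap.comp_apply, LinearMap.comp_apply, bd_single, one_smul, pushOn_single hf hσ,
    bd_single, one_smul, bdS, map_sum, bdS]
  refine Finset.sum_congr rfl fun i _ => ?_
  rw [map_smul, pushOn_single hf (σ := σ.comp (face n i)) fun x => hσ _]
  rfl

theorem pushOn_mem (hf : ContinuousOn f A) {C : Set T} (hC : C ⊆ A) (h : ∀ x ∈ C, f x ∈ B)
    {n : ℕ} {z : Chain T n} (hz : z ∈ Ch C n) : pushOn hf z ∈ Ch B n := by
  refine map_mem_of_single _ _ ?_ hz
  intro σ hσ
  rw [pushOn_single hf fun x => hC (hσ x)]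
  exact single_mem (fun x => h _ (hσ x)) 1

theorem deg_pushOn (hf : ContinuousOn f A) {z : Chain T 0} (hz : z ∈ Ch A 0) :
    deg (pushOn hf z) = deg z := by
  refine eq_of_single (F := deg.comp (pushOn hf)) (G := deg) ?_ hz
  intro σ hσ
  rw [LinearMap.comp_apply, pushOn_single hf hσ, deg_single, deg_single]

theorem theta_pushOn (hf : ContinuousOn f A) (s : T' → ℂ) {z : Chain T 1} (hz : z ∈ Ch A 1) :
    theta s (pushOn hf z) = theta (fun x => s (f x)) z := by
  refine eq_of_single (F := (theta s).comp (pushOn hf)) (G := theta fun x => s (f x)) ?_ hz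
  intro σ hσ
  rw [LinearMap.comp_apply, pushOn_single hf hσ, theta_single, theta_single]
  rfl

theorem pushOn_pushOn (hf : ContinuousOn f A) (hg : ContinuousOn g B) (hAB : ∀ x ∈ A, f x ∈ B)
    (hgf : ∀ x ∈ A, g (f x) = x) {n : ℕ} {z : Chain T n} (hz : z ∈ Ch A n) :
    pushOn hg (pushOn hf z) = z := by
  refine eq_of_single (F := (pushOn hg).comp (pushOn hf)) (G := LinearMap.id) ?_ hz
  intro σ hσ
  rw [LinearMap.comp_apply, pushOn_single hf hσ,
    pushOn_single hg (σ := compOn hf σ hσ) (fun x => hAB _ (hσ x)), LinearMap.id_apply]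
  congr 1
  ext x
  exact hgf _ (hσ x)

theorem pushOn_eq_mapC (f : C(T, T')) (hf : ContinuousOn f A) {n : ℕ} {z : Chain T n}
    (hz : z ∈ Ch A n) : pushOn hf z = mapC f z := by
  refine eq_of_single ?_ hz
  intro σ hσ
  rw [pushOn_single hf hσ, mapC_single]
  rfl

/-- `A ⊆ T` and `B ⊆ T'` are homeomorphic by `f` and `g` -/
structure HomeoOn (A : Set T) (B : Set T') (f : T → T') (g : T' → T) : Prop where
  cf : ContinuousOn f A
  cg : ContinuousOn g B
  mf : ∀ x ∈ A, f x ∈ B
  mg : ∀ y ∈ B, g y ∈ A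
  gf : ∀ x ∈ A, g (f x) = x
  fg : ∀ y ∈ B, f (g y) = y

theorem HomeoOn.symm (h : HomeoOn A B f g) : HomeoOn B A g f :=
  ⟨h.cg, h.cf, h.mg, h.mf, h.fg, h.gf⟩

/-- restriction to the subset of `A` corresponding to a subset of `B` -/
theorem HomeoOn.restrict (h : HomeoOn A B f g) (C : Set T') :
    HomeoOn (A ∩ f ⁻¹' C) (B ∩ C) f g where
  cf := h.cf.mono inter_subset_left
  cg := h.cg.mono inter_subset_left
  mf := fun x hx => ⟨h.mf x hx.1, hx.2⟩
  mg := fun y hy => ⟨h.mg y hy.1, by rw [mem_preimage, h.fg y hy.1]; exact hy.2⟩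
  gf := fun x hx => h.gf x hx.1
  fg := fun y hy => h.fg y hy.1

theorem HomeoOn.bound (h : HomeoOn A B f g) {n : ℕ} {z : Chain T (n + 1)}
    (hz : z ∈ Ch A (n + 1))
    (hw : ∃ w ∈ Ch B (n + 2), bd w = pushOn h.cf z) : ∃ w ∈ Ch A (n + 2), bd w = z := by
  obtain ⟨w, hw, hbw⟩ := hw
  refine ⟨pushOn h.cg w, pushOn_mem h.cg Subset.rfl h.mg hw, ?_⟩
  rw [← pushOn_bd h.cg hw, hbw, pushOn_pushOn h.cf h.cg h.mf h.gf hz]

theorem HomeoOn.acyc (h : HomeoOn A B f g) {n : ℕ} (hB : Acyc B n) : Acyc A n := by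
  intro z hz hbd
  refine h.bound hz (hB _ (pushOn_mem h.cf Subset.rfl h.mf hz) ?_)
  rw [← pushOn_bd h.cf hz, hbd, map_zero]

theorem HomeoOn.conn (h : HomeoOn A B f g) (hB : Conn B) : Conn A := by
  intro z hz hdeg
  obtain ⟨w, hw, hbw⟩ := hB _ (pushOn_mem h.cf Subset.rfl h.mf hz)
    (by rw [deg_pushOn h.cf hz, hdeg])
  refine ⟨pushOn h.cg w, pushOn_mem h.cg Subset.rfl h.mg hw, ?_⟩
  rw [← pushOn_bd h.cg hw, hbw, pushOn_pushOn h.cf h.cg h.mf h.gf hz]

end

end Pool.Agent.Lib.MP_ee7b66_ag.Top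
end
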