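import Mathlib
import Pool.Agent.Lib.MP_ee7b66_ag.Mg.G011

section

/-!
# Homologically trivial sets, homology circles, unions of two charts
-/

set_option autoImplicit false

open Set Topology

namespace Pool.Agent.Lib.MP_ee7b66_ag.Top

variable {T T' : Type*} [TopologicalSpace T] [TopologicalSpace T']

/-- `A` has the rational homology of a point, or is empty -/
structure IsContr (A : Set T) : Prop where
  acyc : ∀ n, Acyc A n
  conn : Conn A

theorem StarConvex.isContr {E : Type*} [NormedAddCommGroup E] [NormedSpace ℝ E] {p : E}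
    {A : Set E} (hA : StarConvex ℝ p A) : IsContr A := ⟨StarConvex.acyc hA, StarConvex.conn hA⟩

theorem Convex.isContr {E : Type*} [NormedAddCommGroup E] [NormedSpace ℝ E]
    {A : Set E} (hA : Convex ℝ A) : IsContr A := ⟨Convex.acyc' hA, Convex.conn' hA⟩

theorem HomeoOn.isContr {A : Set T} {B : Set T'} {f : T → T'} {g : T' → T}
    (h : HomeoOn A B f g) (hB : IsContr B) : IsContr A :=
  ⟨fun n => h.acyc (hB.acyc n), h.conn hB.conn⟩

/-- the constant simplex -/
noncomputable def ptS (x : T) : C(Sx 0, T) := ContinuousMap.const _ x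

theorem ext_zero {σ : C(Sx 0, T)} : σ = ptS (σ (vtx 0 0)) := by
  ext x
  have hx : x = vtx 0 0 := Subsingleton.elim (α := stdSimplex ℝ (Fin 1)) _ _
  rw [hx]
  rfl

theorem Ch_zero_union (A B : Set T) : Ch (A ∪ B) 0 = Ch A 0 ⊔ Ch B 0 := by
  apply le_antisymm
  · intro z hz
    refine map_mem_of_single (T := T) LinearMap.id (Ch A 0 ⊔ Ch B 0) ?_ hz
    intro σ hσ
    rw [LinearMap.id_apply]
    have h1 : ∀ x, σ x = σ (vtx 0 0) := fun x => by
      rw [Subsingleton.elim (α := stdSimplex ℝ (Fin 1)) x (vtx 0 0)]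
    rcases hσ (vtx 0 0) with h | h
    · exact Submodule.mem_sup_left (single_mem (fun x => by rw [h1]; exact h) 1)
    · exact Submodule.mem_sup_right (single_mem (fun x => by rw [h1]; exact h) 1)
  · exact sup_le (Ch_mono subset_union_left _) (Ch_mono subset_union_right _)

/-- the union of two connected sets with a common point is connected -/
theorem conn_union {A B : Set T} (hA : Conn A) (hB : Conn B) (hne : (A ∩ B).Nonempty) :
    Conn (A ∪ B) := by
  intro z hz hdeg
  obtain ⟨p, hpA, hpB⟩ := hne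
  rw [Ch_zero_union] at hz
  obtain ⟨a, ha, b, hb, rfl⟩ := Submodule.mem_sup.1 hz
  obtain ⟨u, hu, hua⟩ := hA (a - Finsupp.single (ptS p) (deg a))
    (Submodule.sub_mem _ ha (single_mem (fun _ => hpA) _)) (by rw [map_sub, deg_single, sub_self])
  obtain ⟨v, hv, hvb⟩ := hB (b + Finsupp.single (ptS p) (deg a))
    (Submodule.add_mem _ hb (single_mem (fun _ => hpB) _)) (by
      rw [map_add, deg_single, add_comm, ← map_add, hdeg])
  refine ⟨u + v, Submodule.add_mem _ (Ch_mono subset_union_left _ hu)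
    (Ch_mono subset_union_right _ hv), ?_⟩
  rw [map_add, hua, hvb]
  abel

/-- `Z` is an open set which has the rational homology of a circle; the generator of `H_1` is
detected by the winding number of `s` -/
structure IsCirc (Z : Set T) (s : T → ℂ) : Prop where
  isOpen : IsOpen Z
  cont : ContinuousOn s Z
  ne : ∀ x ∈ Z, s x ≠ 0
  acyc : ∀ n, Acyc Z (n + 1)
  bound : ∀ z ∈ Ch Z 1, bd z = 0 → theta s z = 0 → ∃ w ∈ Ch Z 2, bd w = z
  conn : Conn Z

theorem IsCirc.of_slit {Z : Set T} {s : T → ℂ} (hZ : IsOpen Z) (hs : ContinuousOn s Z)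
    (h0 : ∀ x ∈ Z, s x ≠ 0) (hA : IsContr (slitA Z s)) (hB : IsContr (slitB Z s))
    (hP : IsContr (upZ Z s)) (hQ : IsContr (loZ Z s)) (hne : (upZ Z s).Nonempty) :
    IsCirc Z s where
  isOpen := hZ
  cont := hs
  ne := h0
  acyc n := circ_acyc hZ hs h0 (hA.acyc _) (hB.acyc _) (hP.acyc _) (hQ.acyc _)
  bound z hz hbd hθ := circ_bound hZ hs h0 (hA.acyc 0) (hB.acyc 0) hP.conn hQ.conn hz hbd hθ
  conn := by
    have := conn_union hA.conn hB.conn (by
      rw [slit_inter]
      exact hne.mono subset_union_left)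
    rwa [slit_union h0] at this

theorem IsCirc.rat {Z : Set T} {s : T → ℂ} (h : IsCirc Z s) {z : Chain T 1} (hz : z ∈ Ch Z 1)
    (hbd : bd z = 0) : ∃ r : ℚ, theta s z = r := theta_rat h.isOpen h.cont h.ne hz hbd

theorem HomeoOn.isCirc {A : Set T} {B : Set T'} {f : T → T'} {g : T' → T}
    (h : HomeoOn A B f g) (hA : IsOpen A) {s : T' → ℂ} (hB : IsCirc B s) :
    IsCirc A fun x => s (f x) where
  isOpen := hA
  cont := hB.cont.comp h.cf h.mf
  ne := fun x hx => hB.ne _ (h.mf x hx)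
  acyc n := h.acyc (hB.acyc n)
  bound z hz hbd hθ := by
    refine h.bound hz (hB.bound _ (pushOn_mem h.cf Subset.rfl h.mf hz) ?_ ?_)
    · rw [← pushOn_bd h.cf hz, hbd, map_zero]
    · rw [theta_pushOn h.cf s hz, hθ]
  conn := h.conn hB.conn

/-- change of `s` on `Z` by a function with vanishing winding numbers -/
theorem IsCirc.congr {Z : Set T} {s s' : T → ℂ} (h : IsCirc Z s) (hs' : ContinuousOn s' Z)
    (h0' : ∀ x ∈ Z, s' x ≠ 0) (hth : ∀ z ∈ Ch Z 1, bd z = 0 → theta s' z = 0 → theta s z = 0) :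
    IsCirc Z s' where
  isOpen := h.isOpen
  cont := hs'
  ne := h0'
  acyc := h.acyc
  bound z hz hbd hθ := h.bound z hz hbd (hth z hz hbd hθ)
  conn := h.conn

/-! ### Two charts glued along a homology circle -/

section two

variable {U₁ U₂ : Set T} {s : T → ℂ}

theorem two_acyc_zero (h1 : IsOpen U₁) (h2 : IsOpen U₂) (hc1 : IsContr U₁) (hc2 : IsContr U₂)
    (hZ : IsCirc (U₁ ∩ U₂) s) : Acyc (U₁ ∪ U₂) 0 :=
  acyc_union_zero h1 h2 (hc1.acyc 0) (hc2.acyc 0) hZ.conn

theorem two_acyc (h1 : IsOpen U₁) (h2 : IsOpen U₂) (hc1 : IsContr U₁) (hc2 : IsContr U₂)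
    (hZ : IsCirc (U₁ ∩ U₂) s) (n : ℕ) : Acyc (U₁ ∪ U₂) (n + 2) :=
  acyc_union h1 h2 (hc1.acyc _) (hc2.acyc _) (hZ.acyc n)

/-- the second homology of the union of two charts is at most one-dimensional -/
theorem two_dim (h1 : IsOpen U₁) (h2 : IsOpen U₂) (hc1 : IsContr U₁) (hc2 : IsContr U₂)
    (hZ : IsCirc (U₁ ∩ U₂) s) {z c : Chain T 2} (hz : z ∈ Ch (U₁ ∪ U₂) 2) (hbz : bd z = 0)
    (hc : c ∈ Ch (U₁ ∪ U₂) 2) (hbc : bd c = 0) :
    (∃ w ∈ Ch (U₁ ∪ U₂) 3, bd w = c) ∨ ∃ q : ℚ, ∃ w ∈ Ch (U₁ ∪ U₂) 3, bd w = z - q • c := by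
  obtain ⟨a, ha, b, hb, w, hw, rfl, hab, hm⟩ := mv_cycle h1 h2 hz hbz
  obtain ⟨a', ha', b', hb', w', hw', rfl, hab', hm'⟩ := mv_cycle h1 h2 hc hbc
  obtain ⟨r, hr⟩ := hZ.rat hm (bd_bd a)
  obtain ⟨r', hr'⟩ := hZ.rat hm' (bd_bd a')
  by_cases h0 : r' = 0
  · left
    rw [h0, Rat.cast_zero] at hr'
    obtain ⟨e, he, hea⟩ := hZ.bound _ hm' (bd_bd a') hr'
    obtain ⟨v, hv, hva⟩ := mv_bound (hc1.acyc 1) (hc2.acyc 1) ha' hb' hab' ⟨e, he, hea⟩
    exact ⟨v + w', Submodule.add_mem _ hv hw', by rw [map_add, hva]⟩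
  · right
    set q := r / r' with hq
    have hma : bd (a - q • a') ∈ Ch (U₁ ∩ U₂) 1 := by
      rw [map_sub, map_smul]
      exact Submodule.sub_mem _ hm (Submodule.smul_mem _ _ hm')
    have hth : theta s (bd (a - q • a')) = 0 := by
      rw [map_sub, map_smul, map_sub, map_smul, hr, hr', Algebra.smul_def, hq]
      have : (r' : ℂ) ≠ 0 := by exact_mod_cast h0
      rw [eq_ratCast]
      push_cast
      field_simp
      ring
    obtain ⟨e, he, hea⟩ := hZ.bound _ hma (bd_bd _) hth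
    have hab2 : bd (a - q • a') + bd (b - q • b') = 0 := by
      rw [map_sub, map_sub, map_smul, map_smul]
      have : bd b = - bd a := eq_neg_of_add_eq_zero_right hab
      have h' : bd b' = - bd a' := eq_neg_of_add_eq_zero_right hab'
      rw [this, h', smul_neg]
      abel
    obtain ⟨v, hv, hva⟩ := mv_bound (hc1.acyc 1) (hc2.acyc 1)
      (Submodule.sub_mem _ ha (Submodule.smul_mem _ q ha'))
      (Submodule.sub_mem _ hb (Submodule.smul_mem _ q hb')) hab2 ⟨e, he, hea⟩
    refine ⟨q, v + w - q • w', Submodule.sub_mem _ (Submodule.add_mem _ hv hw)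
      (Submodule.smul_mem _ _ hw'), ?_⟩
    rw [map_sub, map_add, map_smul, hva]
    module

end two

end Pool.Agent.Lib.MP_ee7b66_ag.Top
end

section

/-!
# Blow-ups of a homologically trivial space

`π : T → T₀` is continuous, `T₀` is homologically trivial, `π` has a continuous inverse `i` over
the complement of the closed set `P`, and `P` is contained in the disjoint union of the open sets
`D k`. Then every cycle of `T` of positive degree is homologous to a sum of cycles of the sets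
`π⁻¹(D k)`.
-/

set_option autoImplicit false

open Set Topology

namespace Pool.Agent.Lib.MP_ee7b66_ag.Top

variable {T T₀ : Type*} [TopologicalSpace T] [TopologicalSpace T₀]

/-- The data of a blow-up. -/
structure IsBlow {κ : Type*} (π : C(T, T₀)) (i : T₀ → T) (P : Set T₀) (D : κ → Set T₀) :
    Prop where
  contr : IsContr (Set.univ : Set T₀)
  closed : IsClosed P
  ci : ContinuousOn i Pᶜ
  πi : ∀ y ∉ P, π (i y) = y
  iπ : ∀ x, π x ∉ P → i (π x) = x
  open_D : ∀ k, IsOpen (D k)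
  disj : ∀ k l, k ≠ l → Disjoint (D k) (D l)
  sub : P ⊆ ⋃ k, D k

variable {κ : Type*} [Fintype κ] {π : C(T, T₀)} {i : T₀ → T} {P : Set T₀} {D : κ → Set T₀}

theorem blow_cycle (h : IsBlow π i P D) {n : ℕ} {z : Chain T (n + 1)} (hbd : bd z = 0) :
    ∃ y : κ → Chain T (n + 1), (∀ k, y k ∈ Ch (π ⁻¹' D k) (n + 1)) ∧ (∀ k, bd (y k) = 0) ∧
      ∃ w, z = ∑ k, y k + bd w := by
  have hP : IsOpen Pᶜ := h.closed.isOpen_compl
  have hDo : IsOpen (⋃ k, D k) := isOpen_iUnion h.open_D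
  have hcov : Pᶜ ∪ (⋃ k, D k) = Set.univ := by
    ext y
    simp only [mem_union, mem_compl_iff, mem_univ, iff_true]
    by_cases hy : y ∈ P
    · exact Or.inr (h.sub hy)
    · exact Or.inl hy
  have hcov' : π ⁻¹' Pᶜ ∪ π ⁻¹' (⋃ k, D k) = Set.univ := by
    rw [← preimage_union, hcov, preimage_univ]
  obtain ⟨a, ha, b, hb, w, -, rfl, hab, hm⟩ := mv_cycle (hP.preimage π.continuous)
    (hDo.preimage π.continuous) (z := z) (by rw [hcov', Ch_univ]; trivial) hbd
  -- the image in `T₀` bounds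
  have hbd0 : bd (mapC π (a + b)) = 0 := by
    rw [← mapC_bd, map_add, hab, map_zero]
  obtain ⟨u, -, hu⟩ := h.contr.acyc n (mapC π (a + b)) (by rw [Ch_univ]; trivial) hbd0
  have hπa : mapC π a ∈ Ch Pᶜ (n + 1) := mapC_mem π (fun x hx => hx) ha
  have hπb : mapC π b ∈ Ch (⋃ k, D k) (n + 1) := mapC_mem π (fun x hx => hx) hb
  obtain ⟨uA, huA, uD, huD, v, -, hv⟩ := small hP hDo (z := u)
    (by rw [hcov, Ch_univ]; trivial) (by
      rw [hu, map_add]
      exact Submodule.add_mem_sup hπa hπb)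
  have hsplit : mapC π a - bd uA = bd uD - mapC π b := by
    have h1 : bd u = bd uA + bd uD := by
      rw [hv, map_add, map_add, bd_bd, add_zero]
    rw [hu, map_add] at h1
    rw [sub_eq_sub_iff_add_eq_add, h1]
    exact _root_.add_comm (bd uA) (bd uD)
  have hy : mapC π a - bd uA ∈ Ch (Pᶜ ∩ ⋃ k, D k) (n + 1) := by
    refine mem_Ch_inter (Submodule.sub_mem _ hπa (bd_mem huA)) ?_
    rw [hsplit]
    exact Submodule.sub_mem _ (bd_mem huD) hπb
  -- lift to `T`
  have hlift : a - bd (pushOn h.ci uA) = pushOn h.ci (mapC π a - bd uA) := by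
    rw [map_sub, pushOn_bd h.ci huA]
    congr 1
    have h1 : pushOn (A := π ⁻¹' Pᶜ) π.continuous.continuousOn a = mapC π a :=
      pushOn_eq_mapC π _ ha
    rw [← h1]
    exact (pushOn_pushOn (A := π ⁻¹' Pᶜ) (B := Pᶜ) π.continuous.continuousOn h.ci
      (fun x hx => hx) (fun x hx => h.iπ x hx) ha).symm
  have hlift' : a - bd (pushOn h.ci uA) ∈ Ch (π ⁻¹' ⋃ k, D k) (n + 1) := by
    rw [hlift]
    refine pushOn_mem h.ci inter_subset_left (fun y hy => ?_) hy
    rw [mem_preimage, h.πi y hy.1]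
    exact hy.2
  have hbr : b + (a - bd (pushOn h.ci uA)) ∈ Ch (⋃ k, π ⁻¹' D k) (n + 1) := by
    rw [← preimage_iUnion]
    exact Submodule.add_mem _ hb hlift'
  obtain ⟨y, hy1, hy2, hy3⟩ := exists_sum_cycle_of_disjoint
    (U := fun k => π ⁻¹' D k) (fun k => (h.open_D k).preimage π.continuous)
    (fun k l hkl => (h.disj k l hkl).preimage π) hbr (by
      rw [map_add, map_sub, bd_bd, sub_zero, add_comm, hab])
  refine ⟨y, hy1, hy2, pushOn h.ci uA + w, ?_⟩
  rw [← hy3, map_add]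
  abel

/-- vanishing of the homology of the blow-up -/
theorem blow_acyc (h : IsBlow π i P D) {n : ℕ} (hD : ∀ k, Acyc (π ⁻¹' D k) n) :
    Acyc (Set.univ : Set T) n := by
  intro z _ hbd
  obtain ⟨y, hy1, hy2, w, rfl⟩ := blow_cycle h hbd
  choose v hv hvy using fun k => hD k (y k) (hy1 k) (hy2 k)
  refine ⟨∑ k, v k + w, by rw [Ch_univ]; trivial, ?_⟩
  rw [map_add, map_sum]
  congr 1
  exact Finset.sum_congr rfl fun k _ => hvy k

/-- the second homology of the blow-up is spanned by the cycles `c k` of the sets `π⁻¹(D k)` if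
these sets have one-dimensional second homology and the cycles `c k` do not bound -/
theorem blow_span (h : IsBlow π i P D) (c : κ → Chain T 2)
    (hdim : ∀ k, ∀ z ∈ Ch (π ⁻¹' D k) 2, bd z = 0 → ∃ q : ℚ, ∃ w, bd w = z - q • c k)
    {z : Chain T 2} (hbd : bd z = 0) : ∃ q : κ → ℚ, ∃ w, z = ∑ k, q k • c k + bd w := by
  obtain ⟨y, hy1, hy2, w, rfl⟩ := blow_cycle h hbd
  choose q v hv using fun k => hdim k (y k) (hy1 k) (hy2 k)
  refine ⟨q, ∑ k, v k + w, ?_⟩
  rw [map_add, map_sum, ← add_assoc, ← Finset.sum_add_distrib]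
  congr 1
  refine Finset.sum_congr rfl fun k _ => ?_
  rw [hv]
  abel

end Pool.Agent.Lib.MP_ee7b66_ag.Top
end
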