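import Mathlib
import Pool.Agent.Lib.MP_ee7b66_ag.Mg.G012
import Pool.Agent.Lib.MP_ee7b66_ag.Top.Model

section

/-!
# The complement of disjoint tubes

`X` is the complement in `T` of the zero sets of functions `s j` on disjoint open sets `N j` such
that `X ∩ N j` is a homology circle with respect to `s j`. If `H_n(T) = 0` for `n ≠ 0, 2` and
`H_2(T)` is spanned by cycles `c k` with invertible matrix of intersection numbers with the zero
sets, then `H_n(X) = 0` for `n ≥ 1`.
-/

set_option autoImplicit false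

open Set Topology

namespace Pool.Agent.Lib.MP_ee7b66_ag.Top

variable {T : Type*} [TopologicalSpace T]

/-- if a sum of chains in disjoint sets is a chain of `X`, all of them are -/
theorem mem_of_sum_mem {ι : Type*} [Fintype ι] {U : ι → Set T}
    (hd : ∀ i j, i ≠ j → Disjoint (U i) (U j)) {X : Set T} {n : ℕ} (y : ι → Chain T n)
    (hy : ∀ i, y i ∈ Ch (U i) n) (h : ∑ i, y i ∈ Ch X n) (i : ι) : y i ∈ Ch X n := by
  classical
  rw [mem_Ch] at h ⊢
  intro σ hσ
  refine h σ ?_
  rw [Finsupp.mem_support_iff, Finsupp.finsetSum_apply, Finset.sum_eq_single i]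
  · exact Finsupp.mem_support_iff.1 hσ
  · intro j _ hji
    by_contra hne
    have h1 := mem_Ch.1 (hy i) σ hσ (vtx n 0)
    have h2 := mem_Ch.1 (hy j) σ (Finsupp.mem_support_iff.2 hne) (vtx n 0)
    exact Set.disjoint_left.1 (hd j i hji) h2 h1
  · intro h'
    exact absurd (Finset.mem_univ i) h'

/-- Tubes around the closed subset `Xᶜ`. -/
structure IsTubes {ι : Type*} (X : Set T) (N : ι → Set T) (s : ι → T → ℂ) : Prop where
  open_X : IsOpen X
  open_N : ∀ j, IsOpen (N j)
  disj : ∀ i j, i ≠ j → Disjoint (N i) (N j)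
  cover : X ∪ ⋃ j, N j = Set.univ
  circ : ∀ j, IsCirc (X ∩ N j) (s j)

variable {ι : Type*} [Fintype ι] {X : Set T} {N : ι → Set T} {s : ι → T → ℂ}

/-- decomposition of a chain whose boundary is in `X` and in the tubes -/
theorem tube_split (h : IsTubes X N s) {n : ℕ} (w : Chain T (n + 2)) {x : Chain T (n + 1)}
    (hx : x ∈ Ch X (n + 1)) {y : ι → Chain T (n + 1)} (hy : ∀ j, y j ∈ Ch (N j) (n + 1))
    (hw : x = ∑ j, y j + bd w) :
    ∃ wX ∈ Ch X (n + 2), ∃ v : ι → Chain T (n + 2), (∀ j, v j ∈ Ch (N j) (n + 2)) ∧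
      (∀ j, y j + bd (v j) ∈ Ch (X ∩ N j) (n + 1)) ∧ x = bd wX + ∑ j, (y j + bd (v j)) := by
  have hNo : IsOpen (⋃ j, N j) := isOpen_iUnion h.open_N
  have hyN : ∑ j, y j ∈ Ch (⋃ j, N j) (n + 1) :=
    Submodule.sum_mem _ fun j _ => Ch_mono (subset_iUnion N j) _ (hy j)
  have hbw : bd w = x - ∑ j, y j := by rw [hw]; abel
  obtain ⟨wX, hwX, wN, hwN, u, -, hu⟩ := small h.open_X hNo (z := w)
    (by rw [h.cover, Ch_univ]; trivial) (by
      rw [hbw, sub_eq_add_neg]
      exact Submodule.add_mem_sup hx (Submodule.neg_mem _ hyN))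
  obtain ⟨v, hv, hvN⟩ := exists_sum_of_disjoint h.open_N h.disj hwN
  have hbd : bd w = bd wX + ∑ j, bd (v j) := by
    rw [hu, map_add, map_add, bd_bd, add_zero, hvN, map_sum]
  have hx' : x = bd wX + ∑ j, (y j + bd (v j)) := by
    rw [Finset.sum_add_distrib, hw, hbd]
    abel
  refine ⟨wX, hwX, v, hv, ?_, hx'⟩
  have hmN : ∀ j, y j + bd (v j) ∈ Ch (N j) (n + 1) := fun j =>
    Submodule.add_mem _ (hy j) (bd_mem (hv j))
  have hsum : ∑ j, (y j + bd (v j)) ∈ Ch X (n + 1) := by
    have : ∑ j, (y j + bd (v j)) = x - bd wX := by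
      rw [hx']; abel
    rw [this]
    exact Submodule.sub_mem _ hx (bd_mem hwX)
  exact fun j => mem_Ch_inter (mem_of_sum_mem h.disj _ hmN hsum j) (hmN j)

/-- a cycle of `X` of degree at least two which bounds in `T` bounds in `X` -/
theorem tube_bound (h : IsTubes X N s) {n : ℕ} {z : Chain T (n + 2)} (hz : z ∈ Ch X (n + 2))
    (hw : ∃ w, bd w = z) : ∃ w ∈ Ch X (n + 3), bd w = z := by
  obtain ⟨w, hw⟩ := hw
  obtain ⟨wX, hwX, v, hv, hvX, he⟩ := tube_split h (n := n + 1) w hz (y := fun _ => 0)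
    (fun _ => Submodule.zero_mem _) (by rw [Finset.sum_const_zero, zero_add, hw])
  have hvX' : ∀ j, bd (v j) ∈ Ch (X ∩ N j) (n + 2) := fun j => by
    have := hvX j
    rwa [zero_add] at this
  choose e hem he2 using fun j => (h.circ j).acyc n (bd (v j)) (hvX' j) (bd_bd (v j))
  refine ⟨wX + ∑ j, e j, Submodule.add_mem _ hwX
    (Submodule.sum_mem _ fun j _ => Ch_mono inter_subset_left _ (hem j)), ?_⟩
  rw [map_add, map_sum, he]
  congr 1
  exact Finset.sum_congr rfl fun j _ => by rw [he2, zero_add]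

variable {κ : Type*} [Fintype κ]

/-- Cycles `c k = cX k + ∑ j, cN k j` with intersection numbers `M k j` with the zero sets. -/
structure IsCycles (X : Set T) (N : ι → Set T) (s : ι → T → ℂ) (cX : κ → Chain T 2)
    (cN : κ → ι → Chain T 2) (M : κ → ι → ℚ) : Prop where
  mX : ∀ k, cX k ∈ Ch X 2
  mN : ∀ k j, cN k j ∈ Ch (N j) 2
  bd_eq : ∀ k, bd (cX k) + ∑ j, bd (cN k j) = 0
  theta_eq : ∀ k j, theta (s j) (bd (cN k j)) = M k j

theorem IsCycles.bd_mem {cX : κ → Chain T 2} {cN : κ → ι → Chain T 2} {M : κ → ι → ℚ}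
    (h : IsTubes X N s) (hc : IsCycles X N s cX cN M) (k : κ) (j : ι) :
    bd (cN k j) ∈ Ch (X ∩ N j) 1 := by
  have hmN : ∀ j, bd (cN k j) ∈ Ch (N j) 1 := fun j => Top.bd_mem (hc.mN k j)
  refine mem_Ch_inter (mem_of_sum_mem h.disj _ hmN ?_ j) (hmN j)
  rw [eq_neg_of_add_eq_zero_right (hc.bd_eq k)]
  exact Submodule.neg_mem _ (Top.bd_mem (hc.mX k))

/-- if a combination of the cycles `c k` is homologous to a cycle of `X`, its intersection numbers
are zero -/
theorem tube_inj (h : IsTubes X N s) {cX : κ → Chain T 2} {cN : κ → ι → Chain T 2}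
    {M : κ → ι → ℚ} (hc : IsCycles X N s cX cN M) {z : Chain T 2} (hz : z ∈ Ch X 2)
    {q : κ → ℚ} {w : Chain T 3} (hw : z = ∑ k, q k • (cX k + ∑ j, cN k j) + bd w) (j : ι) :
    ∑ k, q k * M k j = 0 := by
  obtain ⟨wX, hwX, v, hv, hvX, he⟩ := tube_split h (n := 1) w
    (x := z - ∑ k, q k • cX k) (Submodule.sub_mem _ hz
      (Submodule.sum_mem _ fun k _ => Submodule.smul_mem _ _ (hc.mX k)))
    (y := fun j => ∑ k, q k • cN k j)
    (fun j => Submodule.sum_mem _ fun k _ => Submodule.smul_mem _ _ (hc.mN k j)) (by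
      rw [hw, Finset.sum_comm]
      simp only [smul_add, Finset.sum_add_distrib, Finset.smul_sum]
      abel)
  have h1 : theta (s j) (bd (∑ k, q k • cN k j + bd (v j))) = 0 :=
    theta_bd (h.circ j).cont (h.circ j).ne (hvX j)
  rw [map_add, bd_bd, add_zero, map_sum, map_sum] at h1
  have h2 : ∀ k, theta (s j) (bd (q k • cN k j)) = ((q k * M k j : ℚ) : ℂ) := by
    intro k
    rw [map_smul, map_smul, hc.theta_eq, Algebra.smul_def, eq_ratCast]
    push_cast
    rfl
  simp only [h2] at h1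
  rw [← Rat.cast_sum] at h1
  exact_mod_cast h1

/-- `H_n(X; ℚ) = 0` for all `n ≥ 1` -/
theorem gysin (h : IsTubes X N s) {cX : κ → Chain T 2} {cN : κ → ι → Chain T 2}
    {M : κ → ι → ℚ} (hc : IsCycles X N s cX cN M)
    (hinj : ∀ q : κ → ℚ, (∀ j, ∑ k, q k * M k j = 0) → q = 0)
    (hsurj : ∀ v : ι → ℚ, ∃ q : κ → ℚ, ∀ j, ∑ k, q k * M k j = v j)
    (h0 : Acyc (Set.univ : Set T) 0) (h2 : ∀ n, Acyc (Set.univ : Set T) (n + 2))
    (hspan : ∀ z : Chain T 2, bd z = 0 → ∃ q : κ → ℚ, ∃ w : Chain T 3,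
      z = ∑ k, q k • (cX k + ∑ j, cN k j) + bd w) (n : ℕ) : Acyc X n := by
  match n with
  | 0 =>
    intro z hz hbd
    obtain ⟨w, -, hw⟩ := h0 z (by rw [Ch_univ]; trivial) hbd
    obtain ⟨wX, hwX, v, hv, hvX, he⟩ := tube_split h (n := 0) w hz (y := fun _ => 0)
      (fun _ => Submodule.zero_mem _) (by simp [hw])
    have hvX' : ∀ j, bd (v j) ∈ Ch (X ∩ N j) 1 := fun j => by simpa using hvX j
    choose r hr using fun j => (h.circ j).rat (hvX' j) (bd_bd (v j))
    obtain ⟨q, hq⟩ := hsurj r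
    have hcyc : ∀ j, ∃ e ∈ Ch (X ∩ N j) 2, bd e = bd (v j) - ∑ k, q k • bd (cN k j) := by
      intro j
      refine (h.circ j).bound _ (Submodule.sub_mem _ (hvX' j)
        (Submodule.sum_mem _ fun k _ => Submodule.smul_mem _ _ (hc.bd_mem h k j))) ?_ ?_
      · rw [map_sub, bd_bd, map_sum, zero_sub, neg_eq_zero]
        exact Finset.sum_eq_zero fun k _ => by rw [map_smul, bd_bd, smul_zero]
      · rw [map_sub, hr, map_sum, ← hq j, Rat.cast_sum, sub_eq_zero]
        refine Finset.sum_congr rfl fun k _ => ?_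
        rw [map_smul, hc.theta_eq, Algebra.smul_def, eq_ratCast]
        push_cast
        rfl
    choose e hem he2 using hcyc
    refine ⟨wX + ∑ j, e j - ∑ k, q k • cX k, Submodule.sub_mem _ (Submodule.add_mem _ hwX
      (Submodule.sum_mem _ fun j _ => Ch_mono inter_subset_left _ (hem j)))
      (Submodule.sum_mem _ fun k _ => Submodule.smul_mem _ _ (hc.mX k)), ?_⟩
    have h3 : ∀ k, bd (q k • cX k) = - ∑ j, q k • bd (cN k j) := fun k => by
      rw [map_smul, eq_neg_of_add_eq_zero_left (hc.bd_eq k), smul_neg, Finset.smul_sum]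
    rw [map_sub, map_add, map_sum, map_sum, he]
    simp only [h3, he2, zero_add, Finset.sum_sub_distrib, Finset.sum_neg_distrib]
    rw [Finset.sum_comm]
    abel
  | 1 =>
    intro z hz hbd
    obtain ⟨q, w, hw⟩ := hspan z hbd
    have hq : q = 0 := hinj q fun j => tube_inj h hc hz hw j
    refine tube_bound h hz ⟨w, ?_⟩
    rw [hw, hq]
    simp
  | n + 2 =>
    intro z hz hbd
    obtain ⟨w, -, hw⟩ := h2 n z (by rw [Ch_univ]; trivial) hbd
    exact tube_bound h hz ⟨w, hw⟩

end Pool.Agent.Lib.MP_ee7b66_ag.Top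
end

section

/-!
# The model sets of `ℂ²`
-/

set_option autoImplicit false

open Set Topology

namespace Pool.Agent.Lib.MP_ee7b66_ag.Top

theorem continuous_crd (i : Fin 2) : Continuous fun z : C2 => z i := continuous_apply i

theorem isOpen_Sb : IsOpen Sb :=
  (isOpen_lt (continuous_crd 0).norm continuous_const).inter
    (isOpen_lt ((continuous_crd 0).mul (continuous_crd 1)).norm continuous_const)

theorem isOpen_Rb : IsOpen Rb := isOpen_lt (continuous_crd 1).norm continuous_const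

theorem starConvex_Sb : StarConvex ℝ (0 : C2) Sb := by
  intro z hz a b ha hb hab
  obtain ⟨h1, h2⟩ := hz
  have hb1 : b ≤ 1 := by linarith
  constructor
  · simp only [smul_zero, zero_add, Pi.smul_apply]
    rw [norm_smul, Real.norm_eq_abs, abs_of_nonneg hb]
    calc b * ‖z 0‖ ≤ 1 * ‖z 0‖ := mul_le_mul_of_nonneg_right hb1 (norm_nonneg _)
      _ < 1 := by linarith
  · simp only [smul_zero, zero_add, Pi.smul_apply]
    rw [smul_mul_smul_comm, norm_smul, Real.norm_eq_abs, abs_of_nonneg (mul_nonneg hb hb)]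
    calc b * b * ‖z 0 * z 1‖ ≤ 1 * ‖z 0 * z 1‖ :=
          mul_le_mul_of_nonneg_right (by nlinarith) (norm_nonneg _)
      _ < 1 := by linarith

theorem isContr_Sb : IsContr Sb := StarConvex.isContr starConvex_Sb

theorem convex_Rb : Convex ℝ Rb := by
  intro z hz w hw a b ha hb hab
  have hz' : ‖z 1‖ < 1 := hz
  have hw' : ‖w 1‖ < 1 := hw
  change ‖(a • z + b • w) 1‖ < 1
  simp only [Pi.add_apply, Pi.smul_apply]
  refine (norm_add_le _ _).trans_lt ?_
  rw [norm_smul, norm_smul, Real.norm_eq_abs, Real.norm_eq_abs, abs_of_nonneg ha,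
    abs_of_nonneg hb]
  rcases ha.eq_or_lt with rfl | ha
  · rw [zero_add] at hab
    rw [hab, zero_mul, zero_add, one_mul]
    exact hw'
  · nlinarith [mul_lt_mul_of_pos_left hz' ha, mul_le_mul_of_nonneg_left hw'.le hb]

theorem isContr_Rb : IsContr Rb := Convex.isContr convex_Rb

/-- if `R` is star-shaped with respect to the four points `(0, ± c)`, `(0, ± i c)`, then the part
of `R` where the second coordinate is not zero is a homology circle -/
theorem isCirc_of_star {R : Set C2} (hR : IsOpen R) {c : ℝ} (hc : 0 < c)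
    (hs : ∀ u ∈ ({1, -1, Complex.I, -Complex.I} : Set ℂ), StarConvex ℝ (![0, c * u] : C2) R)
    (hne : R.Nonempty) : IsCirc (R ∩ {z | z 1 ≠ 0}) fun z => z 1 := by
  have hcoord : ∀ (u : ℂ) (a b : ℝ) (z : C2), (a • (![0, c * u] : C2) + b • z) 1 =
      (a * c : ℝ) * u + b • z 1 := by
    intro u a b z
    simp only [Pi.add_apply, Pi.smul_apply, Matrix.cons_val_one, Complex.real_smul,
      Complex.ofReal_mul]
    simp
    ring
  have hA : StarConvex ℝ (![0, c * 1] : C2) (slitA (R ∩ {z | z 1 ≠ 0}) fun z => z 1) := by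
    intro z hz a b ha hb hab
    have h1 : (a • (![0, c * 1] : C2) + b • z) 1 ∈ Complex.slitPlane := by
      rw [hcoord, mul_one]
      exact slit_star hc ha hb hab hz.2
    exact ⟨⟨hs 1 (by simp) hz.1.1 ha hb hab, Complex.slitPlane_ne_zero h1⟩, h1⟩
  have hB : StarConvex ℝ (![0, c * (-1)] : C2) (slitB (R ∩ {z | z 1 ≠ 0}) fun z => z 1) := by
    intro z hz a b ha hb hab
    have h1 : -((a • (![0, c * (-1)] : C2) + b • z) 1) ∈ Complex.slitPlane := by
      rw [hcoord]
      have := slit_star hc ha hb hab hz.2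
      convert this using 1
      rw [mul_neg_one, neg_add, neg_neg, smul_neg]
    exact ⟨⟨hs (-1) (by simp) hz.1.1 ha hb hab,
      fun h => Complex.slitPlane_ne_zero h1 (by rw [h, neg_zero])⟩, h1⟩
  have him : ∀ (u : ℂ) (a b : ℝ) (z : C2), ((a • (![0, c * u] : C2) + b • z) 1).im =
      a * c * u.im + b * (z 1).im := by
    intro u a b z
    rw [hcoord]
    simp
  have hP : StarConvex ℝ (![0, c * Complex.I] : C2) (upZ (R ∩ {z | z 1 ≠ 0}) fun z => z 1) := by
    intro z hz a b ha hb hab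
    have h1 : 0 < ((a • (![0, c * Complex.I] : C2) + b • z) 1).im := by
      rw [him, Complex.I_im, mul_one]
      have hz2 : 0 < (z 1).im := hz.2
      rcases ha.eq_or_lt with rfl | ha
      · rw [zero_add] at hab
        rw [hab]; linarith
      · have := mul_pos ha hc
        have := mul_nonneg hb hz2.le
        linarith
    exact ⟨⟨hs Complex.I (by simp) hz.1.1 ha hb hab, fun h => by rw [h] at h1; simp at h1⟩, h1⟩
  have hQ : StarConvex ℝ (![0, c * (-Complex.I)] : C2)
      (loZ (R ∩ {z | z 1 ≠ 0}) fun z => z 1) := by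
    intro z hz a b ha hb hab
    have h1 : ((a • (![0, c * (-Complex.I)] : C2) + b • z) 1).im < 0 := by
      rw [him, Complex.neg_im, Complex.I_im]
      have hz2 : (z 1).im < 0 := hz.2
      rcases ha.eq_or_lt with rfl | ha
      · rw [zero_add] at hab
        rw [hab]; linarith
      · have := mul_pos ha hc
        have := mul_nonneg hb (neg_nonneg.2 hz2.le)
        nlinarith
    exact ⟨⟨hs (-Complex.I) (by simp) hz.1.1 ha hb hab,
      fun h => by rw [h] at h1; simp at h1⟩, h1⟩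
  refine IsCirc.of_slit (hR.inter (isOpen_ne_fun (continuous_crd 1) continuous_const))
    (continuous_crd 1).continuousOn (fun z hz => hz.2) (StarConvex.isContr hA)
    (StarConvex.isContr hB) (StarConvex.isContr hP) (StarConvex.isContr hQ) ?_
  obtain ⟨z, hz⟩ := hne
  have h1 := hs Complex.I (by simp) hz (a := 1) (b := 0) zero_le_one le_rfl (add_zero _)
  rw [one_smul, zero_smul, add_zero] at h1
  have h2 : (![0, (c : ℂ) * Complex.I] : C2) 1 = c * Complex.I := by simp
  refine ⟨_, ⟨h1, ?_⟩, ?_⟩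
  · rw [mem_ofPred_eq, h2]
    exact mul_ne_zero (by exact_mod_cast hc.ne') Complex.I_ne_zero
  · rw [mem_preimage, mem_ofPred_eq, h2]
    simpa using hc

theorem norm_unit {u : ℂ} (hu : u ∈ ({1, -1, Complex.I, -Complex.I} : Set ℂ)) : ‖u‖ = 1 := by
  rcases hu with h | h | h | h
  · rw [h]; simp
  · rw [h]; simp
  · rw [h]; simp
  · rw [mem_singleton_iff] at h
    rw [h]; simp

theorem isCirc_Sb : IsCirc (Sb ∩ {z | z 1 ≠ 0}) fun z => z 1 := by
  refine isCirc_of_star isOpen_Sb one_pos ?_ ⟨0, by simp [Sb]⟩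
  intro u hu z hz a b ha hb hab
  have hu1 := norm_unit hu
  obtain ⟨h1, h2⟩ := hz
  have e0 : (a • (![0, (1 : ℝ) * u] : C2) + b • z) 0 = b • z 0 := by simp
  have e1 : (a • (![0, (1 : ℝ) * u] : C2) + b • z) 1 = a • u + b • z 1 := by simp
  have hb1 : b ≤ 1 := by linarith
  constructor
  · rw [e0, norm_smul, Real.norm_eq_abs, abs_of_nonneg hb]
    calc b * ‖z 0‖ ≤ 1 * ‖z 0‖ := mul_le_mul_of_nonneg_right hb1 (norm_nonneg _)
      _ < 1 := by linarith
  · rw [e0, e1]
    rcases hb.eq_or_lt with rfl | hb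
    · rw [zero_smul, zero_mul, norm_zero]
      exact one_pos
    · have h3 : b • z 0 * (a • u + b • z 1) = (b * a) • (z 0 * u) + (b * b) • (z 0 * z 1) := by
        simp only [Complex.real_smul]
        push_cast
        ring
      rw [h3]
      refine (norm_add_le _ _).trans_lt ?_
      rw [norm_smul, norm_smul, norm_mul (z 0), hu1, mul_one, Real.norm_eq_abs,
        Real.norm_eq_abs, abs_of_nonneg (mul_nonneg hb.le ha),
        abs_of_nonneg (mul_nonneg hb.le hb.le)]
      have h4 := mul_le_mul_of_nonneg_left h1.le (mul_nonneg hb.le ha)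
      have h5 := mul_lt_mul_of_pos_left h2 (mul_pos hb hb)
      nlinarith

theorem isCirc_Rb : IsCirc (Rb ∩ {z | z 1 ≠ 0}) fun z => z 1 := by
  refine isCirc_of_star isOpen_Rb (c := 1 / 2) (by norm_num) ?_ ⟨0, by simp [Rb]⟩
  intro u hu
  refine Convex.starConvex convex_Rb ?_
  change ‖(![0, ((1 / 2 : ℝ) : ℂ) * u] : C2) 1‖ < 1
  have e1 : (![0, ((1 / 2 : ℝ) : ℂ) * u] : C2) 1 = ((1 / 2 : ℝ) : ℂ) * u := by simp
  rw [e1, norm_mul, norm_unit hu, Complex.norm_real, Real.norm_eq_abs]
  norm_num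

/-! ### Open embeddings of subsets -/

/-- the homeomorphism between a subset and its image under an open embedding -/
theorem exists_homeoOn {E Y : Type*} [TopologicalSpace E] [TopologicalSpace Y] {S : Set E}
    {f : S → Y} (hf : IsOpenEmbedding f) (hne : S.Nonempty) :
    ∃ (G : Y → E) (F : E → Y), HomeoOn (range f) S G F ∧ (∀ z : S, G (f z) = z) ∧
      ∀ z : S, F z = f z := by
  classical
  obtain ⟨z₀, hz₀⟩ := hne
  let e : S ≃ₜ range f := hf.isEmbedding.toHomeomorph
  have he : ∀ z, (e z : Y) = f z := fun z => rfl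
  let G : Y → E := fun y => if h : y ∈ range f then (e.symm ⟨y, h⟩ : E) else z₀
  let F : E → Y := fun z => if h : z ∈ S then f ⟨z, h⟩ else f ⟨z₀, hz₀⟩
  have hG : ∀ z : S, G (f z) = z := by
    intro z
    have hz : f z ∈ range f := ⟨z, rfl⟩
    have : (⟨f z, hz⟩ : range f) = e z := rfl
    change (if h : f z ∈ range f then (e.symm ⟨f z, h⟩ : E) else z₀) = z
    rw [dif_pos hz, this, e.symm_apply_apply]
  have hF : ∀ z : S, F z = f z := by
    intro z
    change (if h : (z : E) ∈ S then f ⟨z, h⟩ else f ⟨z₀, hz₀⟩) = f z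
    rw [dif_pos z.2]
  refine ⟨G, F, ⟨?_, ?_, ?_, ?_, ?_, ?_⟩, hG, hF⟩
  · rw [continuousOn_iff_continuous_domRestrict]
    have : (range f).domRestrict G = fun y => ((e.symm y : S) : E) := by
      funext y
      change (if h : (y : Y) ∈ range f then (e.symm ⟨y, h⟩ : E) else z₀) = _
      rw [dif_pos y.2]
    rw [this]
    exact continuous_subtype_val.comp e.symm.continuous
  · rw [continuousOn_iff_continuous_domRestrict]
    have : S.domRestrict F = f := by
      funext z
      exact hF z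
    rw [this]
    exact hf.continuous
  · rintro _ ⟨z, rfl⟩
    rw [hG]
    exact z.2
  · intro z hz
    have := hF ⟨z, hz⟩
    rw [show F z = f ⟨z, hz⟩ from this]
    exact ⟨_, rfl⟩
  · rintro _ ⟨z, rfl⟩
    rw [hG, hF]
  · intro z hz
    have h1 : F z = f ⟨z, hz⟩ := hF ⟨z, hz⟩
    rw [h1]
    exact hG ⟨z, hz⟩

end Pool.Agent.Lib.MP_ee7b66_ag.Top
end
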